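import Pool.Agent.H7.SZ.Stm
import Pool.Agent.H64.G.R_seed8.Helper240.ZFM.B1

/-!
# Project SZ, stub GW: Koebe's growth theorem and the growth of the root transform
-/

set_option autoImplicit false

namespace Pool.Agent.H7.SZ

open Metric Set Filter Topology

/-- distortion -/
theorem gw_dist {f : ℂ → ℂ} (hd : DifferentiableOn ℂ f (ball 0 1)) (h1 : deriv f 0 = 1)
    (hk : ∀ ζ ∈ ball (0 : ℂ) 1, ‖deriv (deriv f) ζ * (1 - ‖ζ‖ ^ 2 : ℝ) - 2 * (starRingEnd ℂ) ζ * deriv f ζ‖ ≤ 4 * ‖deriv f ζ‖)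
    {u : ℂ} (hu : ‖u‖ = 1) {r : ℝ} (hr0 : 0 ≤ r) (hr : r < 1) :
    ‖deriv f ((r : ℂ) * u)‖ ≤ (1 + r) / (1 - r) ^ 3 := by
  -- derivative of `t ↦ deriv f (t u)`
  have hn : ∀ t : ℝ, 0 ≤ t → ‖(t : ℂ) * u‖ = t := by
    intro t ht
    rw [norm_mul, hu, mul_one, Complex.norm_real, Real.norm_eq_abs, abs_of_nonneg ht]
  have hb : ∀ t : ℝ, 0 ≤ t → t < 1 → (t : ℂ) * u ∈ ball (0 : ℂ) 1 := by
    intro t ht ht1
    rw [mem_ball_zero_iff, hn t ht]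
    exact ht1
  have hD : ∀ t : ℝ, 0 ≤ t → t < 1 → HasDerivAt (fun t : ℝ => deriv f ((t : ℂ) * u))
      (deriv (deriv f) ((t : ℂ) * u) * u) t := by
    intro t ht ht1
    have a1 : HasDerivAt (deriv f) (deriv (deriv f) ((t : ℂ) * u)) ((t : ℂ) * u) :=
      ((hd.deriv isOpen_ball).differentiableAt (isOpen_ball.mem_nhds (hb t ht ht1))).hasDerivAt
    have a2 : HasDerivAt (fun z : ℂ => z * u) u (t : ℂ) := by
      simpa using (hasDerivAt_id (t : ℂ)).mul_const u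
    exact (HasDerivAt.comp (t : ℂ) a1 a2).comp_ofReal
  have hbd : ∀ t : ℝ, 0 ≤ t → t < 1 → ‖deriv (deriv f) ((t : ℂ) * u)‖ * (1 - t ^ 2) ≤
      (4 + 2 * t) * ‖deriv f ((t : ℂ) * u)‖ := by
    intro t ht ht1
    have a1 := hk _ (hb t ht ht1)
    rw [hn t ht] at a1
    have a2 : ‖deriv (deriv f) ((t : ℂ) * u) * (1 - t ^ 2 : ℝ)‖ ≤
        ‖deriv (deriv f) ((t : ℂ) * u) * (1 - t ^ 2 : ℝ) -
          2 * (starRingEnd ℂ) ((t : ℂ) * u) * deriv f ((t : ℂ) * u)‖ +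
        ‖2 * (starRingEnd ℂ) ((t : ℂ) * u) * deriv f ((t : ℂ) * u)‖ := by
      have := norm_add_le (deriv (deriv f) ((t : ℂ) * u) * (1 - t ^ 2 : ℝ) -
          2 * (starRingEnd ℂ) ((t : ℂ) * u) * deriv f ((t : ℂ) * u))
        (2 * (starRingEnd ℂ) ((t : ℂ) * u) * deriv f ((t : ℂ) * u))
      rwa [sub_add_cancel] at this
    have a3 : ‖2 * (starRingEnd ℂ) ((t : ℂ) * u) * deriv f ((t : ℂ) * u)‖ =
        2 * t * ‖deriv f ((t : ℂ) * u)‖ := by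
      rw [norm_mul, norm_mul, RCLike.norm_conj, hn t ht, Complex.norm_ofNat]
    have a4 : ‖deriv (deriv f) ((t : ℂ) * u) * (1 - t ^ 2 : ℝ)‖ =
        ‖deriv (deriv f) ((t : ℂ) * u)‖ * (1 - t ^ 2) := by
      rw [norm_mul, Complex.norm_real, Real.norm_eq_abs, abs_of_nonneg (by nlinarith)]
    rw [a4, a3] at a2
    linarith
  -- `N t = ‖f' (t u)‖ ^ 2 * ((1 - t) ^ 6 / (1 + t) ^ 2)` is antitone
  have hc : ∀ t : ℝ, 0 ≤ t → t < 1 → HasDerivAt (fun t : ℝ => (1 - t) ^ 6 / (1 + t) ^ 2)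
      (-(2 * (4 + 2 * t) / (1 - t ^ 2)) * ((1 - t) ^ 6 / (1 + t) ^ 2)) t := by
    intro t ht ht1
    have b1 : HasDerivAt (fun t : ℝ => (1 - t) ^ 6) (6 * (1 - t) ^ 5 * (-1)) t := by
      have := ((hasDerivAt_id t).const_sub 1).fun_pow 6
      simpa using this
    have b2 : HasDerivAt (fun t : ℝ => (1 + t) ^ 2) (2 * (1 + t) ^ 1 * 1) t := by
      have := ((hasDerivAt_id t).const_add 1).fun_pow 2
      simpa using this
    have b3 := b1.div b2 (by positivity)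
    refine b3.congr_deriv ?_
    have c1 : (1 - t) ≠ 0 := by linarith
    have c2 : (1 + t) ≠ 0 := by linarith
    have c3 : (1 - t ^ 2) = (1 - t) * (1 + t) := by ring
    rw [c3]
    field_simp
    ring
  have hN : ∀ t : ℝ, 0 ≤ t → t < 1 → HasDerivAt
      (fun t : ℝ => ‖deriv f ((t : ℂ) * u)‖ ^ 2 * ((1 - t) ^ 6 / (1 + t) ^ 2))
      (2 * inner ℝ (deriv f ((t : ℂ) * u)) (deriv (deriv f) ((t : ℂ) * u) * u) *
        ((1 - t) ^ 6 / (1 + t) ^ 2) + ‖deriv f ((t : ℂ) * u)‖ ^ 2 *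
        (-(2 * (4 + 2 * t) / (1 - t ^ 2)) * ((1 - t) ^ 6 / (1 + t) ^ 2))) t := by
    intro t ht ht1
    exact ((hD t ht ht1).norm_sq).mul (hc t ht ht1)
  have hanti : AntitoneOn (fun t : ℝ => ‖deriv f ((t : ℂ) * u)‖ ^ 2 * ((1 - t) ^ 6 / (1 + t) ^ 2))
      (Icc 0 r) := by
    refine antitoneOn_of_deriv_nonpos (convex_Icc 0 r) ?_ ?_ ?_
    · intro t ht
      exact (hN t ht.1 (lt_of_le_of_lt ht.2 hr)).continuousAt.continuousWithinAt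
    · intro t ht
      rw [interior_Icc] at ht
      exact (hN t ht.1.le (ht.2.trans hr)).differentiableAt.differentiableWithinAt
    · intro t ht
      rw [interior_Icc] at ht
      rw [(hN t ht.1.le (ht.2.trans hr)).deriv]
      have ht0 := ht.1.le
      have ht1 := ht.2.trans hr
      have d0 : 0 < 1 - t ^ 2 := by nlinarith
      have d1 := hbd t ht0 ht1
      have d2 : inner ℝ (deriv f ((t : ℂ) * u)) (deriv (deriv f) ((t : ℂ) * u) * u) ≤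
          ‖deriv f ((t : ℂ) * u)‖ * ‖deriv (deriv f) ((t : ℂ) * u)‖ := by
        refine (real_inner_le_norm _ _).trans ?_
        rw [norm_mul, hu, mul_one]
      have d3 : ‖deriv (deriv f) ((t : ℂ) * u)‖ ≤
          (4 + 2 * t) / (1 - t ^ 2) * ‖deriv f ((t : ℂ) * u)‖ := by
        rw [div_mul_eq_mul_div, le_div_iff₀ d0]
        exact d1
      have d4 : 0 ≤ (1 - t) ^ 6 / (1 + t) ^ 2 := by positivity
      have d5 : inner ℝ (deriv f ((t : ℂ) * u)) (deriv (deriv f) ((t : ℂ) * u) * u) ≤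
          ‖deriv f ((t : ℂ) * u)‖ ^ 2 * ((4 + 2 * t) / (1 - t ^ 2)) := by
        refine d2.trans ?_
        have := mul_le_mul_of_nonneg_left d3 (norm_nonneg (deriv f ((t : ℂ) * u)))
        refine this.trans (le_of_eq ?_)
        ring
      have d6 := mul_le_mul_of_nonneg_right d5 d4
      have d7 : 2 * (4 + 2 * t) / (1 - t ^ 2) = 2 * ((4 + 2 * t) / (1 - t ^ 2)) := by ring
      rw [d7]
      nlinarith [d6]
  have h5 := hanti (left_mem_Icc.2 hr0) (right_mem_Icc.2 hr0) hr0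
  simp only [Complex.ofReal_zero, zero_mul, h1, norm_one] at h5
  have h6 : ‖deriv f ((r : ℂ) * u)‖ ^ 2 * ((1 - r) ^ 6 / (1 + r) ^ 2) ≤ 1 := by
    refine h5.trans (le_of_eq (by norm_num))
  have h7 : 0 < 1 - r := by linarith
  have h8 : (0 : ℝ) < 1 + r := by linarith
  have h9 : (‖deriv f ((r : ℂ) * u)‖ * ((1 - r) ^ 3 / (1 + r))) ^ 2 ≤ 1 := by
    refine le_trans (le_of_eq ?_) h6
    field_simp
  have h10 : ‖deriv f ((r : ℂ) * u)‖ * ((1 - r) ^ 3 / (1 + r)) ≤ 1 := by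
    have h11 : 0 ≤ ‖deriv f ((r : ℂ) * u)‖ * ((1 - r) ^ 3 / (1 + r)) := by positivity
    nlinarith
  rw [le_div_iff₀ (by positivity)]
  rw [← mul_div_assoc, div_le_one h8] at h10
  exact h10

/-- growth -/
theorem gw_growth {f : ℂ → ℂ} (hd : DifferentiableOn ℂ f (ball 0 1)) (h0 : f 0 = 0) (h1 : deriv f 0 = 1)
    (hk : ∀ ζ ∈ ball (0 : ℂ) 1, ‖deriv (deriv f) ζ * (1 - ‖ζ‖ ^ 2 : ℝ) - 2 * (starRingEnd ℂ) ζ * deriv f ζ‖ ≤ 4 * ‖deriv f ζ‖)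
    {z : ℂ} (hz : ‖z‖ < 1) : ‖f z‖ ≤ ‖z‖ / (1 - ‖z‖) ^ 2 := by
  rcases eq_or_ne z 0 with h | hz0
  · subst h
    simp [h0]
  have hzp : 0 < ‖z‖ := norm_pos_iff.2 hz0
  set r : ℝ := ‖z‖ with hrdef
  set u : ℂ := z / (r : ℂ) with hudef
  have hrc : (r : ℂ) ≠ 0 := by exact_mod_cast hzp.ne'
  have hu : ‖u‖ = 1 := by
    rw [hudef, norm_div, Complex.norm_real, Real.norm_eq_abs, abs_of_pos hzp, ← hrdef,
      div_self hzp.ne']
  have hzu : (r : ℂ) * u = z := by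
    rw [hudef]
    field_simp
  have hn : ∀ t : ℝ, 0 ≤ t → ‖(t : ℂ) * u‖ = t := by
    intro t ht
    rw [norm_mul, hu, mul_one, Complex.norm_real, Real.norm_eq_abs, abs_of_nonneg ht]
  have hb : ∀ t : ℝ, 0 ≤ t → t < 1 → (t : ℂ) * u ∈ ball (0 : ℂ) 1 := by
    intro t ht ht1
    rw [mem_ball_zero_iff, hn t ht]
    exact ht1
  have hG : ∀ t : ℝ, 0 ≤ t → t < 1 → HasDerivAt (fun t : ℝ => f ((t : ℂ) * u))
      (deriv f ((t : ℂ) * u) * u) t := by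
    intro t ht ht1
    have a1 : HasDerivAt f (deriv f ((t : ℂ) * u)) ((t : ℂ) * u) :=
      (hd.differentiableAt (isOpen_ball.mem_nhds (hb t ht ht1))).hasDerivAt
    have a2 : HasDerivAt (fun z : ℂ => z * u) u (t : ℂ) := by
      simpa using (hasDerivAt_id (t : ℂ)).mul_const u
    exact (HasDerivAt.comp (t : ℂ) a1 a2).comp_ofReal
  have hB : ∀ t : ℝ, 0 ≤ t → t < 1 → HasDerivAt (fun t : ℝ => t / (1 - t) ^ 2)
      ((1 + t) / (1 - t) ^ 3) t := by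
    intro t ht ht1
    have c1 : (1 - t) ≠ 0 := by linarith
    have b1 : HasDerivAt (fun t : ℝ => (1 - t) ^ 2) (2 * (1 - t) ^ 1 * (-1)) t := by
      have := ((hasDerivAt_id t).const_sub 1).fun_pow 2
      simpa using this
    have b3 := (hasDerivAt_id t).div b1 (pow_ne_zero 2 c1)
    refine b3.congr_deriv ?_
    simp only [id]
    field_simp
    ring
  have key := image_norm_le_of_norm_deriv_right_le_deriv_boundary' (a := 0) (b := r)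
    (f := fun t : ℝ => f ((t : ℂ) * u)) (f' := fun t : ℝ => deriv f ((t : ℂ) * u) * u)
    (fun t ht => (hG t ht.1 (lt_of_le_of_lt ht.2 hz)).continuousAt.continuousWithinAt)
    (fun t ht => (hG t ht.1 (ht.2.trans hz)).hasDerivWithinAt)
    (B := fun t : ℝ => t / (1 - t) ^ 2) (B' := fun t : ℝ => (1 + t) / (1 - t) ^ 3)
    (by simp [h0])
    (fun t ht => (hB t ht.1 (lt_of_le_of_lt ht.2 hz)).continuousAt.continuousWithinAt)
    (fun t ht => (hB t ht.1 (ht.2.trans hz)).hasDerivWithinAt)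
    (fun t ht => by
      show ‖deriv f ((t : ℂ) * u) * u‖ ≤ _
      rw [norm_mul, hu, mul_one]
      exact gw_dist hd h1 hk hu ht.1 (ht.2.trans hz))
    (right_mem_Icc.2 hzp.le)
  simp only [hzu] at key
  exact key

theorem gw_main {f φ : ℂ → ℂ} (h0 : ∀ z : ℂ, ‖z‖ < 1 → ‖f z‖ ≤ ‖z‖ / (1 - ‖z‖) ^ 2)
    (h : ∀ z ∈ ball (0 : ℂ) 1, z * φ z ^ 5 = f z) {z : ℂ} (hz : z ∈ ball (0 : ℂ) 1) :
    ‖z * φ (z ^ 5)‖ ≤ (1 - ‖z‖) ^ (-(2 / 5) : ℝ) := by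
  rw [mem_ball_zero_iff] at hz
  have hz0 := norm_nonneg z
  have h5 : ‖z ^ 5‖ ≤ ‖z‖ := by
    rw [norm_pow]
    calc ‖z‖ ^ 5 ≤ ‖z‖ ^ 1 := pow_le_pow_of_le_one hz0 hz.le (by norm_num)
      _ = ‖z‖ := pow_one _
  have h51 : ‖z ^ 5‖ < 1 := lt_of_le_of_lt h5 hz
  have e1 : (z * φ (z ^ 5)) ^ 5 = f (z ^ 5) := by
    rw [mul_pow, h (z ^ 5) (by rwa [mem_ball_zero_iff])]
  have e2 : ‖z * φ (z ^ 5)‖ ^ 5 ≤ ((1 - ‖z‖) ^ 2)⁻¹ := by
    rw [← norm_pow, e1]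
    refine (h0 _ h51).trans ?_
    have g1 : 0 < 1 - ‖z‖ := by linarith
    have g2 : 1 - ‖z‖ ≤ 1 - ‖z ^ 5‖ := by linarith
    have g3 : (1 - ‖z‖) ^ 2 ≤ (1 - ‖z ^ 5‖) ^ 2 := pow_le_pow_left₀ g1.le g2 2
    rw [div_eq_mul_inv]
    calc ‖z ^ 5‖ * ((1 - ‖z ^ 5‖) ^ 2)⁻¹ ≤ 1 * ((1 - ‖z ^ 5‖) ^ 2)⁻¹ :=
          mul_le_mul_of_nonneg_right h51.le (by positivity)
      _ = ((1 - ‖z ^ 5‖) ^ 2)⁻¹ := one_mul _
      _ ≤ _ := inv_anti₀ (by positivity) g3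
  have g1 : 0 < 1 - ‖z‖ := by linarith
  have e3 : ((1 - ‖z‖) ^ (-(2 / 5) : ℝ)) ^ 5 = ((1 - ‖z‖) ^ 2)⁻¹ := by
    rw [← Real.rpow_natCast ((1 - ‖z‖) ^ (-(2 / 5) : ℝ)) 5, ← Real.rpow_mul g1.le]
    have : (-(2 / 5) : ℝ) * ((5 : ℕ) : ℝ) = -((2 : ℕ) : ℝ) := by norm_num
    rw [this, Real.rpow_neg g1.le, Real.rpow_natCast]
  rw [← e3] at e2
  exact le_of_pow_le_pow_left₀ (by norm_num) (by positivity) e2

/-- **Koebe's growth theorem** for the class `S` -/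
theorem gw_koebe {f : ℂ → ℂ} (hf : Sc f) {z : ℂ} (hz : ‖z‖ < 1) : ‖f z‖ ≤ ‖z‖ / (1 - ‖z‖) ^ 2 :=
  gw_growth hf.diff hf.zero hf.one (fun _ hζ => ZFM.koebe_second hf.diff hf.inj hζ) hz

theorem gw : S_GW := by
  intro f φ hf _ _ h z hz
  exact gw_main (fun z hz => gw_koebe hf hz) h hz

end Pool.Agent.H7.SZ
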