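import Pool.Agent.H7.SZ.Stm
import Pool.Agent.H64.BR.Pars33

set_option autoImplicit false

namespace Pool.Agent.H7.SZ

open Metric Set Filter Topology MeasureTheory
open scoped ENNReal

namespace FRC

theorem image_area {g : ℂ → ℂ} (hd : DifferentiableOn ℂ g (ball 0 1)) (hi : InjOn g (ball 0 1))
    {ρ L : ℝ} (hρ1 : ρ < 1) (hL0 : 0 ≤ L) (hL : ∀ z, ‖z‖ < ρ → ‖g z‖ ≤ L) :
    ∫⁻ z in ball (0 : ℂ) ρ, ENNReal.ofReal (‖deriv g z‖ ^ 2) ≤
      ENNReal.ofReal (Real.pi * L ^ 2) := by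
  have hsub : ball (0 : ℂ) ρ ⊆ ball 0 1 := ball_subset_ball hρ1.le
  have hder : ∀ z ∈ ball (0 : ℂ) 1, HasDerivAt g (deriv g z) z := fun z hz =>
    (hd.differentiableAt (isOpen_ball.mem_nhds hz)).hasDerivAt
  have e1 := MeasureTheory.lintegral_abs_det_fderiv_eq_addHaar_image (μ := volume)
    (s := ball (0 : ℂ) ρ) measurableSet_ball (f := g)
    (f' := fun z => (ContinuousLinearMap.toSpanSingleton ℂ (deriv g z)).restrictScalars ℝ)
    (fun z hz => ((hder z (hsub hz)).hasFDerivAt.restrictScalars ℝ).hasFDerivWithinAt)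
    (hi.mono hsub)
  have e2 : ∫⁻ z in ball (0 : ℂ) ρ, ENNReal.ofReal (‖deriv g z‖ ^ 2) =
      ∫⁻ z in ball (0 : ℂ) ρ, ENNReal.ofReal
        |((ContinuousLinearMap.toSpanSingleton ℂ (deriv g z)).restrictScalars ℝ).det| := by
    refine lintegral_congr fun z => ?_
    rw [Pool.Agent.Helper405.Area.det_mul, abs_of_nonneg (by positivity)]
  rw [e2, e1]
  have e3 : g '' ball (0 : ℂ) ρ ⊆ closedBall 0 L := by
    rintro _ ⟨z, hz, rfl⟩
    rw [mem_closedBall_zero_iff]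
    exact hL z (mem_ball_zero_iff.1 hz)
  refine (measure_mono e3).trans (le_of_eq ?_)
  rw [Complex.volume_closedBall, ENNReal.ofReal_mul Real.pi_pos.le, ENNReal.ofReal_pow hL0,
    mul_comm]
  congr 1
  rw [← NNReal.coe_real_pi, ENNReal.ofReal_coe_nnreal]

theorem polar {g : ℂ → ℂ} (hd : DifferentiableOn ℂ g (ball 0 1)) {ρ : ℝ} (hρ1 : ρ < 1) :
    ∫⁻ r in Ioo (0 : ℝ) ρ, ∫⁻ θ in Ioo (-Real.pi) Real.pi,
      ENNReal.ofReal (r * ‖deriv g (circleMap 0 r θ)‖ ^ 2) ≤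
      ∫⁻ z in ball (0 : ℂ) ρ, ENNReal.ofReal (‖deriv g z‖ ^ 2) := by
  have hdc : ContinuousOn (deriv g) (ball 0 1) := (hd.deriv isOpen_ball).continuousOn
  rw [← lintegral_indicator measurableSet_ball, ← Complex.lintegral_comp_polarCoord_symm]
  have hss : Ioo (0 : ℝ) ρ ×ˢ Ioo (-Real.pi) Real.pi ⊆ polarCoord.target := by
    rw [polarCoord_target]
    exact prod_mono Ioo_subset_Ioi_self Subset.rfl
  refine le_trans (le_of_eq ?_) (lintegral_mono_set hss)
  have hm : MeasurableSet (Ioo (0 : ℝ) ρ ×ˢ Ioo (-Real.pi) Real.pi) :=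
    measurableSet_Ioo.prod measurableSet_Ioo
  have hmem : ∀ p ∈ Ioo (0 : ℝ) ρ ×ˢ Ioo (-Real.pi) Real.pi,
      circleMap 0 p.1 p.2 ∈ ball (0 : ℂ) ρ := by
    intro p hp
    rw [mem_ball_zero_iff]
    simp [abs_of_pos hp.1.1, hp.1.2]
  have e1 : ∫⁻ p in Ioo (0 : ℝ) ρ ×ˢ Ioo (-Real.pi) Real.pi, ENNReal.ofReal p.1 •
      (ball (0 : ℂ) ρ).indicator (fun z => ENNReal.ofReal (‖deriv g z‖ ^ 2))
        (Complex.polarCoord.symm p) =
      ∫⁻ p in Ioo (0 : ℝ) ρ ×ˢ Ioo (-Real.pi) Real.pi,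
        ENNReal.ofReal (p.1 * ‖deriv g (circleMap 0 p.1 p.2)‖ ^ 2) := by
    refine setLIntegral_congr_fun hm fun p hp => ?_
    have e2 : Complex.polarCoord.symm p = circleMap 0 p.1 p.2 := by
      rw [Complex.polarCoord_symm_apply, circleMap, zero_add, Complex.exp_mul_I,
        Complex.ofReal_cos, Complex.ofReal_sin]
    simp only [e2]
    rw [indicator_of_mem (hmem p hp), smul_eq_mul, ← ENNReal.ofReal_mul hp.1.1.le]
  rw [e1, Measure.volume_eq_prod, ← Measure.prod_restrict, lintegral_prod]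
  rw [Measure.prod_restrict]
  have hcm : Continuous fun p : ℝ × ℝ => circleMap 0 p.1 p.2 := by
    unfold circleMap
    fun_prop
  have hco : ContinuousOn (fun p : ℝ × ℝ => p.1 * ‖deriv g (circleMap 0 p.1 p.2)‖ ^ 2)
      (Ioo (0 : ℝ) ρ ×ˢ Ioo (-Real.pi) Real.pi) := by
    refine continuousOn_fst.mul (ContinuousOn.pow (ContinuousOn.norm ?_) 2)
    exact hdc.comp hcm.continuousOn fun p hp => ball_subset_ball hρ1.le (hmem p hp)
  exact (hco.aemeasurable hm).ennreal_ofReal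

theorem inner {g : ℂ → ℂ} {c : ℕ → ℂ}
    (hs : ∀ z ∈ ball (0 : ℂ) 1, HasSum (fun n => c n * z ^ n) (g z))
    (hd : DifferentiableOn ℂ g (ball 0 1)) {r : ℝ} (hr : 0 < r) (hr1 : r < 1) (N : ℕ) :
    ENNReal.ofReal (∑ n ∈ Finset.range N,
      2 * Real.pi * ((n : ℝ) ^ 2 * ‖c n‖ ^ 2) * r ^ (2 * n - 1)) ≤
      ∫⁻ θ in Ioo (-Real.pi) Real.pi, ENNReal.ofReal (r * ‖deriv g (circleMap 0 r θ)‖ ^ 2) := by
  have hdc : ContinuousOn (deriv g) (ball 0 1) := (hd.deriv isOpen_ball).continuousOn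
  have hcmem : ∀ t : ℝ, circleMap 0 r t ∈ ball (0 : ℂ) 1 := fun t => by
    rw [mem_ball_zero_iff]
    simp [abs_of_pos hr, hr1]
  have hcn : ∀ t : ℝ, ‖circleMap 0 r t‖ = r := fun t => by simp [abs_of_pos hr]
  have hcont : Continuous fun θ : ℝ => r * ‖deriv g (circleMap 0 r θ)‖ ^ 2 := by
    refine continuous_const.mul (Continuous.pow (Continuous.norm ?_) 2)
    exact hdc.comp_continuous (continuous_circleMap 0 r) hcmem
  have h1 := Pool.Agent.H64.BR.parsN (h := fun z => z * deriv g z - ((0 : ℕ) : ℂ) * g z)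
    (b := fun j => ((j : ℂ) - ((0 : ℕ) : ℂ)) * c j) hr.le fun z hz =>
      Pool.Agent.Helper405.Area.hasSum_Q hs 0 z (by rw [mem_ball_zero_iff, hz]; exact hr1)
  have h2 := h1.summable.sum_le_tsum (Finset.range N) (fun j _ => by positivity)
  rw [h1.tsum_eq] at h2
  have h3 : ∫ t in (0 : ℝ)..(2 * Real.pi), ‖circleMap 0 r t * deriv g (circleMap 0 r t) -
      ((0 : ℕ) : ℂ) * g (circleMap 0 r t)‖ ^ 2 =
      r * ∫ t in (0 : ℝ)..(2 * Real.pi), r * ‖deriv g (circleMap 0 r t)‖ ^ 2 := by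
    rw [← intervalIntegral.integral_const_mul]
    refine intervalIntegral.integral_congr fun t _ => ?_
    show ‖circleMap 0 r t * deriv g (circleMap 0 r t) -
      ((0 : ℕ) : ℂ) * g (circleMap 0 r t)‖ ^ 2 = r * (r * ‖deriv g (circleMap 0 r t)‖ ^ 2)
    rw [Nat.cast_zero, zero_mul, sub_zero, norm_mul, hcn]
    ring
  rw [h3] at h2
  have h4 : ∫⁻ θ in Ioo (-Real.pi) Real.pi, ENNReal.ofReal (r * ‖deriv g (circleMap 0 r θ)‖ ^ 2) =
      ENNReal.ofReal (∫ t in (0 : ℝ)..(2 * Real.pi), r * ‖deriv g (circleMap 0 r t)‖ ^ 2) := by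
    have hper : Function.Periodic (fun θ => r * ‖deriv g (circleMap 0 r θ)‖ ^ 2)
        (2 * Real.pi) := (periodic_circleMap 0 r).comp (fun z => r * ‖deriv g z‖ ^ 2)
    have h5 := hper.intervalIntegral_add_eq (-Real.pi) 0
    rw [zero_add, show -Real.pi + 2 * Real.pi = Real.pi by ring] at h5
    rw [← h5, intervalIntegral.integral_of_le (by linarith [Real.pi_pos]),
      integral_Ioc_eq_integral_Ioo, ofReal_integral_eq_lintegral_ofReal]
    · exact (hcont.integrableOn_Icc (a := -Real.pi) (b := Real.pi)).mono_set Ioo_subset_Icc_self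
    · exact Eventually.of_forall fun θ => by positivity
  rw [h4]
  refine ENNReal.ofReal_le_ofReal ?_
  have hpi := Real.pi_pos
  have h6 : r * ∑ n ∈ Finset.range N, 2 * Real.pi * ((n : ℝ) ^ 2 * ‖c n‖ ^ 2) * r ^ (2 * n - 1) =
      2 * Real.pi * ∑ j ∈ Finset.range N,
        (r ^ 2) ^ j * ‖((j : ℂ) - ((0 : ℕ) : ℂ)) * c j‖ ^ 2 := by
    rw [Finset.mul_sum, Finset.mul_sum]
    refine Finset.sum_congr rfl fun n _ => ?_
    rw [Nat.cast_zero, sub_zero, norm_mul, Complex.norm_natCast]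
    rcases Nat.eq_zero_or_pos n with h | h
    · subst h
      simp
    · have h7 : (r ^ 2) ^ n = r * r ^ (2 * n - 1) := by
        rw [← pow_mul, ← pow_succ']
        congr 1
        omega
      rw [h7]
      ring
  have h8 : r * ∑ n ∈ Finset.range N, 2 * Real.pi * ((n : ℝ) ^ 2 * ‖c n‖ ^ 2) * r ^ (2 * n - 1) ≤
      r * ∫ t in (0 : ℝ)..(2 * Real.pi), r * ‖deriv g (circleMap 0 r t)‖ ^ 2 := by
    rw [h6]
    have h9 := mul_le_mul_of_nonneg_left h2 (show 0 ≤ 2 * Real.pi by positivity)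
    refine h9.trans (le_of_eq ?_)
    field_simp
  exact le_of_mul_le_mul_left h8 hr

theorem area_le {g : ℂ → ℂ} {c : ℕ → ℂ}
    (hs : ∀ z ∈ ball (0 : ℂ) 1, HasSum (fun n => c n * z ^ n) (g z))
    (hd : DifferentiableOn ℂ g (ball 0 1)) (hi : InjOn g (ball 0 1)) {ρ L : ℝ} (hρ : 0 < ρ)
    (hρ1 : ρ < 1) (hL0 : 0 ≤ L) (hL : ∀ z, ‖z‖ < ρ → ‖g z‖ ≤ L) (N : ℕ) :
    ∑ n ∈ Finset.range N, (n : ℝ) * ‖c n‖ ^ 2 * ρ ^ (2 * n) ≤ L ^ 2 := by
  have hpi := Real.pi_pos
  have h1 := (polar hd hρ1).trans (image_area hd hi hρ1 hL0 hL)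
  have h2 : ∫⁻ r in Ioo (0 : ℝ) ρ, ENNReal.ofReal (∑ n ∈ Finset.range N,
      2 * Real.pi * ((n : ℝ) ^ 2 * ‖c n‖ ^ 2) * r ^ (2 * n - 1)) ≤
      ∫⁻ r in Ioo (0 : ℝ) ρ, ∫⁻ θ in Ioo (-Real.pi) Real.pi,
        ENNReal.ofReal (r * ‖deriv g (circleMap 0 r θ)‖ ^ 2) :=
    setLIntegral_mono' measurableSet_Ioo fun r hr => inner hs hd hr.1 (hr.2.trans hρ1) N
  have h3 := h2.trans h1
  have hcont : Continuous fun r : ℝ => ∑ n ∈ Finset.range N,
      2 * Real.pi * ((n : ℝ) ^ 2 * ‖c n‖ ^ 2) * r ^ (2 * n - 1) := by fun_prop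
  have h4 : ∫⁻ r in Ioo (0 : ℝ) ρ, ENNReal.ofReal (∑ n ∈ Finset.range N,
      2 * Real.pi * ((n : ℝ) ^ 2 * ‖c n‖ ^ 2) * r ^ (2 * n - 1)) =
      ENNReal.ofReal (Real.pi * ∑ n ∈ Finset.range N, (n : ℝ) * ‖c n‖ ^ 2 * ρ ^ (2 * n)) := by
    rw [← ofReal_integral_eq_lintegral_ofReal]
    · congr 1
      rw [← integral_Ioc_eq_integral_Ioo, ← intervalIntegral.integral_of_le hρ.le,
        intervalIntegral.integral_finsetSum, Finset.mul_sum]
      · refine Finset.sum_congr rfl fun n _ => ?_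
        rw [intervalIntegral.integral_const_mul, integral_pow]
        rcases Nat.eq_zero_or_pos n with h | h
        · subst h
          simp
        · have h5 : 2 * n - 1 + 1 = 2 * n := by omega
          have h6 : ((2 * n - 1 : ℕ) : ℝ) + 1 = 2 * n := by
            rw [← Nat.cast_add_one, h5]
            push_cast
            ring
          have hn : (n : ℝ) ≠ 0 := by exact_mod_cast h.ne'
          rw [h5, h6, zero_pow (by omega), sub_zero]
          field_simp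
      · intro n _
        exact Continuous.intervalIntegrable (by fun_prop) _ _
    · exact (hcont.integrableOn_Icc (a := 0) (b := ρ)).mono_set Ioo_subset_Icc_self
    · rw [EventuallyLE, ae_restrict_iff' measurableSet_Ioo]
      refine Eventually.of_forall fun r hr => ?_
      exact Finset.sum_nonneg fun n _ => mul_nonneg (by positivity) (pow_nonneg hr.1.le _)
  rw [h4, ENNReal.ofReal_le_ofReal_iff (by positivity)] at h3
  exact le_of_mul_le_mul_left h3 hpi

end FRC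

open FRC in
theorem frc : S_FRC := by
  intro F K ν hF hK hS r hr M hM N
  have hM0 : 0 ≤ M := by
    have := hM 0 (by rw [norm_zero]; exact hr.1.le)
    exact (norm_nonneg _).trans this
  have h01 : (0 : ℂ) ∈ ball (0 : ℂ) 1 := mem_ball_self one_pos
  have hv2 : ∀ v : ℂ, v ∈ ball (0 : ℂ) 1 → v ^ 2 ∈ ball (0 : ℂ) 1 := by
    intro v hv
    rw [mem_ball_zero_iff] at hv ⊢
    rw [norm_pow]
    exact pow_lt_one₀ (norm_nonneg _) hv two_ne_zero
  obtain ⟨g, hg⟩ : ∃ g : ℂ → ℂ, g = fun v => v * K (0, v ^ 2) := ⟨_, rfl⟩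
  have hg' : ∀ v, g v = v * K (0, v ^ 2) := fun v => by rw [hg]
  obtain ⟨c, hc⟩ : ∃ c : ℕ → ℂ, c = fun n => if n % 2 = 1 then ν 0 (n / 2) else 0 := ⟨_, rfl⟩
  have hc1 : ∀ m, c (2 * m + 1) = ν 0 m := by
    intro m
    rw [hc]
    have a1 : (2 * m + 1) % 2 = 1 := by omega
    have a2 : (2 * m + 1) / 2 = m := by omega
    simp only [a1, a2, if_true]
  have hc0 : ∀ m, c (2 * m) = 0 := by
    intro m
    rw [hc]
    have a1 : (2 * m) % 2 = 0 := by omega
    simp only [a1]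
    rfl
  have hser : ∀ z ∈ ball (0 : ℂ) 1, HasSum (fun m => ν 0 m * z ^ m) (K (0, z)) := by
    intro z hz
    have h1 := hS.2 0 h01 z hz
    have hinj : Function.Injective (fun b : ℕ => ((0 : ℕ), b)) := fun a b h => by
      simpa using h
    have h2 := (hinj.hasSum_iff (f := fun p : ℕ × ℕ => ν p.1 p.2 * (0 : ℂ) ^ p.1 * z ^ p.2)
      (a := K (0, z)) (by
        intro p hp
        have h3 : p.1 ≠ 0 := by
          intro h4
          exact hp ⟨p.2, by rw [← h4]⟩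
        rw [zero_pow h3, mul_zero, zero_mul])).2 h1
    refine h2.congr_fun ?_ |> fun h => h
    intro m
    simp
  have hs : ∀ v ∈ ball (0 : ℂ) 1, HasSum (fun n => c n * v ^ n) (g v) := by
    intro v hv
    have h1 := (hser (v ^ 2) (hv2 v hv)).mul_left v
    rw [hg' v]
    have hinj : Function.Injective (fun m : ℕ => 2 * m + 1) := fun a b h => by
      simp only at h
      omega
    refine (hinj.hasSum_iff (f := fun n => c n * v ^ n) (by
      intro n hn
      have h3 : n % 2 = 0 := by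
        by_contra h4
        exact hn ⟨n / 2, by simp only; omega⟩
      have h5 : n = 2 * (n / 2) := by omega
      rw [h5, hc0, zero_mul])).1 ?_
    refine h1.congr_fun ?_ |> fun h => h
    intro m
    simp only [Function.comp]
    rw [hc1, pow_succ, pow_mul]
    ring
  have hsq : ∀ v ∈ ball (0 : ℂ) 1, g v ^ 2 = F (v ^ 2) := by
    intro v hv
    have h1 := hK.sq 0 h01 (v ^ 2) (hv2 v hv)
    rw [hF.zero, sub_zero, sub_zero] at h1
    rw [hg' v, ← h1]
    ring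
  have hodd : ∀ v, g (-v) = - g v := by
    intro v
    rw [hg', hg', neg_sq, neg_mul]
  have hd : DifferentiableOn ℂ g (ball 0 1) := by
    rw [hg]
    refine differentiableOn_id.mul (hK.diff.comp (f := fun v : ℂ => ((0 : ℂ), v ^ 2)) ?_ ?_)
    · fun_prop
    · intro v hv
      exact ⟨h01, hv2 v hv⟩
  have hi : InjOn g (ball 0 1) := by
    intro v hv u hu h
    have h1 : F (v ^ 2) = F (u ^ 2) := by rw [← hsq v hv, ← hsq u hu, h]
    have h2 := hF.inj (hv2 v hv) (hv2 u hu) h1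
    rcases sq_eq_sq_iff_eq_or_eq_neg.1 h2 with h3 | h3
    · exact h3
    · rw [h3, hodd] at h
      have h4 : g u = 0 := by
        have h5 : (2 : ℂ) * g u = 0 := by linear_combination -h
        rcases mul_eq_zero.1 h5 with h6 | h6
        · norm_num at h6
        · exact h6
      have h7 : F (u ^ 2) = F 0 := by rw [← hsq u hu, h4, hF.zero]; ring
      have h8 := hF.inj (hv2 u hu) h01 h7
      have h9 : u = 0 := by simpa using h8
      rw [h3, h9, neg_zero]
  have hr0 : 0 < Real.sqrt r := Real.sqrt_pos.2 hr.1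
  have hr1 : Real.sqrt r < 1 := by
    rw [Real.sqrt_lt' one_pos, one_pow]
    exact hr.2
  have hrr : Real.sqrt r ^ 2 = r := Real.sq_sqrt hr.1.le
  have h1 := area_le hs hd hi hr0 hr1 (Real.sqrt_nonneg M) (fun z hz => by
    have hz1 : z ∈ ball (0 : ℂ) 1 := mem_ball_zero_iff.2 (hz.trans hr1)
    refine Real.le_sqrt_of_sq_le ?_
    rw [← norm_pow, hsq z hz1]
    refine hM _ ?_
    rw [norm_pow, ← hrr]
    exact pow_le_pow_left₀ (norm_nonneg _) hz.le 2) (2 * N)
  rw [Real.sq_sqrt hM0] at h1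
  refine le_trans (le_of_eq ?_) h1
  clear h1
  induction N with
  | zero => simp
  | succ N ih =>
    rw [Finset.sum_range_succ, ih, show 2 * (N + 1) = 2 * N + 1 + 1 by ring,
      Finset.sum_range_succ, Finset.sum_range_succ, hc0, hc1, norm_zero,
      pow_mul (Real.sqrt r) 2 (2 * N + 1), hrr]
    push_cast
    ring

end Pool.Agent.H7.SZ
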