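import Pool.Agent.H7.SZ.Stm
import Pool.Agent.H64.BR.UNI
import Pool.Agent.H64.G.T9f66d723.W5h41.MA9

set_option autoImplicit false

/-! # SZ-KER: the kernel (helper90) -/

namespace Pool.Agent.H7.SZ

open Metric Set Filter Topology
open Pool.Agent.W677.Mar Pool.Agent.W5h41.MA

/-- `z / F z` with its two logarithms -/
theorem ker_aux {F : ℂ → ℂ} (S : Sc F) : ∃ Y H : ℂ → ℂ, Sg Y H ∧
    (∀ w ∈ ball (0 : ℂ) 1, Y w ≠ 0) ∧ (∀ w ∈ ball (0 : ℂ) 1, F w = w * (Y w)⁻¹) ∧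
    (∀ w ∈ ball (0 : ℂ) 1, Y w - w * deriv Y w = deriv F w * Y w ^ 2) := by
  have hf := S.diff
  have hi := S.inj
  have h0 := S.zero
  have h1 := S.one
  have hfne : ∀ w ∈ ball (0 : ℂ) 1, deriv F w ≠ 0 := fun w hw =>
    Pool.Agent.Helper405.Conv.deriv_ne_zero_of_injOn isOpen_ball hf hi hw
  have hz0 : (0 : ℂ) ∈ ball (0 : ℂ) 1 := mem_ball_self one_pos
  set g : ℂ → ℂ := dslope F 0 with hg
  have hgd : DifferentiableOn ℂ g (ball 0 1) :=
    (Complex.differentiableOn_dslope (isOpen_ball.mem_nhds hz0)).2 hf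
  have hg0 : g 0 = 1 := by rw [hg, dslope_same, h1]
  have hgm : ∀ w, w * g w = F w := by
    intro w
    have := sub_smul_dslope F 0 w
    rw [h0, sub_zero, sub_zero, smul_eq_mul] at this
    exact this
  have hgne : ∀ w ∈ ball (0 : ℂ) 1, g w ≠ 0 := by
    intro w hw h
    by_cases hw0 : w = 0
    · rw [hw0, hg0] at h; exact one_ne_zero h
    · have h2 := hgm w
      rw [h, mul_zero] at h2
      exact hw0 (hi hw hz0 (by rw [h0, ← h2]))
  have hgD : ∀ w ∈ ball (0 : ℂ) 1, HasDerivAt g (deriv g w) w := fun w hw =>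
    ((hgd w hw).differentiableAt (isOpen_ball.mem_nhds hw)).hasDerivAt
  have hfD : ∀ w ∈ ball (0 : ℂ) 1, deriv F w = g w + w * deriv g w := by
    intro w hw
    have h2 : HasDerivAt (fun w => w * g w) (1 * g w + w * deriv g w) w :=
      (hasDerivAt_id w).mul (hgD w hw)
    have h3 : (fun w => w * g w) = F := funext hgm
    rw [h3] at h2
    rw [h2.deriv, one_mul]
  set Y : ℂ → ℂ := fun w => (g w)⁻¹ with hY
  have hYD : ∀ w ∈ ball (0 : ℂ) 1, HasDerivAt Y (-deriv g w / g w ^ 2) w := fun w hw =>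
    (hgD w hw).inv (hgne w hw)
  have hYd : DifferentiableOn ℂ Y (ball 0 1) := fun w hw =>
    (hYD w hw).differentiableAt.differentiableWithinAt
  have hN : ∀ w ∈ ball (0 : ℂ) 1, Y w - w * deriv Y w = deriv F w * Y w ^ 2 := by
    intro w hw
    rw [(hYD w hw).deriv, hfD w hw]
    have := hgne w hw
    simp only [hY]
    field_simp
    ring
  obtain ⟨H, hHd, hH0, hHe⟩ := Pool.Agent.H64.BR.uni_log (N := fun w => deriv F w * Y w ^ 2)
    ((hf.deriv isOpen_ball).mul (hYd.pow 2)) (by simp only [hY]; rw [h1, hg0]; simp)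
    (fun w hw => mul_ne_zero (hfne w hw) (pow_ne_zero 2 (inv_ne_zero (hgne w hw))))
  refine ⟨Y, H, ⟨⟨hYd, by simp only [hY]; rw [hg0, inv_one], ?_⟩, hHd, hH0, ?_⟩, ?_, ?_, hN⟩
  · intro z hz w hw h
    have e : ∀ t : ℂ, Y t / t = (F t)⁻¹ := by
      intro t
      simp only [hY]
      rw [← hgm t, mul_inv, div_eq_mul_inv, mul_comm]
    simp only [e] at h
    exact hi hz.1 hw.1 (inv_injective h)
  · intro w hw
    rw [hHe w hw, hN w hw]
  · intro w hw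
    exact inv_ne_zero (hgne w hw)
  · intro w hw
    simp only [hY]
    rw [inv_inv, hgm]

theorem ker : S_KER := by
  intro F S
  obtain ⟨Y, H, Sg', hYne, hFY, hN⟩ := ker_aux S
  have hYd := Sg'.G.diff
  have h00 : (0 : ℂ) ∈ ball (0 : ℂ) 1 := mem_ball_self one_pos
  obtain ⟨f, L⟩ := exists_Lg Sg'
  obtain ⟨ly, hlyd, hly0, hlye⟩ := Pool.Agent.H64.BR.uni_log (N := Y) hYd Sg'.G.one hYne
  have hsq : ∀ ζ ∈ ball (0 : ℂ) 1, ∀ z ∈ ball (0 : ℂ) 1,
      Complex.exp ((f (ζ, z) - ly ζ - ly z) / 2) ^ 2 = NN Y ζ z / (Y ζ * Y z) := by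
    intro ζ hζ z hz
    rw [← Complex.exp_nat_mul]
    have : ((2 : ℕ) : ℂ) * ((f (ζ, z) - ly ζ - ly z) / 2) = f (ζ, z) - ly ζ - ly z := by
      push_cast
      ring
    rw [this, Complex.exp_sub, Complex.exp_sub, L.exp ζ hζ z hz, hlye ζ hζ, hlye z hz, div_div]
  refine ⟨fun p => Complex.exp ((f p - ly p.1 - ly p.2) / 2), ?_, ?_, ?_, ?_, ?_⟩
  · have h1 : DifferentiableOn ℂ (fun p : ℂ × ℂ => ly p.1) (ball (0 : ℂ) 1 ×ˢ ball (0 : ℂ) 1) :=
      hlyd.comp (f := fun p : ℂ × ℂ => p.1) differentiableOn_fst (fun p hp => hp.1)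
    have h2 : DifferentiableOn ℂ (fun p : ℂ × ℂ => ly p.2) (ball (0 : ℂ) 1 ×ˢ ball (0 : ℂ) 1) :=
      hlyd.comp (f := fun p : ℂ × ℂ => p.2) differentiableOn_snd (fun p hp => hp.2)
    have h3 : DifferentiableOn ℂ (fun p : ℂ × ℂ => (f p - ly p.1 - ly p.2) * (1 / 2 : ℂ))
        (ball (0 : ℂ) 1 ×ˢ ball (0 : ℂ) 1) := (((f_joint Sg' L).sub h1).sub h2).mul_const _
    have h4 : (fun p : ℂ × ℂ => (f p - ly p.1 - ly p.2) / 2) =
        fun p : ℂ × ℂ => (f p - ly p.1 - ly p.2) * (1 / 2 : ℂ) := by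
      funext p
      ring
    have h5 : DifferentiableOn ℂ (fun p : ℂ × ℂ => (f p - ly p.1 - ly p.2) / 2)
        (ball (0 : ℂ) 1 ×ˢ ball (0 : ℂ) 1) := by
      rw [h4]
      exact h3
    exact h5.cexp
  · intro ζ hζ z hz
    show Complex.exp ((f (ζ, z) - ly ζ - ly z) / 2) = Complex.exp ((f (z, ζ) - ly z - ly ζ) / 2)
    rw [L.symm hζ hz]
    congr 1
    ring
  · intro ζ hζ z hz
    show Complex.exp ((f (ζ, z) - ly ζ - ly z) / 2) ^ 2 * (z - ζ) = _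
    rw [hsq ζ hζ z hz, hFY z hz, hFY ζ hζ, div_mul_eq_mul_div, NN_mul]
    have h1 := hYne z hz
    have h2 := hYne ζ hζ
    field_simp
  · intro ζ hζ
    show Complex.exp ((f (ζ, ζ) - ly ζ - ly ζ) / 2) ^ 2 = _
    rw [hsq ζ hζ ζ hζ]
    unfold NN
    rw [dslope_same, hN ζ hζ]
    have h2 := hYne ζ hζ
    field_simp
  · show Complex.exp ((f (0, 0) - ly 0 - ly 0) / 2) = 1
    rw [L.zero 0 h00, hly0]
    simp

end Pool.Agent.H7.SZ
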