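import Pool.Agent.H7.SZ.Stm

set_option autoImplicit false

/-! # SZ-CORE: subtraction of the sums -/

namespace Pool.Agent.H7.SZ

open Metric Set Filter Topology MeasureTheory
open scoped ENNReal

theorem core : S_CORE := by
  intro L E u R δ m₀ hL hE hu hδ hR hsum hLR hin
  set A : ℝ≥0∞ := ∑ m ∈ Finset.range m₀, (R m + ENNReal.ofReal (δ * E m)) with hA
  have hAt : A ≠ ⊤ := by
    rw [hA]
    refine ENNReal.sum_ne_top.2 fun m _ => ?_
    exact ENNReal.add_ne_top.2 ⟨hR m, ENNReal.ofReal_ne_top⟩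
  refine ⟨A.toReal, ENNReal.toReal_nonneg, fun ρ hρ => ?_⟩
  rw [ENNReal.ofReal_toReal hAt]
  have hρ0 : ∀ m : ℕ, 0 ≤ ρ ^ m := fun m => pow_nonneg hρ.1.le m
  have hρ1 : ∀ m : ℕ, ENNReal.ofReal (ρ ^ m) ≤ 1 := fun m => by
    rw [← ENNReal.ofReal_one]
    exact ENNReal.ofReal_le_ofReal (pow_le_one₀ hρ.1.le hρ.2.le)
  have hSL : ∑' m : ℕ, ENNReal.ofReal (ρ ^ m * L m) ≠ ⊤ := (hsum ρ hρ).tsum_ofReal_ne_top
  -- termwise inequality
  have hterm : ∀ m : ℕ, ENNReal.ofReal (ρ ^ m) * R m + ENNReal.ofReal δ * ENNReal.ofReal (ρ ^ m * E m) ≤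
      (ENNReal.ofReal (ρ ^ m * L m) + ENNReal.ofReal (ρ ^ m * u m)) +
        (if m ∈ Finset.range m₀ then R m + ENNReal.ofReal (δ * E m) else 0) := by
    intro m
    have e1 : ENNReal.ofReal (ρ ^ m) * R m + ENNReal.ofReal δ * ENNReal.ofReal (ρ ^ m * E m) =
        ENNReal.ofReal (ρ ^ m) * (R m + ENNReal.ofReal (δ * E m)) := by
      rw [ENNReal.ofReal_mul (hρ0 m), ENNReal.ofReal_mul hδ.le]
      ring
    have e2 : ENNReal.ofReal (ρ ^ m * L m) + ENNReal.ofReal (ρ ^ m * u m) =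
        ENNReal.ofReal (ρ ^ m) * ENNReal.ofReal (L m + u m) := by
      rw [ENNReal.ofReal_mul (hρ0 m), ENNReal.ofReal_mul (hρ0 m), ENNReal.ofReal_add (hL m) (hu m)]
      ring
    rw [e1, e2]
    by_cases h : m ∈ Finset.range m₀
    · rw [if_pos h]
      refine le_trans ?_ le_add_self
      calc ENNReal.ofReal (ρ ^ m) * (R m + ENNReal.ofReal (δ * E m))
          ≤ 1 * (R m + ENNReal.ofReal (δ * E m)) := by gcongr; exact hρ1 m
        _ = _ := one_mul _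
    · rw [if_neg h, add_zero]
      have h' : m₀ ≤ m := by simpa using h
      gcongr
      exact hin m h'
  have hsum1 : ∑' m : ℕ, ENNReal.ofReal (ρ ^ m) * R m +
      ENNReal.ofReal δ * ∑' m : ℕ, ENNReal.ofReal (ρ ^ m * E m) ≤
      (∑' m : ℕ, ENNReal.ofReal (ρ ^ m * L m) + ∑' m : ℕ, ENNReal.ofReal (ρ ^ m * u m)) + A := by
    rw [← ENNReal.tsum_mul_left, ← ENNReal.tsum_add, ← ENNReal.tsum_add]
    have e3 : A = ∑' m : ℕ, (if m ∈ Finset.range m₀ then R m + ENNReal.ofReal (δ * E m) else 0) := by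
      rw [tsum_eq_sum (s := Finset.range m₀) (fun m hm => if_neg hm), hA]
      exact Finset.sum_congr rfl fun m hm => (if_pos hm).symm
    rw [e3, ← ENNReal.tsum_add]
    exact ENNReal.tsum_le_tsum hterm
  by_cases hv : ∑' m : ℕ, ENNReal.ofReal (ρ ^ m * u m) = ⊤
  · rw [hv]; simp
  have hSR : ∑' m : ℕ, ENNReal.ofReal (ρ ^ m) * R m ≠ ⊤ := by
    refine ne_top_of_le_ne_top ?_ (le_trans le_self_add hsum1)
    exact ENNReal.add_ne_top.2 ⟨ENNReal.add_ne_top.2 ⟨hSL, hv⟩, hAt⟩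
  have h3 : ∑' m : ℕ, ENNReal.ofReal (ρ ^ m) * R m +
      ENNReal.ofReal δ * ∑' m : ℕ, ENNReal.ofReal (ρ ^ m * E m) ≤
      ∑' m : ℕ, ENNReal.ofReal (ρ ^ m) * R m + (A + ∑' m : ℕ, ENNReal.ofReal (ρ ^ m * u m)) := by
    refine hsum1.trans ?_
    calc (∑' m : ℕ, ENNReal.ofReal (ρ ^ m * L m) + ∑' m : ℕ, ENNReal.ofReal (ρ ^ m * u m)) + A
        ≤ (∑' m : ℕ, ENNReal.ofReal (ρ ^ m) * R m + ∑' m : ℕ, ENNReal.ofReal (ρ ^ m * u m)) + A := by
          exact add_le_add (add_le_add (hLR ρ hρ) le_rfl) le_rfl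
      _ = _ := by ring
  exact (ENNReal.add_le_add_iff_left hSR).1 h3

end Pool.Agent.H7.SZ
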