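import Pool.Agent.H7.SZ.Stm

set_option autoImplicit false

/-! # SZ-GRO (helper29): growth of the coefficients of the double series -/

namespace Pool.Agent.H7.SZ

open Metric Set Filter Topology

theorem gro : S_GRO := by
  intro K ν hν s hs
  have hsb : ((s : ℝ) : ℂ) ∈ ball (0 : ℂ) 1 := by
    rw [mem_ball_zero_iff, Complex.norm_real, Real.norm_eq_abs, abs_of_pos hs.1]
    exact hs.2
  have h2 := (hν.2 s hsb s hsb).summable.norm
  refine ⟨∑' p : ℕ × ℕ, ‖ν p.1 p.2 * (s : ℂ) ^ p.1 * (s : ℂ) ^ p.2‖, fun a b => ?_⟩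
  have h3 := h2.le_tsum (a, b) (fun _ _ => norm_nonneg _)
  refine le_trans (le_of_eq ?_) h3
  simp only [norm_mul, norm_pow, Complex.norm_real, Real.norm_eq_abs, abs_of_pos hs.1, pow_add,
    mul_assoc]

end Pool.Agent.H7.SZ
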