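import Pool.Agent.H64.CX.StmF
import Pool.Agent.H7.CY.A1
import Pool.Agent.H64.G.R_seed8.W677.MarG1

set_option autoImplicit false

/-! # Project SZ: Szegő's conjecture for `p = 5` (MP_283627_an). Statements. -/

namespace Pool.Agent.H7.SZ

open Metric Set Filter Topology MeasureTheory
open scoped ENNReal
open Pool.Agent.H64.CX (bt rr TP TN GD)
open Pool.Agent.W677.Mar (IsG0)

/-- the exponent `α = -1/2` -/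
noncomputable def ah : ℂ := -(1 / 2)

/-- the exponent of the weights -/
noncomputable def sg : ℝ := 399 / 1000

/-- the weights -/
noncomputable def w (j : ℕ) : ℝ := ((j : ℝ) + 1) ^ (1 - sg)

/-- the class `S` -/
structure Sc (F : ℂ → ℂ) : Prop where
  diff : DifferentiableOn ℂ F (ball 0 1)
  inj : InjOn F (ball 0 1)
  zero : F 0 = 0
  one : deriv F 0 = 1

/-- `K (ζ, z) = ((F z - F ζ) / (z - ζ)) ^ (1/2)` -/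
structure Kr (F : ℂ → ℂ) (K : ℂ × ℂ → ℂ) : Prop where
  diff : DifferentiableOn ℂ K (ball (0 : ℂ) 1 ×ˢ ball (0 : ℂ) 1)
  symm : ∀ ζ ∈ ball (0 : ℂ) 1, ∀ z ∈ ball (0 : ℂ) 1, K (ζ, z) = K (z, ζ)
  sq : ∀ ζ ∈ ball (0 : ℂ) 1, ∀ z ∈ ball (0 : ℂ) 1, K (ζ, z) ^ 2 * (z - ζ) = F z - F ζ
  diag : ∀ ζ ∈ ball (0 : ℂ) 1, K (ζ, ζ) ^ 2 = deriv F ζ
  one : K (0, 0) = 1

/-- the double power series of `K` -/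
def Se (K : ℂ × ℂ → ℂ) (ν : ℕ → ℕ → ℂ) : Prop :=
  (∀ a b, ν a b = ν b a) ∧ ∀ ζ ∈ ball (0 : ℂ) 1, ∀ z ∈ ball (0 : ℂ) 1,
    HasSum (fun p : ℕ × ℕ => ν p.1 p.2 * ζ ^ p.1 * z ^ p.2) (K (ζ, z))

/-- the positive part in the degree `m` (the term `n = m` is not included) -/
noncomputable def LL (ν : ℕ → ℕ → ℂ) (m : ℕ) : ℝ :=
  ∑ n ∈ Finset.range m, ((n : ℝ) + 1 / 2) * w (m - n) * ‖TP ah ν n m‖ ^ 2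

/-- the negative part in the degree `m` -/
noncomputable def RR (ν : ℕ → ℕ → ℂ) (m : ℕ) : ℝ≥0∞ :=
  ∑' k : ℕ, ENNReal.ofReal (((k : ℝ) + 1 / 2) * w (m + k + 1) * ‖TN ah ν (k + 1) m‖ ^ 2)

/-- the positive part with the weights `n² / (m + 1)` -/
noncomputable def EM (ν : ℕ → ℕ → ℂ) (m : ℕ) : ℝ :=
  ∑ n ∈ Finset.range m, (n : ℝ) ^ 2 / ((m : ℝ) + 1) * w (m - n) * ‖TP ah ν n m‖ ^ 2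

/-- SZ-KER: the kernel -/
def S_KER : Prop := ∀ F : ℂ → ℂ, Sc F → ∃ K : ℂ × ℂ → ℂ, Kr F K

/-- SZ-POL: the Taylor coefficients in `ζ` are polynomials in `1 / (v K (0, v²))` -/
def S_POL : Prop :=
  ∀ (F : ℂ → ℂ) (K : ℂ × ℂ → ℂ) (ν : ℕ → ℕ → ℂ), Sc F → Kr F K → Se K ν → ∀ j : ℕ, 1 ≤ j →
    ∃ P : Polynomial ℂ, ∀ v : ℂ, v ≠ 0 → ‖v‖ < 1 →
      v * Pool.Agent.H7.CY.ej ah ν j (v ^ 2) = P.eval ((K (0, v ^ 2))⁻¹ / v)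

/-- SZ-IG: the square root transform -/
def S_IG : Prop :=
  ∀ (F : ℂ → ℂ) (K : ℂ × ℂ → ℂ), Sc F → Kr F K → IsG0 fun v => (K (0, v ^ 2))⁻¹

/-- SZ-AREA: the area inequality for the `j`-th Taylor coefficient, `j ≥ 1` -/
def S_AREA : Prop :=
  S_POL → S_IG → ∀ (F : ℂ → ℂ) (K : ℂ × ℂ → ℂ) (ν : ℕ → ℕ → ℂ), Sc F → Kr F K → Se K ν →
    ∀ j N : ℕ, 1 ≤ j →
    ∑ n ∈ Finset.range N, ((n : ℝ) + 1 / 2) * ‖TP ah ν n (n + j)‖ ^ 2 ≤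
      ∑ k ∈ Finset.Icc 1 j, ((k : ℝ) - 1 / 2) * ‖TN ah ν k (j - k)‖ ^ 2

/-- SZ-WAR: the weighted sum of the area inequalities -/
def S_WAR : Prop :=
  ∀ ν : ℕ → ℕ → ℂ, (∀ j N : ℕ, 1 ≤ j →
    ∑ n ∈ Finset.range N, ((n : ℝ) + 1 / 2) * ‖TP ah ν n (n + j)‖ ^ 2 ≤
      ∑ k ∈ Finset.Icc 1 j, ((k : ℝ) - 1 / 2) * ‖TN ah ν k (j - k)‖ ^ 2) →
    ∀ ρ ∈ Ioo (0 : ℝ) 1, ∑' m : ℕ, ENNReal.ofReal (ρ ^ m * LL ν m) ≤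
      ∑' m : ℕ, ENNReal.ofReal (ρ ^ m) * RR ν m

/-- SZ-FRC: the area of the image of the square root transform -/
def S_FRC : Prop :=
  ∀ (F : ℂ → ℂ) (K : ℂ × ℂ → ℂ) (ν : ℕ → ℕ → ℂ), Sc F → Kr F K → Se K ν →
    ∀ r ∈ Ioo (0 : ℝ) 1, ∀ M : ℝ, (∀ z : ℂ, ‖z‖ ≤ r → ‖F z‖ ≤ M) →
      ∀ N : ℕ, ∑ m ∈ Finset.range N, (2 * (m : ℝ) + 1) * ‖ν 0 m‖ ^ 2 * r ^ (2 * m + 1) ≤ M

/-- SZ-DM: the forced terms, when `|F| ≤ C (1 - |z|) ^ (-2/5)` -/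
def S_DM : Prop :=
  ∀ (y : ℕ → ℝ) (C : ℝ), (∀ m, 0 ≤ y m) → 0 ≤ C →
    (∀ r ∈ Ioo (0 : ℝ) 1, ∀ N : ℕ,
      ∑ m ∈ Finset.range N, (2 * (m : ℝ) + 1) * y m * r ^ (2 * m + 1) ≤
        C * (1 - r) ^ (-(2 / 5) : ℝ)) →
    ∃ C' : ℝ, 0 ≤ C' ∧ ∀ M : ℕ, 1 ≤ M →
      ∑ m ∈ Finset.range M, ((m : ℝ) + 1) * y m ≤ C' * (M : ℝ) ^ (2 / 5 : ℝ)

/-- SZ-PS: partial summation -/
def S_PS : Prop :=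
  ∀ (y : ℕ → ℝ) (C : ℝ), (∀ m, 0 ≤ y m) → 0 ≤ C →
    (∀ M : ℕ, 1 ≤ M → ∑ m ∈ Finset.range M, ((m : ℝ) + 1) * y m ≤ C * (M : ℝ) ^ (2 / 5 : ℝ)) →
    ∃ C' : ℝ, 0 ≤ C' ∧ ∀ M : ℕ, 2 ≤ M →
      ∑' m : ℕ, ENNReal.ofReal ((1 - 1 / (M : ℝ)) ^ m * (w m * y m)) ≤
        ENNReal.ofReal (C' * (M : ℝ) ^ (2 / 5 - sg))

/-- SZ-SUM: convergence for `ρ < 1` -/
def S_SUM : Prop :=
  ∀ ν : ℕ → ℕ → ℂ, (∀ s ∈ Ioo (0 : ℝ) 1, ∃ C : ℝ, ∀ a b, ‖ν a b‖ * s ^ (a + b) ≤ C) →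
    ∀ ρ ∈ Ioo (0 : ℝ) 1, Summable fun m : ℕ => ρ ^ m * LL ν m

/-- SZ-LOW: the negative part is finite, for every `m`; and the sum of all the coefficients is zero -/
def S_LOW : Prop :=
  ∀ (ν : ℕ → ℕ → ℂ) (m : ℕ), RR ν m ≠ ⊤ ∧ (Summable fun k : ℕ => TN ah ν (k + 1) m) ∧
    ∑ n ∈ Finset.range (m + 1), TP ah ν n m + ∑' k : ℕ, TN ah ν (k + 1) m = 0

/-- SZ-GRO: growth of the coefficients of a holomorphic function on the bidisc -/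
def S_GRO : Prop :=
  ∀ (K : ℂ × ℂ → ℂ) (ν : ℕ → ℕ → ℂ), Se K ν →
    ∀ s ∈ Ioo (0 : ℝ) 1, ∃ C : ℝ, ∀ a b, ‖ν a b‖ * s ^ (a + b) ≤ C

/-- SZ-CORE: subtraction of the sums -/
def S_CORE : Prop :=
  ∀ (L E u : ℕ → ℝ) (R : ℕ → ℝ≥0∞) (δ : ℝ) (m₀ : ℕ), (∀ m, 0 ≤ L m) → (∀ m, 0 ≤ E m) →
    (∀ m, 0 ≤ u m) → 0 < δ → (∀ m, R m ≠ ⊤) →
    (∀ ρ ∈ Ioo (0 : ℝ) 1, Summable fun m : ℕ => ρ ^ m * L m) →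
    (∀ ρ ∈ Ioo (0 : ℝ) 1, ∑' m : ℕ, ENNReal.ofReal (ρ ^ m * L m) ≤
      ∑' m : ℕ, ENNReal.ofReal (ρ ^ m) * R m) →
    (∀ m, m₀ ≤ m → R m + ENNReal.ofReal (δ * E m) ≤ ENNReal.ofReal (L m + u m)) →
    ∃ B : ℝ, 0 ≤ B ∧ ∀ ρ ∈ Ioo (0 : ℝ) 1,
      ENNReal.ofReal δ * ∑' m : ℕ, ENNReal.ofReal (ρ ^ m * E m) ≤
        ENNReal.ofReal B + ∑' m : ℕ, ENNReal.ofReal (ρ ^ m * u m)

/-- SZ-GD: the diagonal coefficients -/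
def S_GD : Prop :=
  Pool.Agent.H64.CX.S_HID → Pool.Agent.H64.CX.S_BTU → ∃ C : ℝ, 0 ≤ C ∧
    ∀ ν : ℕ → ℕ → ℂ, (∀ a b, ν a b = ν b a) → ∀ m : ℕ, 1 ≤ m →
      ‖GD ν m‖ ^ 2 ≤ C * (((m : ℝ) + 1) ^ sg * EM ν m + ((m : ℝ) + 1) * ‖ν 0 m‖ ^ 2)

/-- SZ-FIN: the sums of the squares of the diagonal coefficients -/
def S_FIN : Prop :=
  ∀ (G E y : ℕ → ℝ) (C : ℝ), 0 ≤ C → (∀ m, 0 ≤ E m) → (∀ m, 0 ≤ y m) →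
    (∀ m, 1 ≤ m → G m ≤ C * (((m : ℝ) + 1) ^ sg * E m + ((m : ℝ) + 1) * y m)) →
    (∀ M : ℕ, 1 ≤ M → ∑ m ∈ Finset.range M, ((m : ℝ) + 1) * y m ≤ C * (M : ℝ) ^ (2 / 5 : ℝ)) →
    (∀ M : ℕ, 2 ≤ M → ∑' m : ℕ, ENNReal.ofReal ((1 - 1 / (M : ℝ)) ^ m * E m) ≤
      ENNReal.ofReal (C * (M : ℝ) ^ (2 / 5 - sg))) →
    ∃ B : ℝ, 0 ≤ B ∧ ∀ M : ℕ, 1 ≤ M → ∑ m ∈ Finset.range M, G m ≤ B * (M : ℝ) ^ (2 / 5 : ℝ)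

/-- SZ-MN: from the coefficients to the means -/
def S_MN : Prop :=
  ∀ (a : ℕ → ℂ) (g : ℂ → ℂ) (B : ℝ), 0 ≤ B →
    (∀ z ∈ ball (0 : ℂ) 1, HasSum (fun m : ℕ => a m * z ^ m) (g z)) →
    (∀ M : ℕ, 1 ≤ M → ∑ m ∈ Finset.range M, ‖a m‖ ^ 2 ≤ B * (M : ℝ) ^ (2 / 5 : ℝ)) →
    ∃ C : ℝ, 0 ≤ C ∧ ∀ r ∈ Ioo (0 : ℝ) 1,
      ∫ t in (0 : ℝ)..(2 * Real.pi), ‖g (circleMap 0 r t)‖ ^ 2 ≤ C * (1 - r) ^ (-(2 / 5) : ℝ)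

/-- SZ-RT: the root transform -/
def S_RT : Prop :=
  ∀ f φ : ℂ → ℂ, Sc f → DifferentiableOn ℂ φ (ball 0 1) → φ 0 = 1 →
    (∀ z ∈ ball (0 : ℂ) 1, z * φ z ^ 5 = f z) → Sc fun z => z * φ (z ^ 5)

/-- SZ-GW: growth of the root transform (Koebe's growth theorem for `f`) -/
def S_GW : Prop :=
  ∀ f φ : ℂ → ℂ, Sc f → DifferentiableOn ℂ φ (ball 0 1) → φ 0 = 1 →
    (∀ z ∈ ball (0 : ℂ) 1, z * φ z ^ 5 = f z) →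
    ∀ z ∈ ball (0 : ℂ) 1, ‖z * φ (z ^ 5)‖ ≤ (1 - ‖z‖) ^ (-(2 / 5) : ℝ)

/-- SZ-CF: the coefficients of the root transform -/
def S_CF : Prop :=
  ∀ (φ : ℂ → ℂ) (c : ℕ → ℂ) (C : ℝ), 0 ≤ C → DifferentiableOn ℂ φ (ball 0 1) →
    (∀ z ∈ ball (0 : ℂ) 1, HasSum (fun n : ℕ => c n * z ^ n) (φ z)) →
    (∀ r ∈ Ioo (0 : ℝ) 1, ∫ t in (0 : ℝ)..(2 * Real.pi),
      ‖deriv (fun z => z * φ (z ^ 5)) (circleMap 0 r t)‖ ≤ C * (1 - r) ^ (-(2 / 5) : ℝ)) →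
    ∃ C' : ℝ, ∀ n : ℕ, 1 ≤ n → ‖c n‖ ≤ C' * (n : ℝ) ^ (-(3 / 5) : ℝ)

/-- the factor which removes the logarithm -/
noncomputable def mx (m k : ℕ) : ℝ := max 1 (((m : ℝ) / ((k : ℝ) + 1)) ^ (1 / 10 : ℝ))

/-- the truncation factor -/
noncomputable def tr (ε : ℝ) (m n : ℕ) : ℝ := min 1 (((n : ℝ) / (ε * m)) ^ (1 / 2 : ℝ))

/-- SZ-REDF (helper76, helper64): the reduced rows; the index `k` stands for `k + 1` -/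
def S_REDF : Prop :=
  ∃ (ε θ C : ℝ) (m₀ : ℕ) (b : ℕ → ℕ → ℕ → ℝ), 0 < ε ∧ ε ≤ 1 / 2 ∧ 0 ≤ θ ∧ θ < 1 ∧ 0 ≤ C ∧
    ∀ m : ℕ, m₀ ≤ m →
      (∀ ν : ℕ → ℕ → ℂ, (∀ a b, ν a b = ν b a) → ∀ k : ℕ,
        TN ah ν (k + 1) m = ∑ n ∈ Finset.Icc 1 m, (b m k n : ℂ) * TP ah ν n m) ∧
      ∑' k : ℕ, ENNReal.ofReal (((k : ℝ) + 1) * w (m + k + 1) *
        ∑ n ∈ Finset.Ico 1 m, b m k n ^ 2 / ((n : ℝ) * w (m - n) * tr ε m n)) ≤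
          ENNReal.ofReal θ ∧
      ∑' k : ℕ, ENNReal.ofReal (((k : ℝ) + 1) * w (m + k + 1) * mx m k *
        ∑ n ∈ Finset.Ico 1 m, b m k n ^ 2 / ((n : ℝ) * w (m - n) * tr ε m n)) ≤
          ENNReal.ofReal C ∧
      ∑' k : ℕ, ENNReal.ofReal (((k : ℝ) + 1 / 2) * w (m + k + 1) * b m k m ^ 2) ≤
          ENNReal.ofReal (w m * (Real.log m / Real.pi ^ 2 + C)) ∧
      ∑' k : ℕ, ENNReal.ofReal (((k : ℝ) + 1) * w (m + k + 1) * b m k m ^ 2 / mx m k) ≤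
          ENNReal.ofReal (C * w m) ∧
      (Summable fun k : ℕ => b m k m) ∧
      Real.log m / Real.pi - C ≤ |∑' k : ℕ, b m k m|

/-- SZ-A1: the first auxiliary sum -/
def S_A1 : Prop :=
  ∀ ε : ℝ, 0 < ε → ε ≤ 1 / 2 → ∃ C : ℝ, 0 ≤ C ∧ ∀ m X : ℕ, 2 ≤ m → (X : ℝ) ≤ ε * m / 2 →
    ∑ n ∈ Finset.range (X + 1), 1 / (((n : ℝ) + 1 / 2) * w (m - n) * (1 - tr ε m n)) ≤
      (Real.log m + C) / w m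

/-- SZ-A2: the second auxiliary sum -/
def S_A2 : Prop :=
  ∀ ε : ℝ, 0 < ε → ε ≤ 1 / 2 → ∃ C : ℝ, 0 ≤ C ∧ ∀ m X : ℕ, 1 ≤ m → ε * m / 2 < (X : ℝ) + 1 →
    ∑ n ∈ Finset.Ico (X + 1) m, 1 / ((n : ℝ) * w (m - n) * tr ε m n) ≤ C / w m

/-- SZ-A3: the third auxiliary sum -/
def S_A3 : Prop :=
  ∃ C : ℝ, 0 ≤ C ∧ ∀ m : ℕ, 1 ≤ m →
    ∑' k : ℕ, ENNReal.ofReal (1 / (((k : ℝ) + 1) * w (m + k + 1) * mx m k)) ≤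
      ENNReal.ofReal (C / w m)

/-- SZ-ABS: the quadratic inequality in one degree -/
def S_ABS : Prop :=
  S_A1 → S_A2 → S_A3 → ∀ ε θ C : ℝ, 0 < ε → ε ≤ 1 / 2 → 0 ≤ θ → θ < 1 → 0 ≤ C →
    ∃ (δ C' : ℝ) (m₁ : ℕ), 0 < δ ∧ 0 ≤ C' ∧ ∀ m : ℕ, m₁ ≤ m →
    ∀ (t g : ℕ → ℂ) (y : ℂ) (b : ℕ → ℝ) (E' : ℝ),
      E' = ∑ n ∈ Finset.range m, (n : ℝ) * w (m - n) * tr ε m n * ‖t n‖ ^ 2 →
      ∑' k : ℕ, ENNReal.ofReal (((k : ℝ) + 1) * w (m + k + 1) * ‖g k‖ ^ 2) ≤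
        ENNReal.ofReal (θ * E') →
      ∑' k : ℕ, ENNReal.ofReal (((k : ℝ) + 1) * w (m + k + 1) * mx m k * ‖g k‖ ^ 2) ≤
        ENNReal.ofReal (C * E') →
      ∑' k : ℕ, ENNReal.ofReal (((k : ℝ) + 1 / 2) * w (m + k + 1) * b k ^ 2) ≤
        ENNReal.ofReal (w m * (Real.log m / Real.pi ^ 2 + C)) →
      ∑' k : ℕ, ENNReal.ofReal (((k : ℝ) + 1) * w (m + k + 1) * b k ^ 2 / mx m k) ≤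
        ENNReal.ofReal (C * w m) →
      (Summable b) → Real.log m / Real.pi - C ≤ |∑' k : ℕ, b k| → Summable g →
      ∑ n ∈ Finset.range m, t n + y + ∑' k : ℕ, (g k + (b k : ℂ) * y) = 0 →
      ∑' k : ℕ, ENNReal.ofReal (((k : ℝ) + 1 / 2) * w (m + k + 1) * ‖g k + (b k : ℂ) * y‖ ^ 2) +
        ENNReal.ofReal (δ * E') ≤
      ENNReal.ofReal (∑ n ∈ Finset.range m, ((n : ℝ) + 1 / 2) * w (m - n) * ‖t n‖ ^ 2 +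
        C' * w m * ‖y‖ ^ 2)

/-- SZ-PERM: the quadratic inequality for the coefficients (from ABS, REDF, LOW) -/
def S_PERM : Prop :=
  ∃ (δ C : ℝ) (m₀ : ℕ), 0 < δ ∧ 0 ≤ C ∧ ∀ ν : ℕ → ℕ → ℂ, (∀ a b, ν a b = ν b a) →
    ∀ m : ℕ, m₀ ≤ m →
    RR ν m + ENNReal.ofReal (δ * EM ν m) ≤ ENNReal.ofReal (LL ν m + C * w m * ‖ν 0 m‖ ^ 2)

end Pool.Agent.H7.SZ
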