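import Pool.Agent.H7.SZ.Stm

set_option autoImplicit false

/-!
# SZ-A1
-/

namespace Pool.Agent.H7.SZ

namespace A1

theorem s1 (X : ℕ) : ∑ n ∈ Finset.range (X + 1), 1 / ((n : ℝ) + 1 / 2) ≤
    2 + Real.log (2 * X + 1) := by
  induction X with
  | zero => simp
  | succ X ih =>
    rw [Finset.sum_range_succ]
    have h1 : (0 : ℝ) < 2 * X + 1 := by positivity
    have h3 : (0 : ℝ) < 2 * X + 3 := by positivity
    have h2 := Real.one_sub_inv_le_log_of_pos (x := (2 * X + 3) / (2 * X + 1)) (by positivity)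
    rw [Real.log_div h3.ne' h1.ne'] at h2
    have h4 : 1 - ((2 * (X : ℝ) + 3) / (2 * X + 1))⁻¹ = 1 / ((X : ℝ) + 1 + 1 / 2) := by
      rw [inv_div]
      field_simp
      ring
    rw [h4] at h2
    push_cast
    have e : 2 * ((X : ℝ) + 1) + 1 = 2 * X + 3 := by ring
    rw [e]
    linarith

theorem s2 (X : ℕ) : ∑ n ∈ Finset.range (X + 1), Real.sqrt n / ((n : ℝ) + 1 / 2) ≤
    2 * Real.sqrt X := by
  induction X with
  | zero => simp
  | succ X ih =>
    rw [Finset.sum_range_succ]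
    push_cast
    set a := Real.sqrt ((X : ℝ) + 1) with ha
    set b := Real.sqrt (X : ℝ) with hb
    have a2 : a ^ 2 = X + 1 := Real.sq_sqrt (by positivity)
    have b2 : b ^ 2 = X := Real.sq_sqrt (by positivity)
    have a0 : 0 < a := Real.sqrt_pos.2 (by positivity)
    have b0 : 0 ≤ b := Real.sqrt_nonneg _
    have hab : b ≤ a := Real.sqrt_le_sqrt (by linarith)
    have h1 : a / ((X : ℝ) + 1 + 1 / 2) ≤ 1 / a := by
      rw [div_le_div_iff₀ (by positivity) a0]
      nlinarith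
    have h2 : 1 / a ≤ 2 * (a - b) := by
      rw [div_le_iff₀ a0]
      nlinarith [sq_nonneg (a - b)]
    linarith

theorem w_pos (j : ℕ) : 0 < w j := by unfold w; positivity

theorem w_low {m n : ℕ} (h : n ≤ m) : w m * (1 - (n : ℝ) / (m + 1)) ≤ w (m - n) := by
  have hnm : (n : ℝ) ≤ m := by exact_mod_cast h
  have hm : (0 : ℝ) < m + 1 := by positivity
  set y : ℝ := 1 - (n : ℝ) / (m + 1) with hy
  have hy0 : 0 < y := by
    have : (n : ℝ) / (m + 1) < 1 := by rw [div_lt_one hm]; linarith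
    linarith
  have hy1 : y ≤ 1 := by
    have : 0 ≤ (n : ℝ) / (m + 1) := by positivity
    linarith
  have e : ((m - n : ℕ) : ℝ) + 1 = (m + 1) * y := by
    rw [Nat.cast_sub h, hy]
    field_simp
    ring
  unfold w
  rw [e, Real.mul_rpow hm.le hy0.le]
  refine mul_le_mul_of_nonneg_left ?_ (by positivity)
  calc y = y ^ (1 : ℝ) := (Real.rpow_one y).symm
    _ ≤ y ^ (1 - sg) := Real.rpow_le_rpow_of_exponent_ge hy0 hy1 (by unfold sg; norm_num)

theorem key {u t : ℝ} (hu : 0 ≤ u) (hu1 : u ≤ 1 / 4) (ht : 0 ≤ t) (ht1 : t ≤ 3 / 4) :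
    1 / ((1 - u) * (1 - t)) ≤ 1 + 2 * u + 6 * t := by
  rw [div_le_iff₀ (by nlinarith [mul_pos (show 0 < 1 - u by linarith) (show 0 < 1 - t by linarith)])]
  have h1 : 1 ≤ (1 + 2 * u) * (1 - u) := by nlinarith
  have h2 : 1 ≤ (1 + 4 * t) * (1 - t) := by nlinarith
  have h3 : (1 + 2 * u) * (1 + 4 * t) ≤ 1 + 2 * u + 6 * t := by nlinarith
  calc (1 : ℝ) ≤ ((1 + 2 * u) * (1 - u)) * ((1 + 4 * t) * (1 - t)) := by nlinarith
    _ = ((1 + 2 * u) * (1 + 4 * t)) * ((1 - u) * (1 - t)) := by ring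
    _ ≤ (1 + 2 * u + 6 * t) * ((1 - u) * (1 - t)) :=
        mul_le_mul_of_nonneg_right h3 (mul_nonneg (by linarith) (by linarith))

end A1

open A1 in
theorem a1 : S_A1 := by
  intro ε hε hε2
  refine ⟨17, by norm_num, fun m X hm hX => ?_⟩
  have hm' : (2 : ℝ) ≤ m := by exact_mod_cast hm
  have hwm := w_pos m
  have hX4 : (X : ℝ) ≤ m / 4 := by nlinarith
  have hεm : 0 < ε * m := by positivity
  have hs : 0 < Real.sqrt (ε * m) := Real.sqrt_pos.2 hεm
  have term : ∀ n ∈ Finset.range (X + 1),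
      1 / (((n : ℝ) + 1 / 2) * w (m - n) * (1 - tr ε m n)) ≤
        (1 / w m) * (1 / ((n : ℝ) + 1 / 2) + 2 / ((m : ℝ) + 1) +
          6 * (Real.sqrt n / ((n : ℝ) + 1 / 2)) / Real.sqrt (ε * m)) := by
    intro n hn
    have hnX : n ≤ X := Nat.lt_succ_iff.1 (Finset.mem_range.1 hn)
    have hnX' : (n : ℝ) ≤ X := by exact_mod_cast hnX
    have hn4 : (n : ℝ) ≤ m / 4 := hnX'.trans hX4
    have hnm : n ≤ m := by
      have : (n : ℝ) ≤ m := by linarith
      exact_mod_cast this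
    have hn0 : (0 : ℝ) ≤ n := Nat.cast_nonneg n
    set u : ℝ := (n : ℝ) / (m + 1) with hu
    have hu0 : 0 ≤ u := by positivity
    have hu1 : u ≤ 1 / 4 := by
      rw [hu, div_le_iff₀ (by positivity)]
      linarith
    set t : ℝ := Real.sqrt ((n : ℝ) / (ε * m)) with ht
    have ht0 : 0 ≤ t := Real.sqrt_nonneg _
    have hr : (n : ℝ) / (ε * m) ≤ 1 / 2 := by
      rw [div_le_iff₀ hεm]
      linarith
    have ht2 : t ^ 2 ≤ 1 / 2 := by
      rw [ht, Real.sq_sqrt (by positivity)]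
      exact hr
    have ht1 : t ≤ 3 / 4 := by nlinarith
    have htr : tr ε m n = t := by
      unfold tr
      rw [← Real.sqrt_eq_rpow]
      exact min_eq_right (by rw [← ht]; linarith)
    have htd : t = Real.sqrt n / Real.sqrt (ε * m) := by
      rw [ht, Real.sqrt_div hn0]
    have h1 := w_low hnm
    rw [← hu] at h1
    have hN : (0 : ℝ) < (n : ℝ) + 1 / 2 := by positivity
    have h2 : 1 / (((n : ℝ) + 1 / 2) * w (m - n) * (1 - tr ε m n)) ≤
        (1 / w m) * (1 / ((n : ℝ) + 1 / 2)) * (1 / ((1 - u) * (1 - t))) := by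
      rw [htr]
      have h3 : (1 / w m) * (1 / ((n : ℝ) + 1 / 2)) * (1 / ((1 - u) * (1 - t))) =
          1 / (((n : ℝ) + 1 / 2) * (w m * (1 - u)) * (1 - t)) := by
        rw [one_div_mul_one_div, one_div_mul_one_div]
        congr 1
        ring
      rw [h3]
      refine one_div_le_one_div_of_le ?_ ?_
      · exact mul_pos (mul_pos hN (mul_pos hwm (by linarith))) (by linarith)
      · exact mul_le_mul_of_nonneg_right (mul_le_mul_of_nonneg_left h1 hN.le) (by linarith)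
    refine h2.trans ?_
    rw [mul_assoc]
    refine mul_le_mul_of_nonneg_left ?_ (by positivity)
    have h4 := key hu0 hu1 ht0 ht1
    have h5 : 1 / ((n : ℝ) + 1 / 2) * (1 / ((1 - u) * (1 - t))) ≤
        1 / ((n : ℝ) + 1 / 2) * (1 + 2 * u + 6 * t) :=
      mul_le_mul_of_nonneg_left h4 (by positivity)
    refine h5.trans ?_
    have h6 : u / ((n : ℝ) + 1 / 2) ≤ 1 / (m + 1) := by
      rw [hu, div_div, div_le_div_iff₀ (by positivity) (by positivity)]
      nlinarith
    have h7 : 1 / ((n : ℝ) + 1 / 2) * (1 + 2 * u + 6 * t) =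
        1 / ((n : ℝ) + 1 / 2) + 2 * (u / ((n : ℝ) + 1 / 2)) +
          6 * (Real.sqrt n / ((n : ℝ) + 1 / 2)) / Real.sqrt (ε * m) := by
      rw [htd]
      field_simp
    rw [h7]
    have h8 : 2 * (u / ((n : ℝ) + 1 / 2)) ≤ 2 / ((m : ℝ) + 1) := by
      calc 2 * (u / ((n : ℝ) + 1 / 2)) ≤ 2 * (1 / (m + 1)) := by linarith
        _ = 2 / ((m : ℝ) + 1) := by ring
    linarith
  refine (Finset.sum_le_sum term).trans ?_
  have hfin : (Real.log m + 17) / w m = (1 / w m) * (Real.log m + 17) := by ring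
  rw [← Finset.mul_sum, hfin]
  refine mul_le_mul_of_nonneg_left ?_ (one_div_pos.2 hwm).le
  rw [Finset.sum_add_distrib, Finset.sum_add_distrib]
  have g1 := s1 X
  have g2 : Real.log (2 * X + 1) ≤ Real.log m :=
    Real.log_le_log (by positivity) (by linarith)
  have g3 : ∑ _n ∈ Finset.range (X + 1), 2 / ((m : ℝ) + 1) ≤ 2 := by
    rw [Finset.sum_const, Finset.card_range, nsmul_eq_mul, mul_div_assoc',
      div_le_iff₀ (show (0 : ℝ) < (m : ℝ) + 1 by positivity)]
    push_cast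
    nlinarith
  have g4 : ∑ n ∈ Finset.range (X + 1),
      6 * (Real.sqrt n / ((n : ℝ) + 1 / 2)) / Real.sqrt (ε * m) ≤ 12 := by
    rw [← Finset.sum_div, ← Finset.mul_sum, div_le_iff₀ hs]
    have h1 := s2 X
    have h2 : Real.sqrt X ≤ Real.sqrt (ε * m) := Real.sqrt_le_sqrt (by linarith)
    linarith
  linarith

end Pool.Agent.H7.SZ
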