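import Pool.Agent.H7.SZ.Stm

set_option autoImplicit false

/-!
# SZ-A2
-/

namespace Pool.Agent.H7.SZ

namespace A2

theorem w_pos (j : ℕ) : 0 < w j := by unfold w; positivity

/-- `j ^ (σ - 1) ≤ (j ^ σ - (j - 1) ^ σ) / σ`, in the form used -/
theorem step (j : ℝ) (hj : 0 < j) : (j + 1) ^ (sg - 1) ≤ ((j + 1) ^ sg - j ^ sg) * (1000 / 399) := by
  have hc : ConcaveOn ℝ (Set.Ici 0) fun x : ℝ => x ^ sg :=
    Real.concaveOn_rpow (by unfold sg; norm_num) (by unfold sg; norm_num)
  have hd : HasDerivAt (fun x : ℝ => x ^ sg) (sg * (j + 1) ^ (sg - 1)) (j + 1) :=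
    Real.hasDerivAt_rpow_const (Or.inl (by positivity))
  have h1 := hc.le_slope_of_hasDerivAt (x := j) (y := j + 1) (Set.mem_Ici.2 hj.le)
    (Set.mem_Ici.2 (by positivity)) (by linarith) hd
  rw [slope_def_field] at h1
  have h2 : (j + 1) - j = 1 := by ring
  rw [h2, div_one] at h1
  have h3 : sg = 399 / 1000 := rfl
  have h4 : (j + 1) ^ (sg - 1) = (sg * (j + 1) ^ (sg - 1)) * (1000 / 399) := by
    rw [h3]; ring
  rw [h4]
  exact mul_le_mul_of_nonneg_right h1 (by norm_num)

theorem sw (m : ℕ) : ∑ j ∈ Finset.range m, 1 / w (j + 1) ≤ ((m : ℝ) + 1) ^ sg * (1000 / 399) := by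
  have h : ∀ m : ℕ, ∑ j ∈ Finset.range m, 1 / w (j + 1) ≤
      (((m : ℝ) + 1) ^ sg - 1) * (1000 / 399) := by
    intro m
    induction m with
    | zero => simp
    | succ m ih =>
      rw [Finset.sum_range_succ]
      have h1 := step ((m : ℝ) + 1) (by positivity)
      have h2 : 1 / w (m + 1) = ((m : ℝ) + 1 + 1) ^ (sg - 1) := by
        unfold w
        push_cast
        rw [one_div, ← Real.rpow_neg (by positivity)]
        congr 1
        ring
      rw [h2]
      push_cast
      linarith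
  refine (h m).trans ?_
  have : (0 : ℝ) ≤ 1000 / 399 := by norm_num
  nlinarith

end A2

open A2 in
theorem a2 : S_A2 := by
  intro ε hε hε2
  refine ⟨24 / ε, by positivity, fun m X hm hX => ?_⟩
  have hm' : (1 : ℝ) ≤ m := by exact_mod_cast hm
  have hεm : 0 < ε * m := by positivity
  have hwm := w_pos m
  have term : ∀ n ∈ Finset.Ico (X + 1) m, 1 / ((n : ℝ) * w (m - n) * tr ε m n) ≤
      (4 / (ε * m)) * (1 / w (m - n)) := by
    intro n hn
    obtain ⟨h1, h2⟩ := Finset.mem_Ico.1 hn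
    have h1' : (X : ℝ) + 1 ≤ n := by exact_mod_cast h1
    have hn2 : ε * m / 2 ≤ n := by linarith
    have hn0 : (0 : ℝ) < n := by linarith
    have hw := w_pos (m - n)
    have ht : 1 / 2 ≤ tr ε m n := by
      unfold tr
      refine le_min (by norm_num) ?_
      rw [← Real.sqrt_eq_rpow]
      refine Real.le_sqrt_of_sq_le ?_
      rw [le_div_iff₀ hεm]
      linarith
    rw [one_div, one_div, ← div_eq_mul_inv, div_div, ← one_div]
    rw [div_le_div_iff₀ (by positivity) (by positivity)]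
    have h3 : ε * m / 2 * w (m - n) * (1 / 2) ≤ (n : ℝ) * w (m - n) * tr ε m n :=
      mul_le_mul (mul_le_mul_of_nonneg_right hn2 hw.le) ht (by norm_num) (by positivity)
    linarith
  refine (Finset.sum_le_sum term).trans ?_
  rw [← Finset.mul_sum]
  have h1 : ∑ n ∈ Finset.Ico (X + 1) m, 1 / w (m - n) ≤ ∑ j ∈ Finset.range m, 1 / w (j + 1) := by
    have e : ∑ n ∈ Finset.Ico 0 m, 1 / w (m - n) = ∑ j ∈ Finset.range m, 1 / w (j + 1) := by
      rw [Nat.Ico_zero_eq_range, ← Finset.sum_range_reflect]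
      refine Finset.sum_congr rfl fun j hj => ?_
      have := Finset.mem_range.1 hj
      congr 2
      omega
    rw [← e]
    refine Finset.sum_le_sum_of_subset_of_nonneg (Finset.Ico_subset_Ico_left (Nat.zero_le _))
      fun n _ _ => ?_
    have := w_pos (m - n)
    positivity
  have h2 := h1.trans (sw m)
  have h3 : 4 / (ε * m) * ∑ n ∈ Finset.Ico (X + 1) m, 1 / w (m - n) ≤
      4 / (ε * m) * (((m : ℝ) + 1) ^ sg * (1000 / 399)) :=
    mul_le_mul_of_nonneg_left h2 (by positivity)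
  refine h3.trans ?_
  have e : ((m : ℝ) + 1) ^ sg = ((m : ℝ) + 1) / w m := by
    unfold w
    rw [eq_div_iff (by positivity), ← Real.rpow_add (by positivity)]
    rw [show sg + (1 - sg) = 1 by ring, Real.rpow_one]
  rw [e]
  have h4 : 4 / (ε * m) * (((m : ℝ) + 1) / w m * (1000 / 399)) =
      (4 * (1000 / 399) * (((m : ℝ) + 1) / m) / ε) / w m := by
    field_simp
  rw [h4]
  refine div_le_div_of_nonneg_right ?_ hwm.le
  refine div_le_div_of_nonneg_right ?_ hε.le
  have h5 : ((m : ℝ) + 1) / m ≤ 2 := by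
    rw [div_le_iff₀ (by positivity)]
    linarith
  nlinarith

end Pool.Agent.H7.SZ
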