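import Pool.Agent.H7.SZ.Stm

set_option autoImplicit false

/-! # SZ-A3: the third auxiliary sum -/

namespace Pool.Agent.H7.SZ

open Metric Set Filter Topology MeasureTheory
open scoped ENNReal

namespace A3

/-- concavity of `x ↦ x ^ p` -/
theorem conc (p : ℝ) (hp0 : 0 ≤ p) (hp1 : p ≤ 1) (k : ℕ) :
    (k : ℝ) ^ p ≤ ((k : ℝ) + 1) ^ p * (1 - p / ((k : ℝ) + 1)) := by
  have hk : (0 : ℝ) ≤ k := Nat.cast_nonneg k
  have hk1 : (0 : ℝ) < (k : ℝ) + 1 := by linarith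
  have h1 : (k : ℝ) = ((k : ℝ) + 1) * (1 + -(1 / ((k : ℝ) + 1))) := by
    field_simp
    ring
  have h2 : (0 : ℝ) ≤ 1 + -(1 / ((k : ℝ) + 1)) := by
    have : 1 / ((k : ℝ) + 1) ≤ 1 := by
      rw [div_le_one hk1]
      linarith
    linarith
  have h3 : (1 + -(1 / ((k : ℝ) + 1))) ^ p ≤ 1 + p * -(1 / ((k : ℝ) + 1)) :=
    rpow_one_add_le_one_add_mul_self (by linarith) hp0 hp1
  calc (k : ℝ) ^ p = (((k : ℝ) + 1) * (1 + -(1 / ((k : ℝ) + 1)))) ^ p := by rw [← h1]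
    _ = ((k : ℝ) + 1) ^ p * (1 + -(1 / ((k : ℝ) + 1))) ^ p := Real.mul_rpow hk1.le h2
    _ ≤ ((k : ℝ) + 1) ^ p * (1 + p * -(1 / ((k : ℝ) + 1))) :=
        mul_le_mul_of_nonneg_left h3 (Real.rpow_nonneg hk1.le _)
    _ = _ := by ring

/-- convexity of `x ↦ x ^ (-b)` -/
theorem convx (b : ℝ) (hb0 : 0 < b) (hb1 : b ≤ 1) (k : ℕ) (hk : 1 ≤ k) :
    b * (1 / (((k : ℝ) + 1) * ((k : ℝ) + 1) ^ b)) ≤ 1 / (k : ℝ) ^ b - 1 / ((k : ℝ) + 1) ^ b := by
  have hk0 : (0 : ℝ) < k := by exact_mod_cast hk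
  have hk1 : (0 : ℝ) < (k : ℝ) + 1 := by linarith
  have hX : 0 < (k : ℝ) ^ b := Real.rpow_pos_of_pos hk0 _
  have hY : 0 < ((k : ℝ) + 1) ^ b := Real.rpow_pos_of_pos hk1 _
  have h1 := conc b hb0.le hb1 k
  set X := (k : ℝ) ^ b
  set Y := ((k : ℝ) + 1) ^ b
  set u := b / ((k : ℝ) + 1) with hu
  have hu0 : 0 < u := div_pos hb0 hk1
  have e1 : b * (1 / (((k : ℝ) + 1) * Y)) = u / Y := by
    rw [hu]
    field_simp
  rw [e1, div_sub_div _ _ hX.ne' hY.ne', div_le_div_iff₀ hY (mul_pos hX hY)]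
  -- u * (X * Y) ≤ (1 * Y - X * 1) * Y
  have h3 : u * X ≤ Y - X := by
    have h4 : X ≤ Y * (1 - u) := h1
    have h5 : u * X ≤ u * Y := by
      refine mul_le_mul_of_nonneg_left ?_ hu0.le
      nlinarith
    nlinarith
  nlinarith

end A3

theorem a3 : S_A3 := by
  obtain ⟨b, hb⟩ : ∃ b : ℝ, b = 1 - sg := ⟨_, rfl⟩
  have hbv : b = 601 / 1000 := by rw [hb]; unfold sg; norm_num
  have hb0 : 0 < b := by rw [hbv]; norm_num
  have hb1 : b ≤ 1 := by rw [hbv]; norm_num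
  refine ⟨14, by norm_num, fun m hm => ?_⟩
  have hm0 : (0 : ℝ) < m := by exact_mod_cast hm
  have hm1 : (1 : ℝ) ≤ m := by exact_mod_cast hm
  have hw : ∀ j : ℕ, w j = ((j : ℝ) + 1) ^ b := fun j => by unfold w; rw [hb]
  have hwpos : ∀ j : ℕ, 0 < w j := fun j => by rw [hw]; positivity
  have hmx1 : ∀ k, 1 ≤ mx m k := fun k => le_max_left _ _
  have hmxpos : ∀ k, 0 < mx m k := fun k => lt_of_lt_of_le one_pos (hmx1 k)
  set t : ℕ → ℝ := fun k => 1 / (((k : ℝ) + 1) * w (m + k + 1) * mx m k) with ht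
  have ht0 : ∀ k, 0 ≤ t k := fun k => by
    have h1 := hwpos (m + k + 1)
    have h2 := hmxpos k
    rw [ht]
    positivity
  obtain ⟨P, hP⟩ : ∃ P : ℝ, P = (m : ℝ) ^ (1 / 10 : ℝ) := ⟨_, rfl⟩
  have hP0 : 0 < P := by rw [hP]; positivity
  have hwm := hwpos m
  -- the first terms
  have hA : ∀ k, k < m → t k ≤
      10 / (w m * P) * (((k : ℝ) + 1) ^ (1 / 10 : ℝ) - (k : ℝ) ^ (1 / 10 : ℝ)) := by
    intro k hk
    have hk0 : (0 : ℝ) ≤ k := Nat.cast_nonneg k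
    have hk1 : (0 : ℝ) < (k : ℝ) + 1 := by linarith
    obtain ⟨Q, hQ⟩ : ∃ Q : ℝ, Q = ((k : ℝ) + 1) ^ (1 / 10 : ℝ) := ⟨_, rfl⟩
    have hQ0 : 0 < Q := by rw [hQ]; positivity
    have h1 := A3.conc (1 / 10) (by norm_num) (by norm_num) k
    rw [← hQ] at h1 ⊢
    have h2 : P / Q ≤ mx m k := by
      have h3 : P / Q = ((m : ℝ) / ((k : ℝ) + 1)) ^ (1 / 10 : ℝ) := by
        rw [hP, hQ, Real.div_rpow hm0.le hk1.le]
      rw [h3]
      exact le_max_right _ _
    have h4 : w m ≤ w (m + k + 1) := by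
      rw [hw, hw]
      refine Real.rpow_le_rpow (by linarith) ?_ hb0.le
      push_cast
      linarith
    have h5 : ((k : ℝ) + 1) * w m * (P / Q) ≤ ((k : ℝ) + 1) * w (m + k + 1) * mx m k :=
      mul_le_mul (mul_le_mul_of_nonneg_left h4 hk1.le) h2 (by positivity) (by
        have := hwpos (m + k + 1)
        positivity)
    have h6 : t k ≤ 1 / (((k : ℝ) + 1) * w m * (P / Q)) :=
      one_div_le_one_div_of_le (by positivity) h5
    have h7 : 1 / (((k : ℝ) + 1) * w m * (P / Q)) = 10 / (w m * P) * (Q * (1 / 10 / ((k : ℝ) + 1))) := by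
      field_simp
    rw [h7] at h6
    refine h6.trans (mul_le_mul_of_nonneg_left ?_ (by positivity))
    nlinarith
  -- the other terms
  have hB : ∀ k, m ≤ k → t k ≤ 2 * (1 / (k : ℝ) ^ b - 1 / ((k : ℝ) + 1) ^ b) := by
    intro k hk
    have hk0 : (0 : ℝ) ≤ k := Nat.cast_nonneg k
    have hk1 : (0 : ℝ) < (k : ℝ) + 1 := by linarith
    have hY : 0 < ((k : ℝ) + 1) ^ b := by positivity
    have h1 := A3.convx b hb0 hb1 k (le_trans hm hk)
    have h4 : ((k : ℝ) + 1) ^ b ≤ w (m + k + 1) := by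
      rw [hw]
      refine Real.rpow_le_rpow (by linarith) ?_ hb0.le
      push_cast
      linarith
    have h5 : ((k : ℝ) + 1) * ((k : ℝ) + 1) ^ b ≤ ((k : ℝ) + 1) * w (m + k + 1) * mx m k := by
      calc ((k : ℝ) + 1) * ((k : ℝ) + 1) ^ b = ((k : ℝ) + 1) * ((k : ℝ) + 1) ^ b * 1 := by ring
        _ ≤ _ := mul_le_mul (mul_le_mul_of_nonneg_left h4 hk1.le) (hmx1 k) (by norm_num) (by
          have := hwpos (m + k + 1)
          positivity)
    have h6 : t k ≤ 1 / (((k : ℝ) + 1) * ((k : ℝ) + 1) ^ b) :=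
      one_div_le_one_div_of_le (by positivity) h5
    have h7 : 0 < 1 / (((k : ℝ) + 1) * ((k : ℝ) + 1) ^ b) := by positivity
    rw [hbv] at h1 h6 h7 ⊢
    linarith
  have hS1 : ∀ N, N ≤ m → ∑ k ∈ Finset.range N, t k ≤ 10 / (w m * P) * (N : ℝ) ^ (1 / 10 : ℝ) := by
    intro N
    induction N with
    | zero => intro _; simp
    | succ N ih =>
      intro hN
      rw [Finset.sum_range_succ]
      have h1 := ih (by omega)
      have h2 := hA N (by omega)
      push_cast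
      rw [mul_sub] at h2
      linarith
  have hS2 : ∀ j : ℕ, ∑ k ∈ Finset.range (m + j), t k ≤
      10 / w m + 2 * (1 / (m : ℝ) ^ b - 1 / ((m : ℝ) + j) ^ b) := by
    intro j
    induction j with
    | zero =>
      have h1 := hS1 m le_rfl
      rw [← hP] at h1
      have h2 : 10 / (w m * P) * P = 10 / w m := by field_simp
      rw [h2] at h1
      simpa using h1
    | succ j ih =>
      rw [← add_assoc, Finset.sum_range_succ]
      have h2 := hB (m + j) (by omega)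
      push_cast at h2 ⊢
      rw [← add_assoc]
      linarith
  have hm2 : 1 / (m : ℝ) ^ b ≤ 2 / w m := by
    rw [hw, div_le_div_iff₀ (by positivity) (by positivity), one_mul]
    calc ((m : ℝ) + 1) ^ b ≤ (2 * (m : ℝ)) ^ b :=
          Real.rpow_le_rpow (by linarith) (by linarith) hb0.le
      _ = 2 ^ b * (m : ℝ) ^ b := Real.mul_rpow (by norm_num) hm0.le
      _ ≤ 2 * (m : ℝ) ^ b := by
          refine mul_le_mul_of_nonneg_right ?_ (by positivity)
          calc (2 : ℝ) ^ b ≤ 2 ^ (1 : ℝ) :=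
                Real.rpow_le_rpow_of_exponent_le (by norm_num) hb1
            _ = 2 := Real.rpow_one _
  refine ENNReal.tsum_le_of_sum_range_le fun N => ?_
  rw [← ENNReal.ofReal_sum_of_nonneg fun k _ => ht0 k]
  refine ENNReal.ofReal_le_ofReal ?_
  have h1 : ∑ k ∈ Finset.range N, t k ≤ ∑ k ∈ Finset.range (m + N), t k :=
    Finset.sum_le_sum_of_subset_of_nonneg (Finset.range_mono (by omega)) fun k _ _ => ht0 k
  have h2 := hS2 N
  have h3 : 0 < 1 / ((m : ℝ) + N) ^ b := by positivity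
  have h4 : 10 / w m + 2 * (2 / w m) = 14 / w m := by ring
  linarith

end Pool.Agent.H7.SZ
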