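import Pool.Agent.H7.SZ.Stm

/-! # SZ-ABS (helper63): the quadratic inequality in one degree -/

set_option autoImplicit false

namespace Pool.Agent.H7.SZ

open Metric Set Filter Topology MeasureTheory
open scoped ENNReal

namespace ABSx

lemma fin_of_enn {f : ℕ → ℝ} (hf : ∀ k, 0 ≤ f k) {c : ℝ} (hc : 0 ≤ c)
    (h : ∑' k, ENNReal.ofReal (f k) ≤ ENNReal.ofReal c) (s : Finset ℕ) : ∑ k ∈ s, f k ≤ c := by
  rw [← ENNReal.ofReal_le_ofReal_iff hc, ENNReal.ofReal_sum_of_nonneg (fun k _ => hf k)]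
  exact (ENNReal.sum_le_tsum s).trans h

lemma enn_of_fin {f : ℕ → ℝ} (hf : ∀ k, 0 ≤ f k) {c : ℝ}
    (h : ∀ s : Finset ℕ, ∑ k ∈ s, f k ≤ c) : ∑' k, ENNReal.ofReal (f k) ≤ ENNReal.ofReal c := by
  have hs : Summable f := summable_of_sum_le hf h
  rw [← ENNReal.ofReal_tsum_of_nonneg hf hs]
  exact ENNReal.ofReal_le_ofReal (Real.tsum_le_of_sum_le hf h)

/-- Cauchy-Schwarz for finite sums with bounds -/
lemma cs {s : Finset ℕ} {r u v : ℕ → ℝ} {U V : ℝ} (hu : ∀ k ∈ s, 0 ≤ u k)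
    (hv : ∀ k ∈ s, 0 ≤ v k) (h : ∀ k ∈ s, r k ^ 2 = u k * v k) (hU : ∑ k ∈ s, u k ≤ U)
    (hV : ∑ k ∈ s, v k ≤ V) : ∑ k ∈ s, r k ≤ √(U * V) := by
  have h1 : (∑ k ∈ s, r k) ^ 2 ≤ (∑ k ∈ s, u k) * ∑ k ∈ s, v k :=
    Finset.sum_sq_le_sum_mul_sum_of_sq_eq_mul s hu hv h
  have h2 : (∑ k ∈ s, u k) * ∑ k ∈ s, v k ≤ U * V :=
    mul_le_mul hU hV (Finset.sum_nonneg hv) ((Finset.sum_nonneg hu).trans hU)
  exact Real.le_sqrt_of_sq_le (h1.trans h2)

lemma w_pos (j : ℕ) : 0 < w j := by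
  unfold w
  positivity

lemma mx_ge (m k : ℕ) : 1 ≤ mx m k := le_max_left _ _

lemma tr_nonneg {ε : ℝ} (hε : 0 < ε) (m n : ℕ) : 0 ≤ tr ε m n := by
  unfold tr
  exact le_min zero_le_one (by positivity)

lemma tr_le (ε : ℝ) (m n : ℕ) : tr ε m n ≤ 1 := min_le_left _ _

/-- the final quadratic inequality -/
lemma quad {θ C C₁ κ₁ l y q : ℝ} (hθ : θ < 1) :
    θ * q ^ 2 + 2 * C * y * q + y ^ 2 * (l / Real.pi ^ 2 + C) + (1 - θ) / 2 * q ^ 2 ≤
      ((l - (2 * Real.pi * (C + 1) + C₁)) * y ^ 2 / Real.pi ^ 2 - κ₁ * y * q) + q ^ 2 +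
        (C + (2 * Real.pi * (C + 1) + C₁) / Real.pi ^ 2 +
          (2 * C + κ₁) ^ 2 / (4 * ((1 - θ) / 2))) * y ^ 2 := by
  have hδ : 0 < (1 - θ) / 2 := by linarith
  obtain ⟨δ, hδd⟩ : ∃ δ : ℝ, δ = (1 - θ) / 2 := ⟨_, rfl⟩
  rw [← hδd] at hδ ⊢
  have hθ' : θ = 1 - 2 * δ := by rw [hδd]; ring
  have h1 : (2 * C + κ₁) * y * q ≤ δ * q ^ 2 + (2 * C + κ₁) ^ 2 / (4 * δ) * y ^ 2 := by
    have h2 : δ * q ^ 2 + (2 * C + κ₁) ^ 2 / (4 * δ) * y ^ 2 - (2 * C + κ₁) * y * q =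
        (2 * δ * q - (2 * C + κ₁) * y) ^ 2 / (4 * δ) := by
      field_simp
      ring
    have h3 : 0 ≤ (2 * δ * q - (2 * C + κ₁) * y) ^ 2 / (4 * δ) := by positivity
    linarith
  rw [hθ']
  have h4 : ((l - (2 * Real.pi * (C + 1) + C₁)) * y ^ 2 / Real.pi ^ 2 - κ₁ * y * q) + q ^ 2 +
        (C + (2 * Real.pi * (C + 1) + C₁) / Real.pi ^ 2 + (2 * C + κ₁) ^ 2 / (4 * δ)) * y ^ 2 -
      ((1 - 2 * δ) * q ^ 2 + 2 * C * y * q + y ^ 2 * (l / Real.pi ^ 2 + C) + δ * q ^ 2) =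
      δ * q ^ 2 + (2 * C + κ₁) ^ 2 / (4 * δ) * y ^ 2 - (2 * C + κ₁) * y * q := by
    ring
  linarith

end ABSx

open ABSx in
theorem abs : S_ABS := by
  intro hA1 hA2 hA3 ε θ C hε hε1 hθ0 hθ1 hC
  obtain ⟨C₁, hC₁, hA1⟩ := hA1 ε hε hε1
  obtain ⟨C₂, hC₂, hA2⟩ := hA2 ε hε hε1
  obtain ⟨C₃, hC₃, hA3⟩ := hA3
  have hpi := Real.pi_pos
  have hpi3 := Real.pi_gt_three
  obtain ⟨κ₁, hκ₁⟩ : ∃ κ₁ : ℝ, κ₁ = √(C₃ * C) + √C₂ := ⟨_, rfl⟩
  have hκ₁0 : 0 ≤ κ₁ := by rw [hκ₁]; positivity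
  have hδ0 : 0 < (1 - θ) / 2 := by linarith
  refine ⟨(1 - θ) / 2, C + (2 * Real.pi * (C + 1) + C₁) / Real.pi ^ 2 +
    (2 * C + κ₁) ^ 2 / (4 * ((1 - θ) / 2)), ⌈Real.exp (Real.pi * (C + 1))⌉₊ + 2, hδ0,
    by positivity, ?_⟩
  intro m hm t g y b E' hE' H1 H2 H3 H4 hbs hB hgs hrel
  have hm2 : 2 ≤ m := by omega
  have hm0 : (0 : ℝ) < m := by exact_mod_cast (by omega : 0 < m)
  obtain ⟨W, hW⟩ : ∃ W : ℝ, W = w m := ⟨_, rfl⟩
  have hW0 : 0 < W := by rw [hW]; exact w_pos m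
  obtain ⟨l, hl⟩ : ∃ l : ℝ, l = Real.log m := ⟨_, rfl⟩
  have hl0 : 0 < l := by
    rw [hl]; exact Real.log_pos (by exact_mod_cast (by omega : 1 < m))
  have hlC : Real.pi * (C + 1) ≤ l := by
    rw [hl, Real.le_log_iff_exp_le hm0]
    refine (Nat.le_ceil _).trans ?_
    exact_mod_cast (by omega : ⌈Real.exp (Real.pi * (C + 1))⌉₊ ≤ m)
  rw [← hW, ← hl] at H3
  rw [← hW] at H4
  rw [← hl] at hB
  have hE0 : 0 ≤ E' := by
    rw [hE']
    refine Finset.sum_nonneg fun n _ => ?_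
    have := w_pos (m - n)
    have := tr_nonneg hε m n
    positivity
  obtain ⟨q, hq⟩ : ∃ q : ℝ, q = √(E' / W) := ⟨_, rfl⟩
  have hq0 : 0 ≤ q := by rw [hq]; exact Real.sqrt_nonneg _
  have hEq : E' = q ^ 2 * W := by
    rw [hq, Real.sq_sqrt (by positivity)]
    field_simp
  -- the finite sums
  have wp : ∀ k, 0 < w (m + k + 1) := fun k => w_pos _
  have F1 := fin_of_enn (fun k => by have := wp k; positivity) (by positivity) H1
  have F2 := fin_of_enn (fun k => by have := wp k; have := mx_ge m k; positivity) (by positivity) H2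
  have F3 := fin_of_enn (fun k => by have := wp k; positivity) (by positivity) H3
  have F4 := fin_of_enn (fun k => by have := wp k; have := mx_ge m k; positivity) (by positivity) H4
  have F5 := fin_of_enn (f := fun k : ℕ => 1 / (((k : ℝ) + 1) * w (m + k + 1) * mx m k))
    (fun k => by have := wp k; have := mx_ge m k; positivity)
    (show 0 ≤ C₃ / W by positivity) (by rw [hW]; exact hA3 m (by omega))
  -- the sum of the `g k`
  have hG : ‖∑' k, g k‖ ≤ √(C₃ * C) * q := by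
    have h1 : ∀ s : Finset ℕ, ∑ k ∈ s, ‖g k‖ ≤ √(C₃ * C) * q := by
      intro s
      have h2 : ∑ k ∈ s, ‖g k‖ ≤ √((C₃ / W) * (C * E')) := by
        refine cs (u := fun k : ℕ => 1 / (((k : ℝ) + 1) * w (m + k + 1) * mx m k))
          (v := fun k : ℕ => ((k : ℝ) + 1) * w (m + k + 1) * mx m k * ‖g k‖ ^ 2)
          (fun k _ => ?_) (fun k _ => ?_) (fun k _ => ?_) (F5 s) (F2 s)
        · have := wp k; have := mx_ge m k; positivity
        · have := wp k; have := mx_ge m k; positivity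
        · have h3 := wp k
          have h4 := mx_ge m k
          have h5 : ((k : ℝ) + 1) * w (m + k + 1) * mx m k ≠ 0 := by positivity
          rw [one_div, ← mul_assoc, inv_mul_cancel₀ h5, one_mul]
      refine h2.trans (le_of_eq ?_)
      rw [hEq, show (C₃ / W) * (C * (q ^ 2 * W)) = (C₃ * C) * q ^ 2 by field_simp,
        Real.sqrt_mul (by positivity), Real.sqrt_sq hq0]
    have h2 : Summable fun k => ‖g k‖ := summable_of_sum_le (fun k => norm_nonneg _) h1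
    exact (norm_tsum_le_tsum_norm h2).trans (Real.tsum_le_of_sum_le (fun k => norm_nonneg _) h1)
  -- the cut
  obtain ⟨X, hX⟩ : ∃ X : ℕ, X = ⌊ε * m / 2⌋₊ := ⟨_, rfl⟩
  have hX1 : (X : ℝ) ≤ ε * m / 2 := by rw [hX]; exact Nat.floor_le (by positivity)
  have hX2 : ε * m / 2 < (X : ℝ) + 1 := by rw [hX]; exact Nat.lt_floor_add_one _
  have hXm : X + 1 ≤ m := by
    have h1 : (X : ℝ) < m := by nlinarith
    exact_mod_cast h1
  have hεm : 0 < ε * m := by positivity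
  -- the terms above the cut
  have hT : ‖∑ n ∈ Finset.Ico (X + 1) m, t n‖ ≤ √C₂ * q := by
    refine (norm_sum_le _ _).trans ?_
    have h2 : ∑ n ∈ Finset.Ico (X + 1) m, ‖t n‖ ≤ √((C₂ / W) * E') := by
      refine cs (u := fun n : ℕ => 1 / ((n : ℝ) * w (m - n) * tr ε m n))
        (v := fun n : ℕ => (n : ℝ) * w (m - n) * tr ε m n * ‖t n‖ ^ 2)
        (fun n _ => ?_) (fun n _ => ?_) (fun n hn => ?_) ?_ ?_
      · have := w_pos (m - n); have := tr_nonneg hε m n; positivity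
      · have := w_pos (m - n); have := tr_nonneg hε m n; positivity
      · rw [Finset.mem_Ico] at hn
        have h3 := w_pos (m - n)
        have h4 : (0 : ℝ) < n := by exact_mod_cast (by omega : 0 < n)
        have h5 : 0 < tr ε m n := by
          unfold tr
          exact lt_min one_pos (by positivity)
        have h6 : (n : ℝ) * w (m - n) * tr ε m n ≠ 0 := by positivity
        rw [one_div, ← mul_assoc, inv_mul_cancel₀ h6, one_mul]
      · rw [hW]; exact hA2 m X (by omega) hX2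
      · rw [hE']
        refine Finset.sum_le_sum_of_subset_of_nonneg ?_ (fun n _ _ => ?_)
        · intro n hn
          rw [Finset.mem_Ico] at hn
          exact Finset.mem_range.2 hn.2
        · have := w_pos (m - n); have := tr_nonneg hε m n; positivity
    refine h2.trans (le_of_eq ?_)
    rw [hEq, show (C₂ / W) * (q ^ 2 * W) = C₂ * q ^ 2 by field_simp,
      Real.sqrt_mul (by positivity), Real.sqrt_sq hq0]
  -- the terms below the cut
  obtain ⟨V, hV⟩ : ∃ V : ℂ, V = ∑ n ∈ Finset.range (X + 1), t n := ⟨_, rfl⟩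
  obtain ⟨Q, hQ⟩ : ∃ Q : ℝ, Q = ∑ n ∈ Finset.range (X + 1),
    ((n : ℝ) + 1 / 2) * w (m - n) * (1 - tr ε m n) * ‖t n‖ ^ 2 := ⟨_, rfl⟩
  have hfac : ∀ n ∈ Finset.range (X + 1), 1 / 4 ≤ 1 - tr ε m n := by
    intro n hn
    rw [Finset.mem_range] at hn
    have h1 : (n : ℝ) ≤ X := by exact_mod_cast (by omega : n ≤ X)
    have h2 : (n : ℝ) / (ε * m) ≤ 1 / 2 := by
      rw [div_le_iff₀ hεm]; linarith
    have h3 : tr ε m n ≤ ((n : ℝ) / (ε * m)) ^ (1 / 2 : ℝ) := min_le_right _ _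
    have h4 : ((n : ℝ) / (ε * m)) ^ (1 / 2 : ℝ) ≤ 3 / 4 := by
      rw [← Real.sqrt_eq_rpow, Real.sqrt_le_iff]
      exact ⟨by norm_num, by linarith⟩
    linarith
  have hVQ : W * ‖V‖ ^ 2 ≤ (l + C₁) * Q := by
    have h1 : ‖V‖ ≤ √(((l + C₁) / W) * Q) := by
      rw [hV]
      refine (norm_sum_le _ _).trans ?_
      refine cs (u := fun n : ℕ => 1 / (((n : ℝ) + 1 / 2) * w (m - n) * (1 - tr ε m n)))
        (v := fun n : ℕ => ((n : ℝ) + 1 / 2) * w (m - n) * (1 - tr ε m n) * ‖t n‖ ^ 2)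
        (fun n hn => ?_) (fun n hn => ?_) (fun n hn => ?_) ?_ (le_of_eq hQ.symm)
      · have := w_pos (m - n); have := hfac n hn; positivity
      · have := w_pos (m - n); have := hfac n hn; positivity
      · have h3 := w_pos (m - n)
        have h4 := hfac n hn
        have h6 : ((n : ℝ) + 1 / 2) * w (m - n) * (1 - tr ε m n) ≠ 0 := by positivity
        rw [one_div, ← mul_assoc, inv_mul_cancel₀ h6, one_mul]
      · rw [hW, hl]; exact hA1 m X hm2 hX1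
    have hQ0 : 0 ≤ Q := by
      rw [hQ]
      refine Finset.sum_nonneg fun n hn => ?_
      have := w_pos (m - n); have := hfac n hn; positivity
    have h2 : ‖V‖ ^ 2 ≤ ((l + C₁) / W) * Q := by
      have h3 := pow_le_pow_left₀ (norm_nonneg V) h1 2
      rwa [Real.sq_sqrt (by positivity)] at h3
    calc W * ‖V‖ ^ 2 ≤ W * (((l + C₁) / W) * Q) := mul_le_mul_of_nonneg_left h2 hW0.le
      _ = (l + C₁) * Q := by field_simp
  -- the relation
  have hVlow : (l / Real.pi - C - 1) * ‖y‖ - κ₁ * q ≤ ‖V‖ := by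
    have hbc : Summable fun k => ((b k : ℝ) : ℂ) := Complex.hasSum_ofReal.2 hbs.hasSum |>.summable
    have h1 : ∑' k : ℕ, (g k + (b k : ℂ) * y) = ∑' k, g k + ((∑' k, b k : ℝ) : ℂ) * y := by
      rw [(hgs.hasSum.add ((hbc.mul_right y).hasSum)).tsum_eq, tsum_mul_right, Complex.ofReal_tsum]
    have h2 : ∑ n ∈ Finset.range m, t n = V + ∑ n ∈ Finset.Ico (X + 1) m, t n := by
      rw [hV, Finset.sum_range_add_sum_Ico _ hXm]
    rw [h1, h2] at hrel
    have h3 : (1 + ((∑' k, b k : ℝ) : ℂ)) * y =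
        -V - ∑' k, g k - ∑ n ∈ Finset.Ico (X + 1) m, t n := by
      linear_combination hrel
    have h4 : (l / Real.pi - C - 1) * ‖y‖ ≤ ‖(1 + ((∑' k, b k : ℝ) : ℂ)) * y‖ := by
      rw [norm_mul]
      refine mul_le_mul_of_nonneg_right ?_ (norm_nonneg _)
      have h5 : ‖((∑' k, b k : ℝ) : ℂ)‖ ≤ ‖(1 + ((∑' k, b k : ℝ) : ℂ))‖ + 1 := by
        have h6 := norm_sub_le (1 + ((∑' k, b k : ℝ) : ℂ)) 1
        rw [add_sub_cancel_left, norm_one] at h6
        exact h6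
      rw [Complex.norm_real, Real.norm_eq_abs] at h5
      linarith
    have h7 : ‖(1 + ((∑' k, b k : ℝ) : ℂ)) * y‖ ≤
        ‖V‖ + ‖∑' k, g k‖ + ‖∑ n ∈ Finset.Ico (X + 1) m, t n‖ := by
      rw [h3]
      calc ‖-V - ∑' k, g k - ∑ n ∈ Finset.Ico (X + 1) m, t n‖ ≤
          ‖-V - ∑' k, g k‖ + ‖∑ n ∈ Finset.Ico (X + 1) m, t n‖ := norm_sub_le _ _
        _ ≤ ‖-V‖ + ‖∑' k, g k‖ + ‖∑ n ∈ Finset.Ico (X + 1) m, t n‖ := by
            gcongr
            exact norm_sub_le _ _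
        _ = _ := by rw [norm_neg]
    have h8 : κ₁ * q = √(C₃ * C) * q + √C₂ * q := by rw [hκ₁]; ring
    linarith
  -- lower bound of `Q`
  obtain ⟨Y, hYd⟩ : ∃ Y : ℝ, Y = ‖y‖ := ⟨_, rfl⟩
  have hY0 : 0 ≤ Y := by rw [hYd]; exact norm_nonneg _
  rw [← hYd] at hVlow
  have hQlow : W * ((l - (2 * Real.pi * (C + 1) + C₁)) * Y ^ 2 / Real.pi ^ 2 - κ₁ * Y * q) ≤ Q := by
    obtain ⟨A, hA⟩ : ∃ A : ℝ, A = (l / Real.pi - C - 1) * Y := ⟨_, rfl⟩
    have hlπ : C + 1 ≤ l / Real.pi := by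
      rw [le_div_iff₀ hpi]; linarith
    have hA0 : 0 ≤ A := by rw [hA]; exact mul_nonneg (by linarith) hY0
    have hBq0 : 0 ≤ κ₁ * q := by positivity
    rw [← hA] at hVlow
    have hV2 : A ^ 2 - 2 * A * (κ₁ * q) ≤ ‖V‖ ^ 2 := by
      rcases le_total A (κ₁ * q) with h | h
      · have h1 : A ^ 2 - 2 * A * (κ₁ * q) ≤ 0 := by nlinarith
        exact h1.trans (sq_nonneg _)
      · have h1 : (A - κ₁ * q) ^ 2 ≤ ‖V‖ ^ 2 := pow_le_pow_left₀ (by linarith) hVlow 2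
        nlinarith
    have hlC1 : 0 < l + C₁ := by linarith
    have hA2' : (l - (2 * Real.pi * (C + 1) + C₁)) * Y ^ 2 / Real.pi ^ 2 * (l + C₁) ≤ A ^ 2 := by
      have h1 : A ^ 2 = (l - Real.pi * (C + 1)) ^ 2 * Y ^ 2 / Real.pi ^ 2 := by
        rw [hA]
        field_simp
        ring
      rw [h1]
      have h2 : (l - (2 * Real.pi * (C + 1) + C₁)) * (l + C₁) ≤ (l - Real.pi * (C + 1)) ^ 2 := by
        nlinarith [sq_nonneg (Real.pi * (C + 1)), sq_nonneg C₁, mul_nonneg (mul_nonneg hpi.le (by linarith : (0 : ℝ) ≤ C + 1)) hC₁]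
      have h3 : 0 ≤ Y ^ 2 / Real.pi ^ 2 := by positivity
      calc (l - (2 * Real.pi * (C + 1) + C₁)) * Y ^ 2 / Real.pi ^ 2 * (l + C₁) =
          ((l - (2 * Real.pi * (C + 1) + C₁)) * (l + C₁)) * (Y ^ 2 / Real.pi ^ 2) := by ring
        _ ≤ (l - Real.pi * (C + 1)) ^ 2 * (Y ^ 2 / Real.pi ^ 2) := mul_le_mul_of_nonneg_right h2 h3
        _ = _ := by ring
    have h2A : 2 * A ≤ (l + C₁) * Y := by
      rw [hA]
      have h1 : 2 * (l / Real.pi - C - 1) ≤ l + C₁ := by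
        have h2 : l / Real.pi ≤ l / 2 := div_le_div_of_nonneg_left hl0.le two_pos (by linarith)
        linarith
      calc 2 * ((l / Real.pi - C - 1) * Y) = (2 * (l / Real.pi - C - 1)) * Y := by ring
        _ ≤ _ := mul_le_mul_of_nonneg_right h1 hY0
    have h3 : ((l - (2 * Real.pi * (C + 1) + C₁)) * Y ^ 2 / Real.pi ^ 2 - κ₁ * Y * q) * (l + C₁) ≤
        ‖V‖ ^ 2 := by
      refine le_trans ?_ hV2
      have h4 : 2 * A * (κ₁ * q) ≤ (l + C₁) * Y * (κ₁ * q) := mul_le_mul_of_nonneg_right h2A hBq0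
      calc ((l - (2 * Real.pi * (C + 1) + C₁)) * Y ^ 2 / Real.pi ^ 2 - κ₁ * Y * q) * (l + C₁) =
          (l - (2 * Real.pi * (C + 1) + C₁)) * Y ^ 2 / Real.pi ^ 2 * (l + C₁) -
            (l + C₁) * Y * (κ₁ * q) := by ring
        _ ≤ A ^ 2 - 2 * A * (κ₁ * q) := by linarith
    have h5 : (W * ((l - (2 * Real.pi * (C + 1) + C₁)) * Y ^ 2 / Real.pi ^ 2 - κ₁ * Y * q)) *
        (l + C₁) ≤ Q * (l + C₁) := by
      calc _ = W * (((l - (2 * Real.pi * (C + 1) + C₁)) * Y ^ 2 / Real.pi ^ 2 - κ₁ * Y * q) *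
            (l + C₁)) := by ring
        _ ≤ W * ‖V‖ ^ 2 := mul_le_mul_of_nonneg_left h3 hW0.le
        _ ≤ (l + C₁) * Q := hVQ
        _ = _ := by ring
    exact le_of_mul_le_mul_right h5 hlC1
  -- (3)
  have hS : Q + E' ≤ ∑ n ∈ Finset.range m, ((n : ℝ) + 1 / 2) * w (m - n) * ‖t n‖ ^ 2 := by
    rw [hQ, hE', ← Finset.sum_range_add_sum_Ico _ hXm,
      ← Finset.sum_range_add_sum_Ico (fun n : ℕ => ((n : ℝ) + 1 / 2) * w (m - n) * ‖t n‖ ^ 2) hXm,
      ← add_assoc, ← Finset.sum_add_distrib]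
    refine add_le_add (Finset.sum_le_sum fun n hn => ?_) (Finset.sum_le_sum fun n _ => ?_)
    · have h1 := w_pos (m - n)
      have h2 := tr_nonneg hε m n
      have h4 : ((n : ℝ) + 1 / 2) * (1 - tr ε m n) + n * tr ε m n ≤ (n : ℝ) + 1 / 2 := by
        have h5 : ((n : ℝ) + 1 / 2) * (1 - tr ε m n) + n * tr ε m n =
          (n : ℝ) + 1 / 2 - tr ε m n / 2 := by ring
        linarith
      calc ((n : ℝ) + 1 / 2) * w (m - n) * (1 - tr ε m n) * ‖t n‖ ^ 2 +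
            (n : ℝ) * w (m - n) * tr ε m n * ‖t n‖ ^ 2 =
          (((n : ℝ) + 1 / 2) * (1 - tr ε m n) + n * tr ε m n) * (w (m - n) * ‖t n‖ ^ 2) := by ring
        _ ≤ ((n : ℝ) + 1 / 2) * (w (m - n) * ‖t n‖ ^ 2) :=
            mul_le_mul_of_nonneg_right h4 (by positivity)
        _ = _ := by ring
    · have h1 := w_pos (m - n)
      have h2 := tr_le ε m n
      have h4 : (n : ℝ) * tr ε m n ≤ (n : ℝ) + 1 / 2 := by
        have : (0 : ℝ) ≤ n := Nat.cast_nonneg n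
        nlinarith
      calc (n : ℝ) * w (m - n) * tr ε m n * ‖t n‖ ^ 2 =
          ((n : ℝ) * tr ε m n) * (w (m - n) * ‖t n‖ ^ 2) := by ring
        _ ≤ ((n : ℝ) + 1 / 2) * (w (m - n) * ‖t n‖ ^ 2) :=
            mul_le_mul_of_nonneg_right h4 (by positivity)
        _ = _ := by ring
  -- (4)
  have hTot : ∀ s : Finset ℕ, ∑ k ∈ s, (((k : ℝ) + 1 / 2) * w (m + k + 1) *
      ‖g k + (b k : ℂ) * y‖ ^ 2) ≤ θ * E' + 2 * Y * (C * (q * W)) +
        Y ^ 2 * (W * (l / Real.pi ^ 2 + C)) := by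
    intro s
    have h1 : ∑ k ∈ s, (((k : ℝ) + 1) * w (m + k + 1) * (‖g k‖ * |b k|)) ≤ C * (q * W) := by
      have h2 : ∑ k ∈ s, (((k : ℝ) + 1) * w (m + k + 1) * (‖g k‖ * |b k|)) ≤
          √((C * E') * (C * W)) := by
        refine cs (u := fun k : ℕ => ((k : ℝ) + 1) * w (m + k + 1) * mx m k * ‖g k‖ ^ 2)
          (v := fun k : ℕ => ((k : ℝ) + 1) * w (m + k + 1) * b k ^ 2 / mx m k)
          (fun k _ => ?_) (fun k _ => ?_) (fun k _ => ?_) (F2 s) (F4 s)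
        · have := wp k; have := mx_ge m k; positivity
        · have := wp k; have := mx_ge m k; positivity
        · have h3 := mx_ge m k
          have h4 : mx m k ≠ 0 := by positivity
          have h5 : |b k| ^ 2 = b k ^ 2 := sq_abs _
          rw [mul_pow, mul_pow ‖g k‖, h5]
          field_simp
      refine h2.trans (le_of_eq ?_)
      rw [hEq, show (C * (q ^ 2 * W)) * (C * W) = (C * (q * W)) ^ 2 by ring,
        Real.sqrt_sq (by positivity)]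
    have h6 : ∀ k : ℕ, ((k : ℝ) + 1 / 2) * w (m + k + 1) * ‖g k + (b k : ℂ) * y‖ ^ 2 ≤
        ((k : ℝ) + 1) * w (m + k + 1) * ‖g k‖ ^ 2 +
          2 * Y * (((k : ℝ) + 1) * w (m + k + 1) * (‖g k‖ * |b k|)) +
          Y ^ 2 * (((k : ℝ) + 1 / 2) * w (m + k + 1) * b k ^ 2) := by
      intro k
      have h7 : ‖g k + (b k : ℂ) * y‖ ≤ ‖g k‖ + |b k| * Y := by
        refine (norm_add_le _ _).trans ?_
        rw [norm_mul, Complex.norm_real, Real.norm_eq_abs, hYd]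
      have h8 := pow_le_pow_left₀ (norm_nonneg _) h7 2
      have h9 := wp k
      have h10 : ((k : ℝ) + 1 / 2) * w (m + k + 1) ≤ ((k : ℝ) + 1) * w (m + k + 1) := by
        apply mul_le_mul_of_nonneg_right _ h9.le
        linarith
      have h11 : |b k| ^ 2 = b k ^ 2 := sq_abs _
      calc ((k : ℝ) + 1 / 2) * w (m + k + 1) * ‖g k + (b k : ℂ) * y‖ ^ 2 ≤
          ((k : ℝ) + 1 / 2) * w (m + k + 1) * (‖g k‖ + |b k| * Y) ^ 2 :=
            mul_le_mul_of_nonneg_left h8 (by positivity)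
        _ = ((k : ℝ) + 1 / 2) * w (m + k + 1) * (‖g k‖ ^ 2 + 2 * Y * (‖g k‖ * |b k|)) +
            Y ^ 2 * (((k : ℝ) + 1 / 2) * w (m + k + 1) * b k ^ 2) := by rw [← h11]; ring
        _ ≤ ((k : ℝ) + 1) * w (m + k + 1) * (‖g k‖ ^ 2 + 2 * Y * (‖g k‖ * |b k|)) +
            Y ^ 2 * (((k : ℝ) + 1 / 2) * w (m + k + 1) * b k ^ 2) := by
              gcongr
        _ = _ := by ring
    calc ∑ k ∈ s, (((k : ℝ) + 1 / 2) * w (m + k + 1) * ‖g k + (b k : ℂ) * y‖ ^ 2) ≤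
        ∑ k ∈ s, (((k : ℝ) + 1) * w (m + k + 1) * ‖g k‖ ^ 2 +
          2 * Y * (((k : ℝ) + 1) * w (m + k + 1) * (‖g k‖ * |b k|)) +
          Y ^ 2 * (((k : ℝ) + 1 / 2) * w (m + k + 1) * b k ^ 2)) := Finset.sum_le_sum fun k _ => h6 k
      _ = ∑ k ∈ s, (((k : ℝ) + 1) * w (m + k + 1) * ‖g k‖ ^ 2) +
          2 * Y * ∑ k ∈ s, (((k : ℝ) + 1) * w (m + k + 1) * (‖g k‖ * |b k|)) +
          Y ^ 2 * ∑ k ∈ s, (((k : ℝ) + 1 / 2) * w (m + k + 1) * b k ^ 2) := by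
            rw [Finset.sum_add_distrib, Finset.sum_add_distrib, Finset.mul_sum, Finset.mul_sum]
      _ ≤ _ := by
          have a1 := F1 s
          have a3 := F3 s
          have a4 : 2 * Y * ∑ k ∈ s, (((k : ℝ) + 1) * w (m + k + 1) * (‖g k‖ * |b k|)) ≤
            2 * Y * (C * (q * W)) := mul_le_mul_of_nonneg_left h1 (by positivity)
          have a5 : Y ^ 2 * ∑ k ∈ s, (((k : ℝ) + 1 / 2) * w (m + k + 1) * b k ^ 2) ≤
            Y ^ 2 * (W * (l / Real.pi ^ 2 + C)) := mul_le_mul_of_nonneg_left a3 (by positivity)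
          linarith
  have hfin := enn_of_fin (fun k => by have := wp k; positivity) hTot
  refine (add_le_add_left hfin _).trans ?_
  rw [← ENNReal.ofReal_add (by positivity) (by positivity)]
  refine ENNReal.ofReal_le_ofReal ?_
  rw [← hW, ← hYd]
  have hq2 := quad (θ := θ) (C := C) (C₁ := C₁) (κ₁ := κ₁) (l := l) (y := Y) (q := q) hθ1
  have hq3 := mul_le_mul_of_nonneg_left hq2 hW0.le
  refine le_trans ?_ (add_le_add_left (le_trans (add_le_add_left hQlow E') hS) _)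
  rw [hEq]
  calc θ * (q ^ 2 * W) + 2 * Y * (C * (q * W)) + Y ^ 2 * (W * (l / Real.pi ^ 2 + C)) +
        (1 - θ) / 2 * (q ^ 2 * W) =
      W * (θ * q ^ 2 + 2 * C * Y * q + Y ^ 2 * (l / Real.pi ^ 2 + C) + (1 - θ) / 2 * q ^ 2) := by ring
    _ ≤ _ := hq3
    _ = _ := by ring

end Pool.Agent.H7.SZ
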