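import Pool.Agent.H7.SZ.Stm

set_option autoImplicit false

/-! # Stub SZ-AREA (helper69): the area inequality for the `j`-th Taylor coefficient -/

namespace Pool.Agent.H7.SZ

open Metric Set Filter Topology
open Pool.Agent.W677.Mar
open Pool.Agent.H33R3.Bom (J)
open Pool.Agent.H64.CX (bt rr TP TN)
open Pool.Agent.H7.CY (ej laurent fibre)

namespace AREAaux

/-- the Laurent coefficients of nonnegative index -/
noncomputable def cc (ν : ℕ → ℕ → ℂ) (j i : ℕ) : ℂ :=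
  if i % 2 = 1 then TP ah ν (i / 2) (i / 2 + j) else 0

/-- the Laurent coefficients of negative index -/
noncomputable def dd (ν : ℕ → ℕ → ℂ) (j i : ℕ) : ℂ :=
  if i % 2 = 1 ∧ (i + 1) / 2 ≤ j then TN ah ν ((i + 1) / 2) (j - (i + 1) / 2) else 0

theorem cc_odd (ν : ℕ → ℕ → ℂ) (j n : ℕ) : cc ν j (2 * n + 1) = TP ah ν n (n + j) := by
  unfold cc
  rw [if_pos (by omega), show (2 * n + 1) / 2 = n by omega]

/-- the support of `dd` -/
def DD (j : ℕ) : Finset ℕ := (Finset.Icc 1 j).image fun k => 2 * k - 1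

theorem dd_mem {ν : ℕ → ℕ → ℂ} {j k : ℕ} (h : k ∈ Finset.Icc 1 j) :
    dd ν j (2 * k - 1) = TN ah ν k (j - k) := by
  rw [Finset.mem_Icc] at h
  unfold dd
  rw [show (2 * k - 1 + 1) / 2 = k by omega, if_pos ⟨by omega, h.2⟩]

theorem dd_notMem {ν : ℕ → ℕ → ℂ} {j i : ℕ} (h : i ∉ DD j) : dd ν j i = 0 := by
  unfold dd
  rw [if_neg]
  rintro ⟨h1, h2⟩
  apply h
  unfold DD
  rw [Finset.mem_image]
  exact ⟨(i + 1) / 2, by rw [Finset.mem_Icc]; omega, by omega⟩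

theorem sum_DD (j : ℕ) {E : Type} [AddCommMonoid E] (g : ℕ → E) :
    ∑ i ∈ DD j, g i = ∑ k ∈ Finset.Icc 1 j, g (2 * k - 1) := by
  unfold DD
  rw [Finset.sum_image]
  intro a ha b hb hab
  rw [Finset.mem_coe, Finset.mem_Icc] at ha hb
  simp only at hab
  omega

theorem dd_bound (ν : ℕ → ℕ → ℂ) (j : ℕ) {r : ℝ} (hr : 0 < r) :
    ∃ C : ℝ, ∀ k, ‖dd ν j k‖ ≤ C * r ^ k := by
  refine ⟨∑ k ∈ DD j, ‖dd ν j k‖ / r ^ k, fun k => ?_⟩
  have hC : 0 ≤ ∑ k ∈ DD j, ‖dd ν j k‖ / r ^ k := by positivity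
  by_cases h : k ∈ DD j
  · have h1 := Finset.single_le_sum (f := fun k => ‖dd ν j k‖ / r ^ k)
      (fun i _ => by positivity) h
    rw [← div_le_iff₀ (by positivity)]
    exact h1
  · rw [dd_notMem h, norm_zero]
    positivity

theorem cc_even {ν : ℕ → ℕ → ℂ} {j i : ℕ} (h : i ∉ Set.range (fun n : ℕ => 2 * n + 1)) :
    cc ν j i = 0 := by
  unfold cc
  rw [if_neg]
  intro h1
  exact h ⟨i / 2, by simp only; omega⟩

theorem odd_inj : Function.Injective (fun n : ℕ => 2 * n + 1) := by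
  intro a b hab
  simp only at hab
  omega

/-- the inequality on circles -/
theorem area_R {K : ℂ × ℂ → ℂ} {ν : ℕ → ℕ → ℂ} (hG : IsG0 fun v => (K (0, v ^ 2))⁻¹)
    (hν : ∀ ζ ∈ ball (0 : ℂ) 1, ∀ z ∈ ball (0 : ℂ) 1,
      HasSum (fun p : ℕ × ℕ => ν p.1 p.2 * ζ ^ p.1 * z ^ p.2) (K (ζ, z)))
    (j N : ℕ) (P : Polynomial ℂ)
    (hP : ∀ v : ℂ, v ≠ 0 → ‖v‖ < 1 → v * ej ah ν j (v ^ 2) = P.eval ((K (0, v ^ 2))⁻¹ / v))
    {R : ℝ} (hR0 : 0 < R) (hR1 : R < 1) :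
    ∑ n ∈ Finset.range N, (2 * (n : ℝ) + 1) * ‖TP ah ν n (n + j)‖ ^ 2 * R ^ (2 * (2 * n + 1)) ≤
      ∑ k ∈ Finset.Icc 1 j, (2 * (k : ℝ) - 1) * ‖TN ah ν k (j - k)‖ ^ 2 *
        (R⁻¹) ^ (2 * (2 * k - 1)) := by
  have hs := (fibre (K := fun ζ z => K (ζ, z)) hν).2
  have hv2 : ∀ v : ℂ, ‖v‖ < 1 → v ^ 2 ∈ ball (0 : ℂ) 1 := by
    intro v hv
    rw [mem_ball_zero_iff, norm_pow]
    exact pow_lt_one₀ (norm_nonneg _) hv (by norm_num)
  have hL : ∀ v : ℂ, v ≠ 0 → ‖v‖ < 1 → HasSum (fun n : ℕ => TP ah ν n (n + j) * v ^ (2 * n + 1))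
      (v * ej ah ν j (v ^ 2) - ∑ k ∈ Finset.Icc 1 j, TN ah ν k (j - k) * (v⁻¹) ^ (2 * k - 1)) := by
    intro v hv0 hv1
    have h1 := (laurent ah (pow_ne_zero 2 hv0) (fun a => hs a (v ^ 2) (hv2 v hv1)) j).mul_left v
    rw [mul_sub, Finset.mul_sum] at h1
    have e1 : ∑ k ∈ Finset.Icc 1 j, v * (TN ah ν k (j - k) * ((v ^ 2)⁻¹) ^ k) =
        ∑ k ∈ Finset.Icc 1 j, TN ah ν k (j - k) * (v⁻¹) ^ (2 * k - 1) := by
      apply Finset.sum_congr rfl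
      intro k hk
      rw [Finset.mem_Icc] at hk
      obtain ⟨l, rfl⟩ : ∃ l, k = l + 1 := ⟨k - 1, by omega⟩
      rw [show 2 * (l + 1) - 1 = 2 * l + 1 by omega]
      have q1 : ((v ^ 2)⁻¹) ^ (l + 1) = (v⁻¹) ^ (2 * l + 1) * v⁻¹ := by
        rw [← inv_pow, ← pow_mul, ← pow_succ]
        congr 1
      have q2 : v * v⁻¹ = 1 := mul_inv_cancel₀ hv0
      rw [q1]
      linear_combination (TN ah ν (l + 1) (j - (l + 1)) * (v⁻¹) ^ (2 * l + 1)) * q2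
    rw [e1] at h1
    refine h1.congr_fun ?_ |> fun h => h
    intro n
    ring
  set Φ : ℂ → ℂ := fun v => ∑' n : ℕ, TP ah ν n (n + j) * v ^ (2 * n + 1) with hΦ
  have hΦs : ∀ v ∈ ball (0 : ℂ) 1, HasSum (fun i : ℕ => cc ν j i * v ^ i) (Φ v) := by
    intro v hv
    rw [← odd_inj.hasSum_iff (f := fun i : ℕ => cc ν j i * v ^ i)
      (fun i hi => by rw [cc_even hi, zero_mul])]
    have e : (fun i : ℕ => cc ν j i * v ^ i) ∘ (fun n : ℕ => 2 * n + 1) =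
        fun n : ℕ => TP ah ν n (n + j) * v ^ (2 * n + 1) := by
      funext n
      simp only [Function.comp]
      rw [cc_odd]
    rw [e]
    by_cases hv0 : v = 0
    · subst hv0
      have e0 : (fun n : ℕ => TP ah ν n (n + j) * (0 : ℂ) ^ (2 * n + 1)) = fun _ => 0 := by
        funext n
        rw [zero_pow (by omega), mul_zero]
      rw [hΦ]
      simp only [e0, tsum_zero]
      exact hasSum_zero
    · exact (hL v hv0 (mem_ball_zero_iff.1 hv)).summable.hasSum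
  have hd : ∀ v : ℂ, ∑' i : ℕ, dd ν j i * (v⁻¹) ^ i =
      ∑ k ∈ Finset.Icc 1 j, TN ah ν k (j - k) * (v⁻¹) ^ (2 * k - 1) := by
    intro v
    rw [tsum_eq_sum (s := DD j) (fun k hk => by rw [dd_notMem hk, zero_mul]), sum_DD]
    exact Finset.sum_congr rfl fun k hk => by rw [dd_mem hk]
  have heq : ∀ v : ℂ, v ≠ 0 → ‖v‖ < 1 →
      Φ v + ∑' i : ℕ, dd ν j i * (v⁻¹) ^ i = P.eval ((K (0, v ^ 2))⁻¹ / v) := by
    intro v hv0 hv1
    rw [hd, ← hP v hv0 hv1]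
    have h1 := (hL v hv0 hv1).tsum_eq
    rw [hΦ]
    simp only
    rw [h1]
    ring
  obtain ⟨C, hC⟩ := dd_bound ν j (half_pos hR0)
  obtain ⟨g1, g2, g3⟩ := Pool.Agent.H643R3.BomC4.taskC4 R (R / 2) C (cc ν j)
    (dd ν j) Φ (half_pos hR0) (half_lt_self hR0) hR1 (by simp [dd]) hΦs hC
  have g4 := t1 _ hG P R hR0 hR1
  have hnc : ∀ t : ℝ, ‖circleMap 0 R t‖ = R := fun t => by simp [abs_of_pos hR0]
  have hAo : IsOpen {z : ℂ | 0 < ‖z‖ ∧ ‖z‖ < 1} :=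
    (isOpen_lt continuous_const continuous_norm).inter (isOpen_lt continuous_norm continuous_const)
  have hJ : J R (fun z => Φ z + ∑' k : ℕ, dd ν j k * (z⁻¹) ^ k)
      (deriv fun z => Φ z + ∑' k : ℕ, dd ν j k * (z⁻¹) ^ k) =
      J R (fun z => P.eval ((K (0, z ^ 2))⁻¹ / z)) (deriv fun z => P.eval ((K (0, z ^ 2))⁻¹ / z)) := by
    unfold J
    congr 1
    apply intervalIntegral.integral_congr
    intro t _
    have hm : 0 < ‖circleMap 0 R t‖ ∧ ‖circleMap 0 R t‖ < 1 := by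
      rw [hnc]; exact ⟨hR0, hR1⟩
    have hev : (fun z => Φ z + ∑' k : ℕ, dd ν j k * (z⁻¹) ^ k) =ᶠ[𝓝 (circleMap 0 R t)]
        fun z => P.eval ((K (0, z ^ 2))⁻¹ / z) := by
      filter_upwards [hAo.mem_nhds hm] with z hz using heq z (norm_pos_iff.1 hz.1) hz.2
    show (starRingEnd ℂ) (Φ (circleMap 0 R t) + ∑' k : ℕ, dd ν j k * ((circleMap 0 R t)⁻¹) ^ k) *
        (circleMap 0 R t * deriv (fun z => Φ z + ∑' k : ℕ, dd ν j k * (z⁻¹) ^ k)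
          (circleMap 0 R t)) = _
    rw [hev.deriv_eq, heq _ (norm_pos_iff.1 hm.1) hm.2]
  rw [← hJ, g3] at g4
  have hpi : 0 < 2 * Real.pi := by positivity
  have g5 : ∑' k : ℕ, (k : ℝ) * ‖cc ν j k‖ ^ 2 * R ^ (2 * k) ≤
      ∑' k : ℕ, (k : ℝ) * ‖dd ν j k‖ ^ 2 * (R⁻¹) ^ (2 * k) := by
    by_contra hcon
    push Not at hcon
    have := mul_pos hpi (sub_pos.2 hcon)
    linarith
  have g6 : ∑' k : ℕ, (k : ℝ) * ‖dd ν j k‖ ^ 2 * (R⁻¹) ^ (2 * k) =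
      ∑ k ∈ Finset.Icc 1 j, (2 * (k : ℝ) - 1) * ‖TN ah ν k (j - k)‖ ^ 2 *
        (R⁻¹) ^ (2 * (2 * k - 1)) := by
    rw [tsum_eq_sum (s := DD j) (fun k hk => by rw [dd_notMem hk]; simp), sum_DD]
    refine Finset.sum_congr rfl fun k hk => ?_
    rw [dd_mem hk]
    rw [Finset.mem_Icc] at hk
    have e : ((2 * k - 1 : ℕ) : ℝ) = 2 * (k : ℝ) - 1 := by
      rw [Nat.cast_sub (by omega)]
      push_cast
      ring
    rw [e]
  rw [← g6]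
  refine le_trans ?_ g5
  have g7 := g1.sum_le_tsum ((Finset.range N).image fun n : ℕ => 2 * n + 1)
    (fun k _ => by positivity)
  rw [Finset.sum_image (fun a _ b _ hab => odd_inj hab)] at g7
  refine le_trans (le_of_eq ?_) g7
  refine Finset.sum_congr rfl fun n _ => ?_
  rw [cc_odd]
  push_cast
  ring

end AREAaux

open AREAaux in
theorem area : S_AREA := by
  intro hPOL hIG F K ν hF hK hS j N hj
  obtain ⟨P, hP⟩ := hPOL F K ν hF hK hS j hj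
  have hG := hIG F K hF hK
  have hA : Tendsto (fun R : ℝ => ∑ n ∈ Finset.range N, (2 * (n : ℝ) + 1) * ‖TP ah ν n (n + j)‖ ^ 2 *
      R ^ (2 * (2 * n + 1))) (𝓝[<] 1)
      (𝓝 (∑ n ∈ Finset.range N, (2 * (n : ℝ) + 1) * ‖TP ah ν n (n + j)‖ ^ 2)) := by
    have hcont : Continuous (fun R : ℝ => ∑ n ∈ Finset.range N, (2 * (n : ℝ) + 1) *
      ‖TP ah ν n (n + j)‖ ^ 2 * R ^ (2 * (2 * n + 1))) := by fun_prop
    have := (hcont.tendsto 1).mono_left (nhdsWithin_le_nhds (s := Iio 1))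
    simpa using this
  have hB : Tendsto (fun R : ℝ => ∑ k ∈ Finset.Icc 1 j, (2 * (k : ℝ) - 1) *
      ‖TN ah ν k (j - k)‖ ^ 2 * (R⁻¹) ^ (2 * (2 * k - 1))) (𝓝[<] 1)
      (𝓝 (∑ k ∈ Finset.Icc 1 j, (2 * (k : ℝ) - 1) * ‖TN ah ν k (j - k)‖ ^ 2)) := by
    have hinv : Tendsto (fun R : ℝ => R⁻¹) (𝓝[<] 1) (𝓝 1) := by
      have := (continuousAt_inv₀ (one_ne_zero (α := ℝ))).tendsto.mono_left
        (nhdsWithin_le_nhds (s := Iio 1))
      simpa using this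
    have := tendsto_finsetSum (Finset.Icc 1 j) fun k _ =>
      (hinv.pow (2 * (2 * k - 1))).const_mul ((2 * (k : ℝ) - 1) * ‖TN ah ν k (j - k)‖ ^ 2)
    simpa using this
  have hmain : ∑ n ∈ Finset.range N, (2 * (n : ℝ) + 1) * ‖TP ah ν n (n + j)‖ ^ 2 ≤
      ∑ k ∈ Finset.Icc 1 j, (2 * (k : ℝ) - 1) * ‖TN ah ν k (j - k)‖ ^ 2 := by
    refine le_of_tendsto_of_tendsto hA hB ?_
    have hIoo : Ioo (0 : ℝ) 1 ∈ 𝓝[<] (1 : ℝ) := Ioo_mem_nhdsLT one_pos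
    filter_upwards [hIoo] with R hR
    exact area_R hG hS.2 j N P hP hR.1 hR.2
  have e1 : ∑ n ∈ Finset.range N, (2 * (n : ℝ) + 1) * ‖TP ah ν n (n + j)‖ ^ 2 =
      2 * ∑ n ∈ Finset.range N, ((n : ℝ) + 1 / 2) * ‖TP ah ν n (n + j)‖ ^ 2 := by
    rw [Finset.mul_sum]
    exact Finset.sum_congr rfl fun n _ => by ring
  have e2 : ∑ k ∈ Finset.Icc 1 j, (2 * (k : ℝ) - 1) * ‖TN ah ν k (j - k)‖ ^ 2 =
      2 * ∑ k ∈ Finset.Icc 1 j, ((k : ℝ) - 1 / 2) * ‖TN ah ν k (j - k)‖ ^ 2 := by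
    rw [Finset.mul_sum]
    exact Finset.sum_congr rfl fun n _ => by ring
  rw [e1, e2] at hmain
  linarith

end Pool.Agent.H7.SZ
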