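import Pool.Agent.H7.SZ.Stm
import Pool.Agent.H64.CX.Asm3

set_option autoImplicit false

/-! # Project SZ: assembly -/

namespace Pool.Agent.H7.SZ

open Metric Set Filter Topology MeasureTheory
open scoped ENNReal
open Pool.Agent.H64.CX (bt rr TP TN GD)
open Pool.Agent.W677.Mar (IsG0)

theorem LL_nonneg (ν : ℕ → ℕ → ℂ) (m : ℕ) : 0 ≤ LL ν m := by
  unfold LL w
  apply Finset.sum_nonneg
  intro n _
  positivity

theorem EM_nonneg (ν : ℕ → ℕ → ℂ) (m : ℕ) : 0 ≤ EM ν m := by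
  unfold EM w
  apply Finset.sum_nonneg
  intro n _
  positivity

theorem w_nonneg (m : ℕ) : 0 ≤ w m := by
  unfold w
  positivity

/-- the means of the derivative, for univalent functions of restricted growth -/
theorem means (ker : S_KER) (pol : S_POL) (ig : S_IG) (area : S_AREA) (war : S_WAR) (frc : S_FRC)
    (dm : S_DM) (ps : S_PS) (smb : S_SUM) (low : S_LOW) (gro : S_GRO) (core : S_CORE) (gd : S_GD)
    (fin : S_FIN) (mn : S_MN) (perm : S_PERM) {F : ℂ → ℂ} (hF : Sc F) {A : ℝ} (hA : 0 ≤ A)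
    (hG : ∀ z ∈ ball (0 : ℂ) 1, ‖F z‖ ≤ A * (1 - ‖z‖) ^ (-(2 / 5) : ℝ)) :
    ∃ C : ℝ, 0 ≤ C ∧ ∀ r ∈ Ioo (0 : ℝ) 1,
      ∫ t in (0 : ℝ)..(2 * Real.pi), ‖deriv F (circleMap 0 r t)‖ ≤
        C * (1 - r) ^ (-(2 / 5) : ℝ) := by
  obtain ⟨K, hK⟩ := ker F hF
  obtain ⟨ν, hν1, hν2⟩ := Pool.Agent.H64.BR.dps K hK.diff hK.symm
  have hS : Se K ν := ⟨hν1, hν2⟩
  have hAr := area pol ig F K ν hF hK hS
  have hW := war ν hAr
  have hgr := gro K ν hS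
  have hsum := smb ν hgr
  obtain ⟨δ, C₁, m₀, hδ, hC₁, hP⟩ := perm
  have hw0 : ∀ m, 0 ≤ C₁ * w m * ‖ν 0 m‖ ^ 2 := fun m =>
    mul_nonneg (mul_nonneg hC₁ (w_nonneg m)) (sq_nonneg _)
  obtain ⟨B, hB0, hB⟩ := core (LL ν) (EM ν) (fun m => C₁ * w m * ‖ν 0 m‖ ^ 2) (RR ν) δ m₀
    (LL_nonneg ν) (EM_nonneg ν) hw0 hδ (fun m => (low ν m).1) hsum hW
    (fun m hm => hP ν hν1 m hm)
  -- the forced terms
  have hfr : ∀ r ∈ Ioo (0 : ℝ) 1, ∀ N : ℕ,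
      ∑ m ∈ Finset.range N, (2 * (m : ℝ) + 1) * ‖ν 0 m‖ ^ 2 * r ^ (2 * m + 1) ≤
        A * (1 - r) ^ (-(2 / 5) : ℝ) := by
    intro r hr N
    apply frc F K ν hF hK hS r hr
    intro z hz
    have hz1 : ‖z‖ < 1 := hz.trans_lt hr.2
    refine (hG z (mem_ball_zero_iff.2 hz1)).trans ?_
    apply mul_le_mul_of_nonneg_left _ hA
    have h1 : 0 < 1 - r := by linarith [hr.2]
    exact Real.rpow_le_rpow_of_nonpos h1 (by linarith) (by norm_num)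
  obtain ⟨C₂, hC₂, hD⟩ := dm (fun m => ‖ν 0 m‖ ^ 2) A (fun m => sq_nonneg _) hA hfr
  obtain ⟨C₃, hC₃, hPS⟩ := ps (fun m => ‖ν 0 m‖ ^ 2) C₂ (fun m => sq_nonneg _) hC₂ hD
  obtain ⟨C₄, hC₄, hGD⟩ := gd Pool.Agent.H64.CX.hid Pool.Agent.H64.CX.btu
  have hE : ∀ M : ℕ, 2 ≤ M → ∑' m : ℕ, ENNReal.ofReal ((1 - 1 / (M : ℝ)) ^ m * EM ν m) ≤
      ENNReal.ofReal ((δ⁻¹ * (B + C₁ * C₃)) * (M : ℝ) ^ (2 / 5 - sg)) := by
    intro M hM
    have hM1 : (2 : ℝ) ≤ M := by exact_mod_cast hM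
    have hρ : (1 - 1 / (M : ℝ)) ∈ Ioo (0 : ℝ) 1 := by
      constructor
      · have : 1 / (M : ℝ) ≤ 1 / 2 := one_div_le_one_div_of_le (by norm_num) hM1
        linarith
      · have : 0 < 1 / (M : ℝ) := by positivity
        linarith
    have h1 := hB _ hρ
    have h2 := hPS M hM
    have hMp : (1 : ℝ) ≤ (M : ℝ) ^ (2 / 5 - sg) :=
      Real.one_le_rpow (by linarith) (by unfold sg; norm_num)
    have h3 : ∑' m : ℕ, ENNReal.ofReal ((1 - 1 / (M : ℝ)) ^ m * (C₁ * w m * ‖ν 0 m‖ ^ 2)) ≤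
        ENNReal.ofReal (C₁ * (C₃ * (M : ℝ) ^ (2 / 5 - sg))) := by
      rw [ENNReal.ofReal_mul hC₁]
      calc ∑' m : ℕ, ENNReal.ofReal ((1 - 1 / (M : ℝ)) ^ m * (C₁ * w m * ‖ν 0 m‖ ^ 2))
          = ∑' m : ℕ, ENNReal.ofReal C₁ *
              ENNReal.ofReal ((1 - 1 / (M : ℝ)) ^ m * (w m * ‖ν 0 m‖ ^ 2)) := by
            apply tsum_congr
            intro m
            rw [← ENNReal.ofReal_mul hC₁]
            congr 1
            ring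
        _ = ENNReal.ofReal C₁ *
              ∑' m : ℕ, ENNReal.ofReal ((1 - 1 / (M : ℝ)) ^ m * (w m * ‖ν 0 m‖ ^ 2)) :=
            ENNReal.tsum_mul_left
        _ ≤ _ := by gcongr
    have hCC : 0 ≤ C₁ * C₃ := mul_nonneg hC₁ hC₃
    have h4 : ENNReal.ofReal δ * ∑' m : ℕ, ENNReal.ofReal ((1 - 1 / (M : ℝ)) ^ m * EM ν m) ≤
        ENNReal.ofReal ((B + C₁ * C₃) * (M : ℝ) ^ (2 / 5 - sg)) := by
      refine h1.trans ?_
      refine (add_le_add_right h3 _).trans ?_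
      rw [← ENNReal.ofReal_add hB0 (by positivity)]
      apply ENNReal.ofReal_le_ofReal
      nlinarith [mul_le_mul_of_nonneg_left hMp hB0]
    have hδe : ENNReal.ofReal δ ≠ 0 := by
      rw [Ne, ENNReal.ofReal_eq_zero, not_le]
      exact hδ
    rw [mul_assoc, ENNReal.ofReal_mul (by positivity), ENNReal.ofReal_inv_of_pos hδ]
    rw [← ENNReal.div_eq_inv_mul, ENNReal.le_div_iff_mul_le (Or.inl hδe)
      (Or.inl ENNReal.ofReal_ne_top), mul_comm]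
    exact h4
  obtain ⟨C₅, hC5⟩ : ∃ C₅ : ℝ, C₅ = max C₄ (max C₂ (δ⁻¹ * (B + C₁ * C₃))) := ⟨_, rfl⟩
  have l1 : C₄ ≤ C₅ := by rw [hC5]; exact le_max_left _ _
  have l2 : C₂ ≤ C₅ := by rw [hC5]; exact (le_max_left _ _).trans (le_max_right _ _)
  have l3 : δ⁻¹ * (B + C₁ * C₃) ≤ C₅ := by
    rw [hC5]; exact (le_max_right _ _).trans (le_max_right _ _)
  have l0 : 0 ≤ C₅ := hC₄.trans l1
  obtain ⟨B', hB'0, hB'⟩ := fin (fun m => ‖GD ν m‖ ^ 2) (EM ν) (fun m => ‖ν 0 m‖ ^ 2) C₅ l0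
    (EM_nonneg ν) (fun m => sq_nonneg _) (fun m hm => by
      refine (hGD ν hν1 m hm).trans ?_
      apply mul_le_mul_of_nonneg_right l1
      have := EM_nonneg ν m
      positivity)
    (fun M hM => (hD M hM).trans (by
      apply mul_le_mul_of_nonneg_right l2
      positivity))
    (fun M hM => (hE M hM).trans (by
      apply ENNReal.ofReal_le_ofReal
      apply mul_le_mul_of_nonneg_right l3
      positivity))
  have hdiag : ∀ z ∈ ball (0 : ℂ) 1, HasSum (fun m : ℕ => GD ν m * z ^ m) (K (z, z)) := fun z hz =>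
    Pool.Agent.H64.CX.diag_hasSum Pool.Agent.H64.CX.ser hν2 hz
  obtain ⟨C₆, hC₆, h6⟩ := mn (GD ν) (fun z => K (z, z)) B' hB'0 hdiag hB'
  refine ⟨C₆, hC₆, fun r hr => ?_⟩
  have h7 := h6 r hr
  refine le_trans (le_of_eq ?_) h7
  apply intervalIntegral.integral_congr
  intro t _
  have hz : circleMap 0 r t ∈ ball (0 : ℂ) 1 := by
    rw [mem_ball_zero_iff, norm_circleMap_zero, abs_of_pos hr.1]
    exact hr.2
  show ‖deriv F (circleMap 0 r t)‖ = ‖K (circleMap 0 r t, circleMap 0 r t)‖ ^ 2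
  rw [← norm_pow, hK.diag _ hz]

/-- **Szegő's estimate for `p = 5`**, for `φ = (f z / z) ^ (1/5)`. -/
theorem szego5 (ker : S_KER) (pol : S_POL) (ig : S_IG) (area : S_AREA) (war : S_WAR) (frc : S_FRC)
    (dm : S_DM) (ps : S_PS) (smb : S_SUM) (low : S_LOW) (gro : S_GRO) (core : S_CORE) (gd : S_GD)
    (fin : S_FIN) (mn : S_MN) (perm : S_PERM) (rt : S_RT) (gw : S_GW) (cf : S_CF)
    {f φ : ℂ → ℂ} (hf : Sc f) (hφ : DifferentiableOn ℂ φ (ball 0 1)) (h0 : φ 0 = 1)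
    (h : ∀ z ∈ ball (0 : ℂ) 1, z * φ z ^ 5 = f z) {c : ℕ → ℂ}
    (hc : ∀ z ∈ ball (0 : ℂ) 1, HasSum (fun n : ℕ => c n * z ^ n) (φ z)) :
    ∃ C : ℝ, ∀ n : ℕ, 1 ≤ n → ‖c n‖ ≤ C * (n : ℝ) ^ (-(3 / 5) : ℝ) := by
  obtain ⟨C, hC0, hC⟩ := means ker pol ig area war frc dm ps smb low gro core gd fin mn perm
    (rt f φ hf hφ h0 h) (A := 1) zero_le_one (fun z hz => by
      rw [one_mul]
      exact gw f φ hf hφ h0 h z hz)
  exact cf φ c C hC0 hφ hc hC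

end Pool.Agent.H7.SZ
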