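import Pool.Agent.H7.SZ.Stm

set_option autoImplicit false

/-! # Project SZ: statements for the `p`-th root transform, `p ≥ 5` -/

namespace Pool.Agent.H7.SZ

open Metric Set Filter Topology MeasureTheory

/-- `g = f(z^p)^(1/p)`, the branch with `g = z + ...` -/
def IsRoot (p : ℕ) (f g : ℂ → ℂ) : Prop :=
  DifferentiableOn ℂ g (ball 0 1) ∧ (∀ z ∈ ball (0 : ℂ) 1, g z ^ p = f (z ^ p)) ∧ deriv g 0 = 1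

/-- SZ2-RTP -/
def S_RTP : Prop :=
  ∀ (p : ℕ) (f φ : ℂ → ℂ), 1 ≤ p → Sc f → DifferentiableOn ℂ φ (ball 0 1) → φ 0 = 1 →
    (∀ z ∈ ball (0 : ℂ) 1, z * φ z ^ p = f z) → Sc fun z => z * φ (z ^ p)

/-- SZ2-GWP -/
def S_GWP : Prop :=
  ∀ (p : ℕ) (f φ : ℂ → ℂ), 5 ≤ p → Sc f → DifferentiableOn ℂ φ (ball 0 1) → φ 0 = 1 →
    (∀ z ∈ ball (0 : ℂ) 1, z * φ z ^ p = f z) →
    ∀ z ∈ ball (0 : ℂ) 1, ‖z * φ (z ^ p)‖ ≤ (1 - ‖z‖) ^ (-(2 / 5) : ℝ)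

/-- SZ2-CFP -/
def S_CFP : Prop :=
  ∀ (p : ℕ) (φ : ℂ → ℂ) (c : ℕ → ℂ) (C : ℝ), 1 ≤ p → 0 ≤ C → DifferentiableOn ℂ φ (ball 0 1) →
    (∀ z ∈ ball (0 : ℂ) 1, HasSum (fun n : ℕ => c n * z ^ n) (φ z)) →
    (∀ r ∈ Ioo (0 : ℝ) 1, ∫ t in (0 : ℝ)..(2 * Real.pi),
      ‖deriv (fun z => z * φ (z ^ p)) (circleMap 0 r t)‖ ≤ C * (1 - r) ^ (-(2 / 5) : ℝ)) →
    ∃ C' : ℝ, ∀ n : ℕ, 1 ≤ n → ‖c n‖ ≤ C' * (n : ℝ) ^ (-(3 / 5) : ℝ)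

/-- SZ2-UNQ: the root transform is `z φ(z^p)`, `φ = (f z / z) ^ (1/p)` -/
def S_UNQ : Prop :=
  ∀ (p : ℕ) (f g : ℂ → ℂ), 1 ≤ p → Sc f → IsRoot p f g →
    ∃ φ : ℂ → ℂ, DifferentiableOn ℂ φ (ball 0 1) ∧ φ 0 = 1 ∧
      (∀ z ∈ ball (0 : ℂ) 1, z * φ z ^ p = f z) ∧ ∀ z ∈ ball (0 : ℂ) 1, g z = z * φ (z ^ p)

/-- SZ2-EXR: the root transform exists -/
def S_EXR : Prop :=
  ∀ (p : ℕ) (f : ℂ → ℂ), 1 ≤ p → Sc f → ∃ g : ℂ → ℂ, IsRoot p f g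

/-- SZ2-COE: the coefficients of the root transform -/
def S_COE : Prop :=
  ∀ (p : ℕ) (φ g : ℂ → ℂ) (c : ℕ → ℂ), 1 ≤ p → DifferentiableOn ℂ g (ball 0 1) →
    (∀ z ∈ ball (0 : ℂ) 1, g z = z * φ (z ^ p)) →
    (∀ z ∈ ball (0 : ℂ) 1, HasSum (fun n : ℕ => c n * z ^ n) (φ z)) →
    ∀ n : ℕ, iteratedDeriv (p * n + 1) g 0 / ((p * n + 1).factorial : ℂ) = c n

/-- SZ2-CFF: the coefficients of a function from the means of its derivative -/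
def S_CFF : Prop :=
  ∀ (F : ℂ → ℂ) (C : ℝ), 0 ≤ C → DifferentiableOn ℂ F (ball 0 1) →
    (∀ r ∈ Ioo (0 : ℝ) 1, ∫ t in (0 : ℝ)..(2 * Real.pi),
      ‖deriv F (circleMap 0 r t)‖ ≤ C * (1 - r) ^ (-(2 / 5) : ℝ)) →
    ∃ C' : ℝ, ∀ n : ℕ, 1 ≤ n →
      ‖iteratedDeriv n F 0 / (n.factorial : ℂ)‖ ≤ C' * (n : ℝ) ^ (-(3 / 5) : ℝ)

end Pool.Agent.H7.SZ
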