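import Pool.Agent.H7.SZ.Asm
import Pool.Agent.H7.SZ.Stm2

set_option autoImplicit false

/-! # Project SZ: the root transforms -/

namespace Pool.Agent.H7.SZ

open Metric Set Filter Topology MeasureTheory

/-- **Szegő's estimate for `p = 5`**, and the same bound for all `p ≥ 5`. -/
theorem root_bound (ker : S_KER) (pol : S_POL) (ig : S_IG) (area : S_AREA) (war : S_WAR)
    (frc : S_FRC) (dm : S_DM) (ps : S_PS) (smb : S_SUM) (low : S_LOW) (gro : S_GRO) (core : S_CORE)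
    (gd : S_GD) (fin : S_FIN) (mn : S_MN) (perm : S_PERM) (rtp : S_RTP) (gwp : S_GWP) (cfp : S_CFP)
    (unq : S_UNQ) (coe : S_COE) {p : ℕ} (hp : 5 ≤ p) {f g : ℂ → ℂ} (hf : Sc f)
    (hg : IsRoot p f g) :
    ∃ C : ℝ, ∀ n : ℕ, 1 ≤ n →
      ‖iteratedDeriv (p * n + 1) g 0 / ((p * n + 1).factorial : ℂ)‖ ≤
        C * (n : ℝ) ^ (-(3 / 5) : ℝ) := by
  have hp1 : 1 ≤ p := by omega
  obtain ⟨φ, hφ, h0, h, hgφ⟩ := unq p f g hp1 hf hg
  obtain ⟨C, hC0, hC⟩ := means ker pol ig area war frc dm ps smb low gro core gd fin mn perm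
    (rtp p f φ hp1 hf hφ h0 h) (A := 1) zero_le_one (fun z hz => by
      rw [one_mul]
      exact gwp p f φ hp hf hφ h0 h z hz)
  have hc : ∀ z ∈ ball (0 : ℂ) 1,
      HasSum (fun n : ℕ => Pool.Agent.W5h41.MA.cf n φ * z ^ n) (φ z) := fun z hz =>
    Pool.Agent.W5h41.MA.cf_hasSum hφ hz
  obtain ⟨C', hC'⟩ := cfp p φ _ C hp1 hC0 hφ hc hC
  refine ⟨C', fun n hn => ?_⟩
  rw [coe p φ g _ hp1 hg.1 hgφ hc n]
  exact hC' n hn

/-- **Univalent functions of growth at most `(1 - |z|) ^ (-2/5)`.** -/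
theorem growth_bound (ker : S_KER) (pol : S_POL) (ig : S_IG) (area : S_AREA) (war : S_WAR)
    (frc : S_FRC) (dm : S_DM) (ps : S_PS) (smb : S_SUM) (low : S_LOW) (gro : S_GRO) (core : S_CORE)
    (gd : S_GD) (fin : S_FIN) (mn : S_MN) (perm : S_PERM) (cff : S_CFF) {F : ℂ → ℂ} (hF : Sc F)
    {A : ℝ} (hG : ∀ z ∈ ball (0 : ℂ) 1, ‖F z‖ ≤ A * (1 - ‖z‖) ^ (-(2 / 5) : ℝ)) :
    ∃ C : ℝ, (∀ r ∈ Ioo (0 : ℝ) 1, (1 / (2 * Real.pi)) * ∫ t in (0 : ℝ)..(2 * Real.pi),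
        ‖deriv F (circleMap 0 r t)‖ ≤ C * (1 - r) ^ (-(2 / 5) : ℝ)) ∧
      ∀ n : ℕ, 1 ≤ n → ‖iteratedDeriv n F 0 / (n.factorial : ℂ)‖ ≤
        C * (n : ℝ) ^ (-(3 / 5) : ℝ) := by
  have hA : 0 ≤ A := by
    have h := hG 0 (mem_ball_self one_pos)
    rw [hF.zero, norm_zero, sub_zero, Real.one_rpow, mul_one] at h
    exact h
  obtain ⟨C, hC0, hC⟩ := means ker pol ig area war frc dm ps smb low gro core gd fin mn perm hF hA hG
  obtain ⟨C', hC'⟩ := cff F C hC0 hF.diff hC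
  refine ⟨max C C', fun r hr => ?_, fun n hn => ?_⟩
  · have h1 : 0 ≤ (1 - r) ^ (-(2 / 5) : ℝ) := Real.rpow_nonneg (by linarith [hr.2]) _
    have h2 := hC r hr
    have h3 : 0 ≤ C * (1 - r) ^ (-(2 / 5) : ℝ) := mul_nonneg hC0 h1
    have h4 : 1 / (2 * Real.pi) ≤ 1 := by
      rw [div_le_one (by positivity)]
      linarith [Real.pi_gt_three]
    have h5 : 0 ≤ 1 / (2 * Real.pi) := by positivity
    calc (1 / (2 * Real.pi)) * ∫ t in (0 : ℝ)..(2 * Real.pi), ‖deriv F (circleMap 0 r t)‖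
        ≤ (1 / (2 * Real.pi)) * (C * (1 - r) ^ (-(2 / 5) : ℝ)) := mul_le_mul_of_nonneg_left h2 h5
      _ ≤ 1 * (C * (1 - r) ^ (-(2 / 5) : ℝ)) := mul_le_mul_of_nonneg_right h4 h3
      _ ≤ max C C' * (1 - r) ^ (-(2 / 5) : ℝ) := by
          rw [one_mul]
          exact mul_le_mul_of_nonneg_right (le_max_left _ _) h1
  · refine (hC' n hn).trans (mul_le_mul_of_nonneg_right (le_max_right _ _) ?_)
    positivity

end Pool.Agent.H7.SZ
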