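import Pool.Agent.H7.SZ.Stm
import Pool.Agent.H76.CY.Coef

set_option autoImplicit false

/-! # SZ-CF (helper29): the coefficients of the root transform -/

namespace Pool.Agent.H7.SZ

open Metric Set Filter Topology MeasureTheory

/-- the power series of the derivative -/
theorem cf_deriv {h : ℂ → ℂ} {e : ℕ → ℂ} (hd : DifferentiableOn ℂ h (ball 0 1))
    (he : ∀ z ∈ ball (0 : ℂ) 1, HasSum (fun n : ℕ => e n * z ^ n) (h z)) :
    DifferentiableOn ℂ (deriv h) (ball 0 1) ∧
    ∀ z ∈ ball (0 : ℂ) 1, HasSum (fun n : ℕ => (((n : ℂ) + 1) * e (n + 1)) * z ^ n)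
      (deriv h z) := by
  have hd' : DifferentiableOn ℂ (deriv h) (ball 0 1) := hd.deriv isOpen_ball
  refine ⟨hd', fun z hz => ?_⟩
  have h1 : ∀ z ∈ ball (0 : ℂ) 1,
      HasSum (fun n : ℕ => ((n.factorial : ℂ)⁻¹ * iteratedDeriv n h 0) * z ^ n) (h z) := by
    intro z hz
    have h2 := Complex.hasSum_taylorSeries_on_ball hd hz
    have h3 : (fun n : ℕ => ((n.factorial : ℂ)⁻¹ * iteratedDeriv n h 0) * z ^ n) =
        fun n : ℕ => ((n.factorial : ℂ)⁻¹ • (z - 0) ^ n • iteratedDeriv n h 0) := by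
      funext n
      rw [sub_zero, smul_eq_mul, smul_eq_mul]
      ring
    rw [h3]
    exact h2
  have h3 : ∀ n, e n = (n.factorial : ℂ)⁻¹ * iteratedDeriv n h 0 :=
    fun n => Pool.Agent.H7.CY.ser_unique one_pos he h1 n
  have h4 := Complex.hasSum_taylorSeries_on_ball hd' hz
  suffices h6 : (fun n : ℕ => (((n : ℂ) + 1) * e (n + 1)) * z ^ n) =
      fun n : ℕ => ((n.factorial : ℂ)⁻¹ • (z - 0) ^ n • iteratedDeriv n (deriv h) 0) by
    rw [h6]
    exact h4
  funext n
  rw [h3 (n + 1), sub_zero, smul_eq_mul, smul_eq_mul, iteratedDeriv_succ', Nat.factorial_succ,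
    Nat.cast_mul, mul_inv, Nat.cast_add, Nat.cast_one]
  have : ((n : ℂ) + 1) ≠ 0 := by exact_mod_cast Nat.succ_ne_zero n
  field_simp

theorem cf : S_CF := by
  intro φ c C hC hφ hc hI
  set h : ℂ → ℂ := fun z => z * φ (z ^ 5) with hh
  have h5 : ∀ z ∈ ball (0 : ℂ) 1, z ^ 5 ∈ ball (0 : ℂ) 1 := by
    intro z hz
    rw [mem_ball_zero_iff] at hz ⊢
    rw [norm_pow]
    exact pow_lt_one₀ (norm_nonneg z) hz (by norm_num)
  have hd : DifferentiableOn ℂ h (ball 0 1) := by
    refine differentiableOn_id.mul (hφ.comp (differentiable_id.pow 5).differentiableOn ?_)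
    intro z hz
    exact h5 z hz
  set e : ℕ → ℂ := fun n => if n % 5 = 1 then c (n / 5) else 0 with he
  have hes : ∀ z ∈ ball (0 : ℂ) 1, HasSum (fun n : ℕ => e n * z ^ n) (h z) := by
    intro z hz
    have h1 := (hc (z ^ 5) (h5 z hz)).mul_left z
    have hinj : Function.Injective (fun n : ℕ => 5 * n + 1) := by
      intro a b hab
      have : 5 * a + 1 = 5 * b + 1 := hab
      omega
    rw [← hinj.hasSum_iff]
    · have h2 : ((fun n : ℕ => e n * z ^ n) ∘ fun n : ℕ => 5 * n + 1) =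
          fun n : ℕ => z * (c n * (z ^ 5) ^ n) := by
        funext n
        simp only [Function.comp, he]
        rw [if_pos (by omega), show (5 * n + 1) / 5 = n by omega, pow_succ, pow_mul]
        ring
      rw [h2]
      exact h1
    · intro m hm
      have : ¬ m % 5 = 1 := by
        intro h0
        apply hm
        exact ⟨m / 5, by show 5 * (m / 5) + 1 = m; omega⟩
      simp only [he]
      rw [if_neg this, zero_mul]
  obtain ⟨hdd, hds⟩ := cf_deriv hd hes
  refine ⟨2 * C, fun n hn => ?_⟩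
  have hn' : (1 : ℝ) ≤ n := by exact_mod_cast hn
  have key := Pool.Agent.H76.CY.coef_growth (x := ‖c n‖) (B := C) (σ := 2 / 5) (n := 5 * n + 1)
    (by omega) (norm_nonneg _) hC (by norm_num) (by norm_num) (by
      intro r hr
      have h1 := Pool.Agent.H76.CY.coef_le hdd hds hr (5 * n)
      have h2 : ‖((((5 * n : ℕ) : ℂ) + 1) * e (5 * n + 1))‖ = ((5 * n + 1 : ℕ) : ℝ) * ‖c n‖ := by
        simp only [he]
        rw [if_pos (by omega), show (5 * n + 1) / 5 = n by omega, norm_mul]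
        congr 1
        rw [← Nat.cast_succ, Complex.norm_natCast]
      rw [h2] at h1
      have h3 : (2 * Real.pi)⁻¹ * (∫ t in (0 : ℝ)..(2 * Real.pi), ‖deriv h (circleMap 0 r t)‖) ≤
          (2 * Real.pi)⁻¹ * (C * (1 - r) ^ (-(2 / 5) : ℝ)) :=
        mul_le_mul_of_nonneg_left (hI r hr) (by positivity)
      refine le_trans ?_ (h1.trans h3)
      refine mul_le_mul_of_nonneg_left ?_ (by positivity)
      exact pow_le_pow_of_le_one hr.1.le hr.2.le (by omega))
  refine key.trans ?_
  refine mul_le_mul_of_nonneg_left ?_ (by positivity)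
  rw [show (2 / 5 - 1 : ℝ) = -(3 / 5) by norm_num]
  refine Real.rpow_le_rpow_of_nonpos (by linarith) ?_ (by norm_num)
  push_cast
  linarith

end Pool.Agent.H7.SZ
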