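import Pool.Agent.H7.SZ.Stm2
import Pool.Agent.H76.CY.Coef

/-! # SZ2-CFF: the coefficients of a function from the means of its derivative -/

set_option autoImplicit false

namespace Pool.Agent.H7.SZ

open Metric Set Filter Topology MeasureTheory

theorem cff : S_CFF := by
  intro F C hC hF hM
  have hdF : DifferentiableOn ℂ (deriv F) (ball 0 1) := hF.deriv isOpen_ball
  obtain ⟨c, hc⟩ : ∃ c : ℕ → ℂ, ∀ j, c j = ((j.factorial : ℂ))⁻¹ * iteratedDeriv (j + 1) F 0 :=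
    ⟨_, fun _ => rfl⟩
  have hsum : ∀ z ∈ ball (0 : ℂ) 1, HasSum (fun j => c j * z ^ j) (deriv F z) := by
    intro z hz
    have h := Complex.hasSum_taylorSeries_on_ball hdF hz
    have e : (fun j => c j * z ^ j) = fun n : ℕ =>
        ((n.factorial : ℂ))⁻¹ • (z - 0) ^ n • iteratedDeriv n (deriv F) 0 := by
      funext j
      rw [hc, iteratedDeriv_succ', sub_zero, smul_eq_mul, smul_eq_mul]
      ring
    rw [e]
    exact h
  refine ⟨2 * C, fun n hn => ?_⟩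
  obtain ⟨j, rfl⟩ : ∃ j, n = j + 1 := ⟨n - 1, by omega⟩
  have hx : ((j + 1 : ℕ) : ℝ) * ‖iteratedDeriv (j + 1) F 0 / ((j + 1).factorial : ℂ)‖ = ‖c j‖ := by
    have h1 : ((j + 1 : ℕ) : ℝ) = ‖((j + 1 : ℕ) : ℂ)‖ := by
      rw [Complex.norm_natCast]
    rw [h1, ← norm_mul, hc]
    congr 1
    have h2 : ((j + 1 : ℕ) : ℂ) ≠ 0 := by exact_mod_cast Nat.succ_ne_zero j
    have h3 : (j.factorial : ℂ) ≠ 0 := by exact_mod_cast Nat.factorial_ne_zero j
    rw [Nat.factorial_succ]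
    push_cast at h2 ⊢
    field_simp
  have hg := Pool.Agent.H76.CY.coef_growth (x := ‖iteratedDeriv (j + 1) F 0 / ((j + 1).factorial : ℂ)‖)
    (B := C) (σ := 2 / 5) hn (norm_nonneg _) hC (by norm_num) (by norm_num) (by
      intro r hr
      have h1 := Pool.Agent.H76.CY.coef_le hdF hsum hr j
      have h2 := hM r hr
      rw [hx]
      have h3 : r ^ (j + 1 + 1) ≤ r ^ j :=
        pow_le_pow_of_le_one hr.1.le hr.2.le (by omega)
      calc ‖c j‖ * r ^ (j + 1 + 1) ≤ ‖c j‖ * r ^ j :=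
            mul_le_mul_of_nonneg_left h3 (norm_nonneg _)
        _ ≤ (2 * Real.pi)⁻¹ * ∫ θ in (0 : ℝ)..(2 * Real.pi), ‖deriv F (circleMap 0 r θ)‖ := h1
        _ ≤ (2 * Real.pi)⁻¹ * (C * (1 - r) ^ (-(2 / 5) : ℝ)) :=
            mul_le_mul_of_nonneg_left h2 (by positivity))
  rw [show (2 / 5 - 1 : ℝ) = -(3 / 5) by norm_num] at hg
  exact hg

end Pool.Agent.H7.SZ
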