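import Pool.Agent.H7.SZ.Stm2
import Pool.Agent.H7.SZ.CF

set_option autoImplicit false

/-! # SZ2-CFP (helper19): the coefficients of the `p`-th root transform -/

namespace Pool.Agent.H7.SZ

open Metric Set Filter Topology MeasureTheory

theorem cfp : S_CFP := by
  intro p φ c C hp hC hφ hc hI
  have hp0 : 0 < p := hp
  obtain ⟨h, hh⟩ : ∃ h : ℂ → ℂ, h = fun z => z * φ (z ^ p) := ⟨_, rfl⟩
  rw [← hh] at hI
  have h5 : ∀ z ∈ ball (0 : ℂ) 1, z ^ p ∈ ball (0 : ℂ) 1 := by
    intro z hz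
    rw [mem_ball_zero_iff] at hz ⊢
    rw [norm_pow]
    exact pow_lt_one₀ (norm_nonneg z) hz (by omega)
  have hd : DifferentiableOn ℂ h (ball 0 1) := by
    rw [hh]
    refine differentiableOn_id.mul (hφ.comp (differentiable_id.pow p).differentiableOn ?_)
    intro z hz
    exact h5 z hz
  obtain ⟨e, he⟩ : ∃ e : ℕ → ℂ, e = fun n => if 1 ≤ n ∧ p ∣ n - 1 then c ((n - 1) / p) else 0 :=
    ⟨_, rfl⟩
  have hee : ∀ n : ℕ, e (p * n + 1) = c n := by
    intro n
    rw [he]
    simp only [Nat.add_sub_cancel, le_add_iff_nonneg_left, zero_le, dvd_mul_right, and_self, if_true]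
    rw [Nat.mul_div_cancel_left n hp0]
  have hes : ∀ z ∈ ball (0 : ℂ) 1, HasSum (fun n : ℕ => e n * z ^ n) (h z) := by
    intro z hz
    have h1 := (hc (z ^ p) (h5 z hz)).mul_left z
    have hinj : Function.Injective (fun n : ℕ => p * n + 1) := by
      intro a b hab
      have h6 : p * a + 1 = p * b + 1 := hab
      exact Nat.eq_of_mul_eq_mul_left hp0 (by omega)
    rw [← hinj.hasSum_iff]
    · have h2 : ((fun n : ℕ => e n * z ^ n) ∘ fun n : ℕ => p * n + 1) =
          fun n : ℕ => z * (c n * (z ^ p) ^ n) := by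
        funext n
        simp only [Function.comp]
        rw [hee, pow_succ, pow_mul]
        ring
      rw [h2, hh]
      exact h1
    · intro m hm
      have : ¬ (1 ≤ m ∧ p ∣ m - 1) := by
        rintro ⟨h0, k, hk⟩
        apply hm
        exact ⟨k, by show p * k + 1 = m; omega⟩
      rw [he]
      simp only
      rw [if_neg this, zero_mul]
  obtain ⟨hdd, hds⟩ := cf_deriv hd hes
  refine ⟨2 * C, fun n hn => ?_⟩
  have hn' : (1 : ℝ) ≤ n := by exact_mod_cast hn
  have hpn : n ≤ p * n := Nat.le_mul_of_pos_left n hp0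
  have key := Pool.Agent.H76.CY.coef_growth (x := ‖c n‖) (B := C) (σ := 2 / 5) (n := p * n + 1)
    (by omega) (norm_nonneg _) hC (by norm_num) (by norm_num) (by
      intro r hr
      have h1 := Pool.Agent.H76.CY.coef_le hdd hds hr (p * n)
      have h2 : ‖((((p * n : ℕ) : ℂ) + 1) * e (p * n + 1))‖ = ((p * n + 1 : ℕ) : ℝ) * ‖c n‖ := by
        rw [hee, norm_mul]
        congr 1
        rw [← Nat.cast_succ, Complex.norm_natCast]
      rw [h2] at h1
      have h3 : (2 * Real.pi)⁻¹ * (∫ t in (0 : ℝ)..(2 * Real.pi), ‖deriv h (circleMap 0 r t)‖) ≤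
          (2 * Real.pi)⁻¹ * (C * (1 - r) ^ (-(2 / 5) : ℝ)) :=
        mul_le_mul_of_nonneg_left (hI r hr) (by positivity)
      refine le_trans ?_ (h1.trans h3)
      refine mul_le_mul_of_nonneg_left ?_ (by positivity)
      exact pow_le_pow_of_le_one hr.1.le hr.2.le (by omega))
  refine key.trans ?_
  refine mul_le_mul_of_nonneg_left ?_ (by positivity)
  rw [show (2 / 5 - 1 : ℝ) = -(3 / 5) by norm_num]
  refine Real.rpow_le_rpow_of_nonpos (by linarith) ?_ (by norm_num)
  have hpn' : (n : ℝ) ≤ ((p * n : ℕ) : ℝ) := by exact_mod_cast hpn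
  push_cast at hpn' ⊢
  linarith

end Pool.Agent.H7.SZ
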