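import Pool.Agent.H7.SZ.Stm2

set_option autoImplicit false

/-! # Stub SZ2-COE: the coefficients of the root transform -/

namespace Pool.Agent.H7.SZ

open Metric Set Filter Topology MeasureTheory

/-- the coefficients of the root transform -/
theorem coe : S_COE := by
  intro p φ g c hp hg hgz hφ n
  have hp0 : p ≠ 0 := by omega
  -- the Taylor series of `g`
  have h1 : ∀ z ∈ ball (0 : ℂ) 1,
      HasSum (fun m : ℕ => ((m.factorial : ℂ)⁻¹ * iteratedDeriv m g 0) * z ^ m) (g z) := by
    intro z hz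
    have h2 := Complex.hasSum_taylorSeries_on_ball hg hz
    have e : (fun m : ℕ => ((m.factorial : ℂ)⁻¹ * iteratedDeriv m g 0) * z ^ m) =
        fun n : ℕ => (n.factorial : ℂ)⁻¹ • (z - 0) ^ n • iteratedDeriv n g 0 := by
      funext m
      rw [smul_eq_mul, smul_eq_mul, sub_zero]
      ring
    rw [e]
    exact h2
  have hinj : Function.Injective (fun k : ℕ => p * k + 1) := by
    intro x y hxy
    simp only at hxy
    exact Nat.eq_of_mul_eq_mul_left (Nat.pos_of_ne_zero hp0) (by omega)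
  obtain ⟨a, ha⟩ : ∃ a : ℕ → ℂ, a = Function.extend (fun k : ℕ => p * k + 1) c 0 := ⟨_, rfl⟩
  have ha1 : ∀ k, a (p * k + 1) = c k := by
    intro k
    rw [ha]
    exact hinj.extend_apply c 0 k
  have ha2 : ∀ m, m ∉ Set.range (fun k : ℕ => p * k + 1) → a m = 0 := by
    intro m hm
    rw [ha, Function.extend_apply' _ _ _ hm]
    rfl
  have h2 : ∀ z ∈ ball (0 : ℂ) 1, HasSum (fun m : ℕ => a m * z ^ m) (g z) := by
    intro z hz
    have hz1 : ‖z‖ < 1 := by simpa using hz
    have hzp : z ^ p ∈ ball (0 : ℂ) 1 := by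
      rw [mem_ball_zero_iff, norm_pow]
      exact pow_lt_one₀ (norm_nonneg _) hz1 hp0
    have h3 := (hφ _ hzp).mul_left z
    rw [← hgz z hz] at h3
    have h4 : (fun k : ℕ => z * (c k * (z ^ p) ^ k)) = (fun m : ℕ => a m * z ^ m) ∘ (fun k : ℕ => p * k + 1) := by
      funext k
      simp only [Function.comp]
      rw [ha1, pow_succ, pow_mul]
      ring
    rw [h4] at h3
    refine (hinj.hasSum_iff ?_).1 h3
    intro m hm
    rw [ha2 m hm, zero_mul]
  have h3 := Pool.Agent.H7.CY.ser_unique one_pos h1 h2 (p * n + 1)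
  rw [ha1] at h3
  rw [← h3]
  ring

end Pool.Agent.H7.SZ
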