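import Pool.Agent.H7.SZ.Stm

set_option autoImplicit false

/-! # SZ-DM (helper48) -/

namespace Pool.Agent.H7.SZ

open Metric Set Filter Topology MeasureTheory

theorem dm : S_DM := by
  intro y C hy hC h
  refine ⟨4 * C * (2 : ℝ) ^ (2 / 5 : ℝ), by positivity, fun M hM => ?_⟩
  have hM0 : (1 : ℝ) ≤ (M : ℝ) := by exact_mod_cast hM
  have hM1 : (0 : ℝ) < (M : ℝ) := by linarith
  set r : ℝ := 1 - 1 / (2 * (M : ℝ)) with hr
  have h1 : 1 / (2 * (M : ℝ)) ≤ 1 / 2 := by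
    rw [div_le_div_iff₀ (by positivity) (by norm_num)]
    linarith
  have h0 : 0 < 1 / (2 * (M : ℝ)) := by positivity
  have hr0 : 1 / 2 ≤ r := by
    rw [hr]
    linarith
  have hr1 : r < 1 := by
    rw [hr]
    linarith
  have hrpow : (1 : ℝ) / 4 ≤ r ^ (2 * M) := by
    have h2 : 1 + (M : ℝ) * (-(1 / (2 * (M : ℝ)))) ≤ (1 + -(1 / (2 * (M : ℝ)))) ^ M :=
      one_add_mul_le_pow (by linarith) M
    have h3 : (M : ℝ) * (-(1 / (2 * (M : ℝ)))) = -(1 / 2) := by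
      field_simp
    rw [h3, ← sub_eq_add_neg 1 (1 / (2 * (M : ℝ))), ← hr] at h2
    rw [mul_comm, pow_mul]
    nlinarith
  have h4 := h r ⟨by linarith, hr1⟩ M
  have h5 : (1 - r) ^ (-(2 / 5) : ℝ) = (2 : ℝ) ^ (2 / 5 : ℝ) * (M : ℝ) ^ (2 / 5 : ℝ) := by
    have h6 : 1 - r = (2 * (M : ℝ))⁻¹ := by
      rw [hr, ← one_div]
      ring
    rw [h6, Real.inv_rpow (by positivity), Real.rpow_neg (by positivity), inv_inv,
      Real.mul_rpow (by norm_num) hM1.le]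
  rw [h5] at h4
  calc ∑ m ∈ Finset.range M, ((m : ℝ) + 1) * y m
      ≤ ∑ m ∈ Finset.range M, 4 * ((2 * (m : ℝ) + 1) * y m * r ^ (2 * m + 1)) := by
        refine Finset.sum_le_sum fun m hm => ?_
        rw [Finset.mem_range] at hm
        have h7 : r ^ (2 * M) ≤ r ^ (2 * m + 1) :=
          pow_le_pow_of_le_one (by linarith) hr1.le (by omega)
        have h8 : (1 : ℝ) / 4 ≤ r ^ (2 * m + 1) := hrpow.trans h7
        have h9 : ((m : ℝ) + 1) * y m ≤ (2 * (m : ℝ) + 1) * y m :=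
          mul_le_mul_of_nonneg_right (by linarith [(Nat.cast_nonneg m : (0 : ℝ) ≤ m)]) (hy m)
        have h10 : 0 ≤ (2 * (m : ℝ) + 1) * y m := mul_nonneg (by positivity) (hy m)
        nlinarith
    _ = 4 * ∑ m ∈ Finset.range M, (2 * (m : ℝ) + 1) * y m * r ^ (2 * m + 1) := by
        rw [Finset.mul_sum]
    _ ≤ 4 * (C * ((2 : ℝ) ^ (2 / 5 : ℝ) * (M : ℝ) ^ (2 / 5 : ℝ))) := by linarith
    _ = _ := by ring

end Pool.Agent.H7.SZ
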