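import Pool.Agent.H7.SZ.Stm2

set_option autoImplicit false

/-! # SZ2-EXR (helper61): the root transform exists -/

namespace Pool.Agent.H7.SZ

open Metric Set Filter Topology

/-- a holomorphic logarithm on the unit disc (copied from `Pool/Agent/H64/BR/UNI.lean`) -/
theorem exr_log {N : ℂ → ℂ} (hN : DifferentiableOn ℂ N (ball 0 1)) (h0 : N 0 = 1)
    (hne : ∀ z ∈ ball (0 : ℂ) 1, N z ≠ 0) :
    ∃ H : ℂ → ℂ, DifferentiableOn ℂ H (ball 0 1) ∧ H 0 = 0 ∧
      ∀ z ∈ ball (0 : ℂ) 1, Complex.exp (H z) = N z := by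
  have hq : DifferentiableOn ℂ (fun z => deriv N z / N z) (ball 0 1) :=
    (hN.deriv isOpen_ball).div hN hne
  obtain ⟨H, hH0, hH⟩ := hq.isExactOn_ball.with_val_at 0 0
  have hHd : DifferentiableOn ℂ H (ball 0 1) := fun z hz =>
    (hH z hz).differentiableAt.differentiableWithinAt
  refine ⟨H, hHd, hH0, fun z hz => ?_⟩
  have hP : ∀ w ∈ ball (0 : ℂ) 1, HasDerivAt (fun z => Complex.exp (-H z) * N z) 0 w := by
    intro w hw
    have h1 : HasDerivAt N (deriv N w) w :=
      ((hN w hw).differentiableAt (isOpen_ball.mem_nhds hw)).hasDerivAt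
    have h2 := ((hH w hw).neg.cexp).mul h1
    have h4 := hne w hw
    have h3 : Complex.exp (-H w) * -(deriv N w / N w) * N w + Complex.exp (-H w) * deriv N w = 0 := by
      have h5 : deriv N w / N w * N w = deriv N w := div_mul_cancel₀ _ h4
      linear_combination -Complex.exp (-H w) * h5
    have h6 : HasDerivAt (fun z => Complex.exp (-H z) * N z)
        (Complex.exp (-H w) * -(deriv N w / N w) * N w + Complex.exp (-H w) * deriv N w) w := h2
    rw [h3] at h6
    exact h6
  have hc : (fun z => Complex.exp (-H z) * N z) z = (fun z => Complex.exp (-H z) * N z) 0 := by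
    have hconv : Convex ℝ (ball (0 : ℂ) 1) := convex_ball 0 1
    refine hconv.is_const_of_fderivWithin_eq_zero (𝕜 := ℂ)
      (f := fun z => Complex.exp (-H z) * N z) ?_ ?_ hz (mem_ball_self one_pos)
    · intro w hw
      exact (hP w hw).differentiableAt.differentiableWithinAt
    · intro w hw
      rw [fderivWithin_of_isOpen isOpen_ball hw]
      ext
      rw [fderiv_apply_one_eq_deriv, (hP w hw).deriv]
      simp
  simp only [hH0, h0, neg_zero, Complex.exp_zero, mul_one] at hc
  rw [Complex.exp_neg, inv_mul_eq_iff_eq_mul₀ (Complex.exp_ne_zero _), mul_one] at hc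
  exact hc.symm

theorem exr : S_EXR := by
  intro p f hp hf
  have hz0 : (0 : ℂ) ∈ ball (0 : ℂ) 1 := mem_ball_self one_pos
  have hp0 : p ≠ 0 := by omega
  have hpC : (p : ℂ) ≠ 0 := by exact_mod_cast hp0
  have hmem : ∀ z ∈ ball (0 : ℂ) 1, z ^ p ∈ ball (0 : ℂ) 1 := by
    intro z hz
    rw [mem_ball_zero_iff] at hz ⊢
    rw [norm_pow]
    exact pow_lt_one₀ (norm_nonneg _) hz hp0
  set N : ℂ → ℂ := dslope f 0 with hN
  have hNd : DifferentiableOn ℂ N (ball 0 1) :=
    (Complex.differentiableOn_dslope (isOpen_ball.mem_nhds hz0)).2 hf.diff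
  have hN0 : N 0 = 1 := by rw [hN, dslope_same, hf.one]
  have hNm : ∀ w, w * N w = f w := by
    intro w
    have := sub_smul_dslope f 0 w
    rw [hf.zero, sub_zero, sub_zero, smul_eq_mul] at this
    exact this
  have hNne : ∀ w ∈ ball (0 : ℂ) 1, N w ≠ 0 := by
    intro w hw h
    by_cases hw0 : w = 0
    · rw [hw0, hN0] at h; exact one_ne_zero h
    · have h2 := hNm w
      rw [h, mul_zero] at h2
      exact hw0 (hf.inj hw hz0 (by rw [hf.zero, ← h2]))
  obtain ⟨H, hHd, hH0, hHe⟩ := exr_log hNd hN0 hNne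
  have hφd : DifferentiableOn ℂ (fun z => Complex.exp (H z / p)) (ball 0 1) :=
    (hHd.div_const _).cexp
  have hcomp : DifferentiableOn ℂ (fun z : ℂ => Complex.exp (H (z ^ p) / p)) (ball 0 1) :=
    hφd.comp (by fun_prop : DifferentiableOn ℂ (fun z : ℂ => z ^ p) (ball 0 1)) hmem
  refine ⟨fun z => z * Complex.exp (H (z ^ p) / p), ?_, ?_, ?_⟩
  · exact differentiableOn_id.mul hcomp
  · intro z hz
    show (z * Complex.exp (H (z ^ p) / p)) ^ p = f (z ^ p)
    rw [mul_pow, ← Complex.exp_nat_mul, mul_div_cancel₀ _ hpC, hHe _ (hmem z hz), hNm]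
  · have h1 : HasDerivAt (fun z : ℂ => Complex.exp (H (z ^ p) / p))
        (deriv (fun z : ℂ => Complex.exp (H (z ^ p) / p)) 0) 0 :=
      ((hcomp 0 hz0).differentiableAt (isOpen_ball.mem_nhds hz0)).hasDerivAt
    have h2 := (hasDerivAt_id (0 : ℂ)).mul h1
    have h3 : deriv (fun z : ℂ => z * Complex.exp (H (z ^ p) / p)) 0 =
        1 * Complex.exp (H (0 ^ p) / p) + 0 * deriv (fun z : ℂ => Complex.exp (H (z ^ p) / p)) 0 := h2.deriv
    rw [h3, zero_pow hp0, hH0, zero_div, Complex.exp_zero]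
    simp

end Pool.Agent.H7.SZ
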