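import Pool.Agent.H7.SZ.Stm

set_option autoImplicit false

namespace Pool.Agent.H7.SZ

open Metric Set Filter Topology MeasureTheory
open scoped ENNReal

/-- `(1 - 1/M)^m ≥ 1/4` for `m < M` -/
theorem FINAux.quarter {M m : ℕ} (hM : 2 ≤ M) (hm : m < M) : (1 / 4 : ℝ) ≤ (1 - 1 / (M : ℝ)) ^ m := by
  obtain ⟨k, rfl⟩ : ∃ k, M = k + 2 := ⟨M - 2, by omega⟩
  have hk : (0 : ℝ) < (k : ℝ) + 1 := by positivity
  have hx : (1 - 1 / ((k + 2 : ℕ) : ℝ)) = (1 + 1 / ((k : ℝ) + 1))⁻¹ := by
    push_cast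
    field_simp
    ring
  rw [hx, inv_pow]
  have h1 : (1 + 1 / ((k : ℝ) + 1)) ^ m ≤ 4 := by
    have h2 : 1 + 1 / ((k : ℝ) + 1) ≤ Real.exp (1 / ((k : ℝ) + 1)) := by
      have := Real.add_one_le_exp (1 / ((k : ℝ) + 1))
      linarith
    calc (1 + 1 / ((k : ℝ) + 1)) ^ m ≤ Real.exp (1 / ((k : ℝ) + 1)) ^ m :=
          pow_le_pow_left₀ (by positivity) h2 m
      _ = Real.exp (m * (1 / ((k : ℝ) + 1))) := by rw [← Real.exp_nat_mul]
      _ ≤ Real.exp 1 := by
          apply Real.exp_le_exp.2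
          rw [mul_one_div, div_le_one hk]
          have : m ≤ k + 1 := by omega
          exact_mod_cast this
      _ ≤ 4 := by
          have := Real.exp_one_lt_d9
          linarith
  have h3 : 0 < (1 + 1 / ((k : ℝ) + 1)) ^ m := by positivity
  rw [one_div]
  exact inv_anti₀ h3 h1

theorem fin : S_FIN := by
  intro G E y C hC hE hy hG hY hEs
  refine ⟨|G 0| + C * (4 * C + C), by positivity, fun M hM => ?_⟩
  have hM1 : (1 : ℝ) ≤ M := by exact_mod_cast hM
  have hMp : (1 : ℝ) ≤ (M : ℝ) ^ (2 / 5 : ℝ) := Real.one_le_rpow hM1 (by norm_num)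
  have hM0 : (0 : ℝ) < M := by linarith
  rcases Nat.lt_or_ge M 2 with h | h
  · obtain rfl : M = 1 := by omega
    simp only [Finset.range_one, Finset.sum_singleton, Nat.cast_one, Real.one_rpow, mul_one]
    have h1 := le_abs_self (G 0)
    have h2 : 0 ≤ C * (4 * C + C) := by positivity
    linarith
  · have hsum : ∑ m ∈ Finset.range M, G m ≤ |G 0| +
        C * (∑ m ∈ Finset.range M, ((m : ℝ) + 1) ^ sg * E m +
          ∑ m ∈ Finset.range M, ((m : ℝ) + 1) * y m) := by
      calc ∑ m ∈ Finset.range M, G m ≤ ∑ m ∈ Finset.range M, ((if m = 0 then |G 0| else 0) +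
            C * (((m : ℝ) + 1) ^ sg * E m + ((m : ℝ) + 1) * y m)) := by
            refine Finset.sum_le_sum fun m _ => ?_
            have h0 : 0 ≤ C * (((m : ℝ) + 1) ^ sg * E m + ((m : ℝ) + 1) * y m) :=
              mul_nonneg hC (add_nonneg (mul_nonneg (by positivity) (hE m))
                (mul_nonneg (by positivity) (hy m)))
            rcases Nat.eq_zero_or_pos m with rfl | hm
            · rw [if_pos rfl]
              have := le_abs_self (G 0)
              linarith
            · rw [if_neg hm.ne', zero_add]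
              exact hG m hm
        _ = _ := by
            rw [Finset.sum_add_distrib, Finset.sum_ite_eq', if_pos (Finset.mem_range.2 (by omega)),
              ← Finset.mul_sum, Finset.sum_add_distrib]
    have hE1 : ∑ m ∈ Finset.range M, E m ≤ 4 * (C * (M : ℝ) ^ (2 / 5 - sg)) := by
      have hq0 : (0 : ℝ) ≤ 1 - 1 / (M : ℝ) := by
        rw [sub_nonneg, div_le_one hM0]
        exact hM1
      have h1 : ENNReal.ofReal (∑ m ∈ Finset.range M, (1 - 1 / (M : ℝ)) ^ m * E m) ≤
          ENNReal.ofReal (C * (M : ℝ) ^ (2 / 5 - sg)) := by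
        rw [ENNReal.ofReal_sum_of_nonneg fun m _ => mul_nonneg (pow_nonneg hq0 m) (hE m)]
        exact (ENNReal.sum_le_tsum _).trans (hEs M h)
      have h2 := (ENNReal.ofReal_le_ofReal_iff (by positivity)).1 h1
      calc ∑ m ∈ Finset.range M, E m ≤
            ∑ m ∈ Finset.range M, 4 * ((1 - 1 / (M : ℝ)) ^ m * E m) := by
            refine Finset.sum_le_sum fun m hm => ?_
            have h3 := FINAux.quarter h (Finset.mem_range.1 hm)
            have h4 := mul_le_mul_of_nonneg_right h3 (hE m)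
            linarith
        _ = 4 * ∑ m ∈ Finset.range M, (1 - 1 / (M : ℝ)) ^ m * E m := by rw [Finset.mul_sum]
        _ ≤ _ := by linarith
    have hE2 : ∑ m ∈ Finset.range M, ((m : ℝ) + 1) ^ sg * E m ≤
        4 * C * (M : ℝ) ^ (2 / 5 : ℝ) := by
      calc ∑ m ∈ Finset.range M, ((m : ℝ) + 1) ^ sg * E m ≤
            ∑ m ∈ Finset.range M, (M : ℝ) ^ sg * E m := by
            refine Finset.sum_le_sum fun m hm => ?_
            refine mul_le_mul_of_nonneg_right ?_ (hE m)
            refine Real.rpow_le_rpow (by positivity) ?_ (by norm_num [sg])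
            have : m + 1 ≤ M := Finset.mem_range.1 hm
            exact_mod_cast this
        _ = (M : ℝ) ^ sg * ∑ m ∈ Finset.range M, E m := by rw [Finset.mul_sum]
        _ ≤ (M : ℝ) ^ sg * (4 * (C * (M : ℝ) ^ (2 / 5 - sg))) :=
            mul_le_mul_of_nonneg_left hE1 (by positivity)
        _ = 4 * C * ((M : ℝ) ^ sg * (M : ℝ) ^ (2 / 5 - sg)) := by ring
        _ = _ := by
            rw [← Real.rpow_add hM0]
            congr 2
            ring
    have hY1 := hY M hM
    calc ∑ m ∈ Finset.range M, G m ≤ |G 0| +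
          C * (4 * C * (M : ℝ) ^ (2 / 5 : ℝ) + C * (M : ℝ) ^ (2 / 5 : ℝ)) :=
          hsum.trans (by gcongr)
      _ = |G 0| * 1 + C * (4 * C + C) * (M : ℝ) ^ (2 / 5 : ℝ) := by ring
      _ ≤ |G 0| * (M : ℝ) ^ (2 / 5 : ℝ) + C * (4 * C + C) * (M : ℝ) ^ (2 / 5 : ℝ) := by gcongr
      _ = _ := by ring

end Pool.Agent.H7.SZ
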