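import Pool.Agent.H7.SZ.Stm2
import Pool.Agent.H7.SZ.GW

/-!
# Project SZ, stub GWP: the growth of the `p`-th root transform, `p ≥ 5`
-/

set_option autoImplicit false

namespace Pool.Agent.H7.SZ

open Metric Set Filter Topology

theorem gwp_main {p : ℕ} (hp : 5 ≤ p) {f φ : ℂ → ℂ}
    (h0 : ∀ z : ℂ, ‖z‖ < 1 → ‖f z‖ ≤ ‖z‖ / (1 - ‖z‖) ^ 2)
    (h : ∀ z ∈ ball (0 : ℂ) 1, z * φ z ^ p = f z) {z : ℂ} (hz : z ∈ ball (0 : ℂ) 1) :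
    ‖z * φ (z ^ p)‖ ≤ (1 - ‖z‖) ^ (-(2 / 5) : ℝ) := by
  rw [mem_ball_zero_iff] at hz
  have hz0 := norm_nonneg z
  have h5 : ‖z ^ p‖ ≤ ‖z‖ := by
    rw [norm_pow]
    calc ‖z‖ ^ p ≤ ‖z‖ ^ 1 := pow_le_pow_of_le_one hz0 hz.le (by omega)
      _ = ‖z‖ := pow_one _
  have h51 : ‖z ^ p‖ < 1 := lt_of_le_of_lt h5 hz
  have e1 : (z * φ (z ^ p)) ^ p = f (z ^ p) := by
    rw [mul_pow, h (z ^ p) (by rwa [mem_ball_zero_iff])]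
  have g1 : 0 < 1 - ‖z‖ := by linarith
  have e2 : ‖z * φ (z ^ p)‖ ^ p ≤ ((1 - ‖z‖) ^ 2)⁻¹ := by
    rw [← norm_pow, e1]
    refine (h0 _ h51).trans ?_
    have g2 : 1 - ‖z‖ ≤ 1 - ‖z ^ p‖ := by linarith
    have g3 : (1 - ‖z‖) ^ 2 ≤ (1 - ‖z ^ p‖) ^ 2 := pow_le_pow_left₀ g1.le g2 2
    rw [div_eq_mul_inv]
    calc ‖z ^ p‖ * ((1 - ‖z ^ p‖) ^ 2)⁻¹ ≤ 1 * ((1 - ‖z ^ p‖) ^ 2)⁻¹ :=
          mul_le_mul_of_nonneg_right h51.le (by positivity)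
      _ = ((1 - ‖z ^ p‖) ^ 2)⁻¹ := one_mul _
      _ ≤ _ := inv_anti₀ (by positivity) g3
  have e3 : ((1 - ‖z‖) ^ (-(2 / 5) : ℝ)) ^ 5 = ((1 - ‖z‖) ^ 2)⁻¹ := by
    rw [← Real.rpow_natCast ((1 - ‖z‖) ^ (-(2 / 5) : ℝ)) 5, ← Real.rpow_mul g1.le]
    have : (-(2 / 5) : ℝ) * ((5 : ℕ) : ℝ) = -((2 : ℕ) : ℝ) := by norm_num
    rw [this, Real.rpow_neg g1.le, Real.rpow_natCast]
  rcases le_or_gt ‖z * φ (z ^ p)‖ 1 with hA | hA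
  · refine hA.trans ?_
    exact Real.one_le_rpow_of_pos_of_le_one_of_nonpos g1 (by linarith) (by norm_num)
  · have e4 : ‖z * φ (z ^ p)‖ ^ 5 ≤ ‖z * φ (z ^ p)‖ ^ p := pow_le_pow_right₀ hA.le hp
    have e5 := e4.trans e2
    rw [← e3] at e5
    exact le_of_pow_le_pow_left₀ (by norm_num) (by positivity) e5

theorem gwp : S_GWP := by
  intro p f φ hp hf _ _ h z hz
  exact gwp_main hp (fun z hz => gw_koebe hf hz) h hz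

end Pool.Agent.H7.SZ
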