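import Pool.Agent.H7.SZ.Stm
import Pool.Agent.H64.CX.BTU
import Pool.Agent.H64.CX.HID

set_option autoImplicit false

/-! # SZ-LOW (helper1): the negative part is finite, and the sum of all the coefficients is zero -/

namespace Pool.Agent.H7.SZ

open Metric Set Filter Topology MeasureTheory
open scoped ENNReal
open Pool.Agent.H64.CX (bt rr TP TN GD)

namespace LOW1

theorem ah_re : ah.re = -(1 / 2) := by
  unfold ah
  norm_num

theorem bt_bound : ∃ C : ℝ, 0 ≤ C ∧ ∀ j : ℕ, ‖bt ah j‖ ≤ C * ((j : ℝ) + 1) ^ (-(3 / 2) : ℝ) := by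
  obtain ⟨C, hC0, hC⟩ := Pool.Agent.H64.CX.btu ah
  refine ⟨C, hC0, fun j => ?_⟩
  have h := hC j
  rw [ah_re] at h
  norm_num at h ⊢
  exact h

theorem sum_pow {e : ℝ} (he : e < -1) : Summable fun k : ℕ => ((k : ℝ) + 1) ^ e := by
  have h2 : Summable fun k : ℕ => ((k : ℝ)) ^ e := Real.summable_nat_rpow.2 he
  have h3 := (summable_nat_add_iff 1).2 h2
  refine h3.congr fun m => ?_
  push_cast
  rfl

theorem bt_summable : Summable fun i : ℕ => bt ah i := by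
  obtain ⟨C, hC0, hC⟩ := bt_bound
  exact Summable.of_norm_bounded ((sum_pow (by norm_num)).mul_left C) hC

theorem bt_tsum : ∑' i : ℕ, bt ah i = 0 := by
  have h1 := bt_summable.hasSum.tendsto_sum_nat
  have h2 : Tendsto (fun n : ℕ => ∑ i ∈ Finset.range (n + 1), bt ah i) atTop
      (𝓝 (∑' i : ℕ, bt ah i)) := (tendsto_add_atTop_iff_nat 1).2 h1
  obtain ⟨C, hC0, hC⟩ := Pool.Agent.H64.CX.btu (ah + 1)
  have h3 : Tendsto (fun n : ℕ => ∑ i ∈ Finset.range (n + 1), bt ah i) atTop (𝓝 0) := by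
    rw [tendsto_zero_iff_norm_tendsto_zero]
    have h4 : Tendsto (fun n : ℕ => C * ((n : ℝ) + 1) ^ (-(1 / 2) : ℝ)) atTop (𝓝 0) := by
      have h5 := (tendsto_rpow_neg_atTop (by norm_num : (0 : ℝ) < 1 / 2)).comp
        (tendsto_atTop_add_const_right atTop (1 : ℝ) tendsto_natCast_atTop_atTop)
      have h6 := h5.const_mul C
      rwa [mul_zero] at h6
    refine squeeze_zero (fun _ => norm_nonneg _) (fun n => ?_) h4
    rw [Pool.Agent.H64.CX.bt_psum]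
    have h5 := hC n
    have h6 : (ah + 1).re - 1 = -(1 / 2) := by
      rw [Complex.add_re, ah_re, Complex.one_re]
      ring
    rwa [h6] at h5
  exact tendsto_nhds_unique h2 h3

/-- one row -/
theorem row (b : ℕ) : ∑ n ∈ Finset.range (b + 1), bt ah (b - n) +
    ∑' k : ℕ, bt ah (b + (k + 1)) = 0 := by
  have h1 := bt_summable.sum_add_tsum_nat_add (b + 1)
  rw [bt_tsum] at h1
  have h2 : ∑ n ∈ Finset.range (b + 1), bt ah (b - n) = ∑ n ∈ Finset.range (b + 1), bt ah n := by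
    rw [← Finset.sum_range_reflect (fun n => bt ah n) (b + 1)]
    refine Finset.sum_congr rfl fun n _ => ?_
    rw [Nat.add_sub_cancel]
  have h3 : ∑' k : ℕ, bt ah (b + (k + 1)) = ∑' k : ℕ, bt ah (k + (b + 1)) := by
    refine tsum_congr fun k => ?_
    rw [show b + (k + 1) = k + (b + 1) by ring]
  rw [h2, h3]
  exact h1

theorem row_summable (b : ℕ) : Summable fun k : ℕ => bt ah (b + (k + 1)) := by
  have h := (summable_nat_add_iff (b + 1)).2 bt_summable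
  refine h.congr fun k => ?_
  rw [show b + (k + 1) = k + (b + 1) by ring]

theorem TN_bound (ν : ℕ → ℕ → ℂ) (m : ℕ) : ∃ D : ℝ, 0 ≤ D ∧ ∀ k : ℕ,
    ‖TN ah ν (k + 1) m‖ ≤ D * ((k : ℝ) + 1) ^ (-(3 / 2) : ℝ) := by
  obtain ⟨C, hC0, hC⟩ := bt_bound
  refine ⟨(∑ b ∈ Finset.range (m + 1), ‖ν (m - b) b‖) * C,
    mul_nonneg (Finset.sum_nonneg fun _ _ => norm_nonneg _) hC0, fun k => ?_⟩
  unfold TN
  refine (norm_sum_le _ _).trans ?_
  rw [Finset.sum_mul, Finset.sum_mul]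
  refine Finset.sum_le_sum fun b _ => ?_
  rw [norm_mul, mul_assoc]
  refine mul_le_mul_of_nonneg_left ((hC _).trans ?_) (norm_nonneg _)
  refine mul_le_mul_of_nonneg_left ?_ hC0
  apply Real.rpow_le_rpow_of_nonpos (by positivity) _ (by norm_num)
  push_cast
  linarith [(Nat.cast_nonneg b : (0 : ℝ) ≤ b)]

theorem RR_ne_top (ν : ℕ → ℕ → ℂ) (m : ℕ) : RR ν m ≠ ⊤ := by
  obtain ⟨D, hD0, hD⟩ := TN_bound ν m
  obtain ⟨E, hE⟩ : ∃ E : ℝ, E = ((m : ℝ) + 2) ^ (1 - sg) := ⟨_, rfl⟩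
  have hE0 : 0 ≤ E := by rw [hE]; positivity
  have hsg : 0 ≤ 1 - sg := by unfold sg; norm_num
  have hS : Summable fun k : ℕ => E * D ^ 2 * ((k : ℝ) + 1) ^ (-(1 + sg)) :=
    (sum_pow (by unfold sg; norm_num)).mul_left _
  have hterm : ∀ k : ℕ, ((k : ℝ) + 1 / 2) * w (m + k + 1) * ‖TN ah ν (k + 1) m‖ ^ 2 ≤
      E * D ^ 2 * ((k : ℝ) + 1) ^ (-(1 + sg)) := by
    intro k
    have hk1 : (0 : ℝ) < (k : ℝ) + 1 := by positivity
    have hm0 : (0 : ℝ) ≤ m := Nat.cast_nonneg m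
    have hk0 : (0 : ℝ) ≤ k := Nat.cast_nonneg k
    have h1 : w (m + k + 1) ≤ E * ((k : ℝ) + 1) ^ (1 - sg) := by
      unfold w
      rw [hE, ← Real.mul_rpow (by positivity) (by positivity)]
      refine Real.rpow_le_rpow (by positivity) ?_ hsg
      push_cast
      nlinarith
    have h2 : ‖TN ah ν (k + 1) m‖ ^ 2 ≤ (D * ((k : ℝ) + 1) ^ (-(3 / 2) : ℝ)) ^ 2 :=
      pow_le_pow_left₀ (norm_nonneg _) (hD k) 2
    have h3 : ((k : ℝ) + 1) * ((k : ℝ) + 1) ^ (1 - sg) *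
        (((k : ℝ) + 1) ^ (-(3 / 2) : ℝ) * ((k : ℝ) + 1) ^ (-(3 / 2) : ℝ)) =
        ((k : ℝ) + 1) ^ (-(1 + sg)) := by
      calc ((k : ℝ) + 1) * ((k : ℝ) + 1) ^ (1 - sg) *
            (((k : ℝ) + 1) ^ (-(3 / 2) : ℝ) * ((k : ℝ) + 1) ^ (-(3 / 2) : ℝ)) =
            ((k : ℝ) + 1) ^ (1 : ℝ) * ((k : ℝ) + 1) ^ (1 - sg) *
            (((k : ℝ) + 1) ^ (-(3 / 2) : ℝ) * ((k : ℝ) + 1) ^ (-(3 / 2) : ℝ)) := by
            rw [Real.rpow_one]
        _ = _ := by
          rw [← Real.rpow_add hk1, ← Real.rpow_add hk1, ← Real.rpow_add hk1]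
          congr 1
          ring
    have hw0 : 0 ≤ w (m + k + 1) := by unfold w; positivity
    calc ((k : ℝ) + 1 / 2) * w (m + k + 1) * ‖TN ah ν (k + 1) m‖ ^ 2 ≤
          (((k : ℝ) + 1) * (E * ((k : ℝ) + 1) ^ (1 - sg))) *
            (D * ((k : ℝ) + 1) ^ (-(3 / 2) : ℝ)) ^ 2 := by
          refine mul_le_mul ?_ h2 (sq_nonneg _) (by positivity)
          exact mul_le_mul (by linarith) h1 hw0 hk1.le
      _ = E * D ^ 2 * (((k : ℝ) + 1) * ((k : ℝ) + 1) ^ (1 - sg) *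
          (((k : ℝ) + 1) ^ (-(3 / 2) : ℝ) * ((k : ℝ) + 1) ^ (-(3 / 2) : ℝ))) := by ring
      _ = _ := by rw [h3]
  have h : RR ν m ≤ ENNReal.ofReal (∑' k : ℕ, E * D ^ 2 * ((k : ℝ) + 1) ^ (-(1 + sg))) := by
    unfold RR
    calc _ ≤ ∑' k : ℕ, ENNReal.ofReal (E * D ^ 2 * ((k : ℝ) + 1) ^ (-(1 + sg))) :=
          ENNReal.tsum_le_tsum fun k => ENNReal.ofReal_le_ofReal (hterm k)
      _ = _ := (ENNReal.ofReal_tsum_of_nonneg (fun k => by positivity) hS).symm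
  exact ne_top_of_le_ne_top ENNReal.ofReal_ne_top h

end LOW1

open LOW1

theorem low : S_LOW := by
  intro ν m
  refine ⟨RR_ne_top ν m, ?_, ?_⟩
  · obtain ⟨D, hD0, hD⟩ := TN_bound ν m
    exact Summable.of_norm_bounded ((sum_pow (by norm_num)).mul_left D) hD
  · have h1 : ∑' k : ℕ, TN ah ν (k + 1) m =
        ∑ b ∈ Finset.range (m + 1), ν (m - b) b * ∑' k : ℕ, bt ah (b + (k + 1)) := by
      unfold TN
      rw [Summable.tsum_finsetSum fun b _ => (row_summable b).mul_left _]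
      refine Finset.sum_congr rfl fun b _ => ?_
      rw [tsum_mul_left]
    have h2 : ∑ n ∈ Finset.range (m + 1), TP ah ν n m =
        ∑ b ∈ Finset.range (m + 1), ν (m - b) b * ∑ n ∈ Finset.range (b + 1), bt ah (b - n) := by
      unfold TP
      simp_rw [Finset.mul_sum]
      apply Finset.sum_comm'
      intro n b
      simp only [Finset.mem_range, Finset.mem_Ico]
      omega
    rw [h1, h2, ← Finset.sum_add_distrib]
    refine Finset.sum_eq_zero fun b _ => ?_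
    rw [← mul_add, row, mul_zero]

end Pool.Agent.H7.SZ
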