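import Pool.Agent.H7.SZ.Stm

set_option autoImplicit false

/-! # SZ-PERM (helper96): the quadratic inequality for the coefficients -/

namespace Pool.Agent.H7.SZ

open Metric Set Filter Topology MeasureTheory
open scoped ENNReal
open Pool.Agent.H64.CX (bt rr TP TN GD)

namespace PERM

lemma w_pos (j : ℕ) : 0 < w j := Real.rpow_pos_of_pos (by positivity) _

lemma tr_pos {ε : ℝ} (hε : 0 < ε) {m n : ℕ} (hm : 1 ≤ m) (hn : 1 ≤ n) : 0 < tr ε m n := by
  have h1 : (0 : ℝ) < m := by exact_mod_cast hm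
  have h2 : (0 : ℝ) < n := by exact_mod_cast hn
  exact lt_min one_pos (Real.rpow_pos_of_pos (by positivity) _)

lemma tr_nonneg {ε : ℝ} (hε : 0 < ε) (m n : ℕ) : 0 ≤ tr ε m n :=
  le_min zero_le_one (Real.rpow_nonneg (by positivity) _)

lemma tr_ge {ε : ℝ} (hε : 0 < ε) (hε1 : ε ≤ 1 / 2) {m n : ℕ} (hm : 1 ≤ m) (hn : n ≤ m) :
    (n : ℝ) / ((m : ℝ) + 1) ≤ tr ε m n := by
  have h1 : (0 : ℝ) < m := by exact_mod_cast hm
  have h2 : (0 : ℝ) ≤ n := Nat.cast_nonneg _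
  have h3 : (n : ℝ) ≤ m := by exact_mod_cast hn
  have h4 : (n : ℝ) / ((m : ℝ) + 1) ≤ n / m := by gcongr; linarith
  have h5 : (n : ℝ) / m ≤ 1 := by rw [div_le_one h1]; exact h3
  have h6 : (n : ℝ) / m ≤ n / (ε * m) := by
    apply div_le_div_of_nonneg_left h2 (by positivity)
    nlinarith
  refine le_min (h4.trans h5) (h4.trans ?_)
  have h7 : 0 ≤ (n : ℝ) / m := by positivity
  calc (n : ℝ) / m = (n / m : ℝ) ^ (1 : ℝ) := (Real.rpow_one _).symm
    _ ≤ (n / m : ℝ) ^ (1 / 2 : ℝ) := by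
        rcases eq_or_lt_of_le h7 with h | h
        · rw [← h, Real.zero_rpow (by norm_num), Real.zero_rpow (by norm_num)]
        · exact Real.rpow_le_rpow_of_exponent_ge h h5 (by norm_num)
    _ ≤ _ := Real.rpow_le_rpow h7 h6 (by norm_num)

/-- Cauchy's inequality -/
lemma cauchy (s : Finset ℕ) (b : ℕ → ℝ) (t : ℕ → ℂ) (V : ℕ → ℝ) (hV : ∀ n ∈ s, 0 < V n) :
    ‖∑ n ∈ s, (b n : ℂ) * t n‖ ^ 2 ≤ (∑ n ∈ s, b n ^ 2 / V n) * ∑ n ∈ s, V n * ‖t n‖ ^ 2 := by
  have h1 : ‖∑ n ∈ s, (b n : ℂ) * t n‖ ≤ ∑ n ∈ s, |b n| * ‖t n‖ := by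
    refine (norm_sum_le _ _).trans (le_of_eq ?_)
    refine Finset.sum_congr rfl fun n _ => ?_
    rw [norm_mul, Complex.norm_real, Real.norm_eq_abs]
  refine (pow_le_pow_left₀ (norm_nonneg _) h1 2).trans ?_
  refine Finset.sum_sq_le_sum_mul_sum_of_sq_eq_mul s
    (fun n hn => by have := hV n hn; positivity) (fun n hn => by have := hV n hn; positivity)
    fun n hn => ?_
  have := (hV n hn).ne'
  rw [mul_pow, sq_abs]
  field_simp

lemma TP_diag (ν : ℕ → ℕ → ℂ) (m : ℕ) : TP ah ν m m = ν 0 m := by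
  unfold TP
  rw [Nat.Ico_succ_singleton, Finset.sum_singleton]
  simp [bt]

end PERM

open PERM in
theorem perm : S_A1 → S_A2 → S_A3 → S_ABS → S_REDF → S_LOW → S_PERM := by
  intro hA1 hA2 hA3 hABS hRED hLOW
  obtain ⟨ε, θ, C, m₀, b, hε, hε1, hθ, hθ1, hC, hred⟩ := hRED
  obtain ⟨δ, C', m₁, hδ, hC', habs⟩ := hABS hA1 hA2 hA3 ε θ C hε hε1 hθ hθ1 hC
  refine ⟨δ, C', max (max m₀ m₁) 1, hδ, hC', ?_⟩
  intro ν hν m hm
  have hm0 : m₀ ≤ m := le_trans (le_trans (le_max_left _ _) (le_max_left _ _)) hm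
  have hm1 : m₁ ≤ m := le_trans (le_trans (le_max_right _ _) (le_max_left _ _)) hm
  have hm2 : 1 ≤ m := le_trans (le_max_right _ _) hm
  obtain ⟨r1, r2, r3, r4, r5, r6, r7⟩ := hred m hm0
  have r1' := r1 ν hν
  obtain ⟨-, l2, l3⟩ := hLOW ν m
  set t : ℕ → ℂ := fun n => TP ah ν n m with ht
  set y : ℂ := ν 0 m with hy
  set g : ℕ → ℂ := fun k => ∑ n ∈ Finset.Ico 1 m, (b m k n : ℂ) * t n with hg
  set V : ℕ → ℝ := fun n => (n : ℝ) * w (m - n) * tr ε m n with hVd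
  set E' : ℝ := ∑ n ∈ Finset.range m, (n : ℝ) * w (m - n) * tr ε m n * ‖t n‖ ^ 2 with hE'
  have hV : ∀ n ∈ Finset.Ico 1 m, 0 < V n := by
    intro n hn
    rw [Finset.mem_Ico] at hn
    have h1 : (0 : ℝ) < n := by exact_mod_cast hn.1
    exact mul_pos (mul_pos h1 (w_pos _)) (tr_pos hε hm2 hn.1)
  have hEV : ∑ n ∈ Finset.Ico 1 m, V n * ‖t n‖ ^ 2 = E' := by
    rw [hE']
    refine Finset.sum_subset (fun n hn => Finset.mem_range.2 (Finset.mem_Ico.1 hn).2) ?_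
    intro n hn hn'
    rw [Finset.mem_range] at hn
    rw [Finset.mem_Ico] at hn'
    have h0 : n = 0 := by omega
    subst h0
    simp [hVd]
  have hE0 : 0 ≤ E' := by
    rw [← hEV]
    exact Finset.sum_nonneg fun n hn => mul_nonneg (hV n hn).le (sq_nonneg _)
  have hTN : ∀ k : ℕ, TN ah ν (k + 1) m = g k + (b m k m : ℂ) * y := by
    intro k
    rw [r1' k]
    have h1 : Finset.Icc 1 m = insert m (Finset.Ico 1 m) := by
      ext n
      simp only [Finset.mem_Icc, Finset.mem_insert, Finset.mem_Ico]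
      omega
    rw [h1, Finset.sum_insert (by simp), TP_diag, add_comm]
  have hgk : ∀ k : ℕ, ‖g k‖ ^ 2 ≤ (∑ n ∈ Finset.Ico 1 m, b m k n ^ 2 / V n) * E' := by
    intro k
    rw [← hEV]
    exact cauchy (Finset.Ico 1 m) (b m k) t V hV
  have hsub : ∀ (u : ℕ → ℝ) (c : ℝ), (∀ k, 0 ≤ u k) → 0 ≤ c →
      ∑' k : ℕ, ENNReal.ofReal (u k * ∑ n ∈ Finset.Ico 1 m, b m k n ^ 2 / V n) ≤ ENNReal.ofReal c →
      ∑' k : ℕ, ENNReal.ofReal (u k * ‖g k‖ ^ 2) ≤ ENNReal.ofReal (c * E') := by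
    intro u c hu hc h
    calc ∑' k : ℕ, ENNReal.ofReal (u k * ‖g k‖ ^ 2) ≤
        ∑' k : ℕ, ENNReal.ofReal (u k * ∑ n ∈ Finset.Ico 1 m, b m k n ^ 2 / V n) *
          ENNReal.ofReal E' := by
          refine ENNReal.tsum_le_tsum fun k => ?_
          have h0 : 0 ≤ ∑ n ∈ Finset.Ico 1 m, b m k n ^ 2 / V n :=
            Finset.sum_nonneg fun n hn => div_nonneg (sq_nonneg _) (hV n hn).le
          rw [← ENNReal.ofReal_mul (mul_nonneg (hu k) h0)]
          refine ENNReal.ofReal_le_ofReal ?_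
          rw [mul_assoc]
          exact mul_le_mul_of_nonneg_left (hgk k) (hu k)
      _ = (∑' k : ℕ, ENNReal.ofReal (u k * ∑ n ∈ Finset.Ico 1 m, b m k n ^ 2 / V n)) *
          ENNReal.ofReal E' := ENNReal.tsum_mul_right
      _ ≤ ENNReal.ofReal c * ENNReal.ofReal E' := by gcongr
      _ = _ := (ENNReal.ofReal_mul hc).symm
  have hbs : Summable fun k : ℕ => (b m k m : ℂ) * y :=
    (Complex.ofRealCLM.summable r6).mul_right y
  have hgs : Summable g := by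
    have h1 := l2.sub hbs
    refine h1.congr fun k => ?_
    rw [hTN k]
    ring
  have hmx : ∀ k, 0 ≤ mx m k := fun k => zero_le_one.trans (le_max_left _ _)
  have key := habs m hm1 t g y (fun k => b m k m) E' rfl
    (hsub (fun k => ((k : ℝ) + 1) * w (m + k + 1)) θ
      (fun k => mul_nonneg (by positivity) (w_pos _).le) hθ r2)
    (hsub (fun k => ((k : ℝ) + 1) * w (m + k + 1) * mx m k) C
      (fun k => mul_nonneg (mul_nonneg (by positivity) (w_pos _).le) (hmx k)) hC r3)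
    r4 r5 r6 r7 hgs (by
      rw [Finset.sum_range_succ, TP_diag] at l3
      rw [← l3]
      congr 1
      exact tsum_congr fun k => (hTN k).symm)
  have hRR : RR ν m = ∑' k : ℕ, ENNReal.ofReal (((k : ℝ) + 1 / 2) * w (m + k + 1) *
      ‖g k + (b m k m : ℂ) * y‖ ^ 2) := by
    unfold RR
    exact tsum_congr fun k => by rw [hTN k]
  have hEM : EM ν m ≤ E' := by
    unfold EM
    rw [hE']
    refine Finset.sum_le_sum fun n hn => ?_
    rw [Finset.mem_range] at hn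
    have h1 := tr_ge hε hε1 hm2 hn.le
    have h2 : (n : ℝ) ^ 2 / ((m : ℝ) + 1) * w (m - n) ≤ (n : ℝ) * w (m - n) * tr ε m n := by
      have h3 : (n : ℝ) ^ 2 / ((m : ℝ) + 1) = n * (n / ((m : ℝ) + 1)) := by ring
      rw [h3]
      have h4 : 0 ≤ (n : ℝ) * w (m - n) := mul_nonneg (Nat.cast_nonneg _) (w_pos _).le
      calc (n : ℝ) * (n / ((m : ℝ) + 1)) * w (m - n) = (n * w (m - n)) * (n / ((m : ℝ) + 1)) := by
            ring
        _ ≤ _ := mul_le_mul_of_nonneg_left h1 h4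
    exact mul_le_mul_of_nonneg_right h2 (sq_nonneg _)
  rw [hRR]
  refine le_trans ?_ key
  refine add_le_add le_rfl (ENNReal.ofReal_le_ofReal ?_)
  exact mul_le_mul_of_nonneg_left hEM hδ.le

end Pool.Agent.H7.SZ
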