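import Pool.Agent.H7.SZ.Stm
import Pool.Agent.H64.CX.AREA

set_option autoImplicit false

/-! # SZ-POL: the Taylor coefficients in `ζ` are polynomials in `1 / (v K (0, v²))` -/

namespace Pool.Agent.H7.SZ

open Metric Set Filter Topology
open Pool.Agent.W5h41.MA (cf cf_hasSum cf_deriv slit)
open Pool.Agent.H64.CX (bt rr TP TN)
open Pool.Agent.H64.CX.AREA (pw_hasSum)
open Pool.Agent.H7.CY (ej hasSum_cauchy ser_unique fibre)

namespace POL

variable {F : ℂ → ℂ} {K : ℂ × ℂ → ℂ} {ν : ℕ → ℕ → ℂ}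

theorem hs_congr {f g : ℕ → ℂ} {a : ℂ} (h : HasSum f a) (e : ∀ n, g n = f n) : HasSum g a := by
  rw [show g = f from funext e]
  exact h

/-- the function `K (s, z) (1 - s / z) ^ (1 / 2)` -/
noncomputable def G (K : ℂ × ℂ → ℂ) (z s : ℂ) : ℂ :=
  K (s, z) * Complex.exp (-ah * Complex.log (1 - s * z⁻¹))

/-- its power series in `s` -/
theorem ej_hasSum (hν : Se K ν)
    {z : ℂ} (hz1 : ‖z‖ < 1) {ζ : ℂ} (hζ : ζ ∈ ball (0 : ℂ) ‖z‖) :
    HasSum (fun j : ℕ => ej ah ν j z * ζ ^ j) (G K z ζ) := by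
  have hζn : ‖ζ‖ < ‖z‖ := mem_ball_zero_iff.1 hζ
  have hz0 : 0 < ‖z‖ := (norm_nonneg _).trans_lt hζn
  have hx : ‖ζ * z⁻¹‖ < 1 := by
    rw [norm_mul, norm_inv, ← div_eq_mul_inv, div_lt_one hz0]
    exact hζn
  have h1 : HasSum (fun a : ℕ => (∑' b : ℕ, ν a b * z ^ b) * ζ ^ a) (K (ζ, z)) :=
    (fibre (K := fun ζ z => K (ζ, z)) hν.2).1 ζ
    (mem_ball_zero_iff.2 (hζn.trans hz1)) z (mem_ball_zero_iff.2 hz1)
  have h2 := pw_hasSum ah hx
  have h3 : HasSum (fun j : ℕ => (bt ah j * (z⁻¹) ^ j) * ζ ^ j)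
      (Complex.exp (-ah * Complex.log (1 - ζ * z⁻¹))) := by
    refine hs_congr h2 ?_
    intro j
    rw [mul_pow]
    ring
  unfold ej G
  exact hasSum_cauchy (a := fun i => ∑' b : ℕ, ν i b * z ^ b)
    (b := fun n => bt ah n * (z⁻¹) ^ n) h1 h3

theorem G_sq (HK : Kr F K) {z : ℂ} (hz0 : z ≠ 0) (hz1 : ‖z‖ < 1) {ζ : ℂ}
    (hζ : ζ ∈ ball (0 : ℂ) ‖z‖) : G K z ζ ^ 2 = (F z - F ζ) * z⁻¹ := by
  have hζn : ‖ζ‖ < ‖z‖ := mem_ball_zero_iff.1 hζ
  have hs := slit hζn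
  have h1 := HK.sq ζ (mem_ball_zero_iff.2 (hζn.trans hz1)) z (mem_ball_zero_iff.2 hz1)
  unfold G
  rw [mul_pow, ← Complex.exp_nat_mul]
  have h2 : ((2 : ℕ) : ℂ) * (-ah * Complex.log (1 - ζ * z⁻¹)) = Complex.log (1 - ζ * z⁻¹) := by
    unfold ah
    push_cast
    ring
  rw [h2, Complex.exp_log (Complex.slitPlane_ne_zero hs), ← h1]
  field_simp

theorem G_diff (HK : Kr F K) {z : ℂ} (hz1 : ‖z‖ < 1) {ζ : ℂ}
    (hζ : ζ ∈ ball (0 : ℂ) ‖z‖) : DifferentiableAt ℂ (G K z) ζ := by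
  have hζn : ‖ζ‖ < ‖z‖ := mem_ball_zero_iff.1 hζ
  have hzb : z ∈ ball (0 : ℂ) 1 := mem_ball_zero_iff.2 hz1
  have hζb : ζ ∈ ball (0 : ℂ) 1 := mem_ball_zero_iff.2 (hζn.trans hz1)
  have h1 : DifferentiableAt ℂ K (ζ, z) :=
    HK.diff.differentiableAt ((isOpen_ball.prod isOpen_ball).mem_nhds (Set.mk_mem_prod hζb hzb))
  have h2 : DifferentiableAt ℂ (fun s : ℂ => K (s, z)) ζ :=
    DifferentiableAt.comp (f := fun s : ℂ => (s, z)) ζ h1
      (differentiableAt_id.prodMk (differentiableAt_const z))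
  unfold G
  apply h2.mul
  apply DifferentiableAt.cexp
  apply DifferentiableAt.const_mul
  apply DifferentiableAt.clog
  · exact (differentiableAt_id.mul_const _).const_sub 1
  · exact slit hζn

/-- the differential equation -/
theorem ode (S : Sc F) (HK : Kr F K) {z : ℂ} (hz0 : z ≠ 0) (hz1 : ‖z‖ < 1) {ζ : ℂ}
    (hζ : ζ ∈ ball (0 : ℂ) ‖z‖) :
    (F z - F ζ) * deriv (G K z) ζ = -(1 / 2) * (deriv F ζ * G K z ζ) := by
  have hζn : ‖ζ‖ < ‖z‖ := mem_ball_zero_iff.1 hζ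
  have hζb : ζ ∈ ball (0 : ℂ) 1 := mem_ball_zero_iff.2 (hζn.trans hz1)
  have h1 := (G_diff HK hz1 hζ).hasDerivAt.pow 2
  have h3 : HasDerivAt (fun s => (F z - F s) * z⁻¹) (-deriv F ζ * z⁻¹) ζ :=
    (((S.diff.differentiableAt (isOpen_ball.mem_nhds hζb)).hasDerivAt).const_sub (F z)).mul_const _
  have hev : (fun s => G K z s ^ 2) =ᶠ[𝓝 ζ] fun s => (F z - F s) * z⁻¹ := by
    filter_upwards [isOpen_ball.mem_nhds hζ] with s hs
    exact G_sq HK hz0 hz1 hs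
  have h4 := h1.unique (h3.congr_of_eventuallyEq hev)
  have h5 := G_sq HK hz0 hz1 hζ
  norm_num at h4
  have h6 : z * z⁻¹ = 1 := mul_inv_cancel₀ hz0
  linear_combination (z * G K z ζ / 2) * h4 - (z * deriv (G K z) ζ) * h5 -
    (1 / 2 * (deriv F ζ * G K z ζ) + (F z - F ζ) * deriv (G K z) ζ) * h6

/-- the series of the derivative -/
theorem ej_deriv (HK : Kr F K) (hν : Se K ν)
    {z : ℂ} (hz0 : z ≠ 0) (hz1 : ‖z‖ < 1) {ζ : ℂ} (hζ : ζ ∈ ball (0 : ℂ) ‖z‖) :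
    HasSum (fun j : ℕ => (((j : ℂ) + 1) * ej ah ν (j + 1) z) * ζ ^ j) (deriv (G K z) ζ) := by
  have hr : 0 < ‖z‖ := norm_pos_iff.2 hz0
  have hFd : DifferentiableOn ℂ (G K z) (ball 0 ‖z‖) := fun s hs =>
    (G_diff HK hz1 hs).differentiableWithinAt
  have hcf : ∀ n, cf n (G K z) = ej ah ν n z :=
    ser_unique hr (fun ζ hζ => cf_hasSum hFd hζ) (fun ζ hζ => ej_hasSum hν hz1 hζ)
  refine hs_congr (cf_hasSum (hFd.deriv isOpen_ball) hζ) fun n => ?_
  rw [cf_deriv, hcf]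

/-- the series of the base -/
theorem u_hasSum (S : Sc F) (w : ℂ) {ζ : ℂ} (hζ : ζ ∈ ball (0 : ℂ) 1) :
    HasSum (fun j : ℕ => ((if j = 0 then w else 0) - cf j F) * ζ ^ j) (w - F ζ) := by
  have h1 := hasSum_ite_eq (0 : ℕ) w
  refine hs_congr (h1.sub (cf_hasSum S.diff hζ)) fun n => ?_
  by_cases hn : n = 0
  · subst hn
    simp
  · simp [hn]

/-- the series of the derivative of the base -/
theorem u_deriv (S : Sc F) {ζ : ℂ} (hζ : ζ ∈ ball (0 : ℂ) 1) :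
    HasSum (fun j : ℕ => (((j : ℂ) + 1) * cf (j + 1) F) * ζ ^ j) (deriv F ζ) := by
  refine hs_congr (cf_hasSum (S.diff.deriv isOpen_ball) hζ) fun n => ?_
  rw [cf_deriv]

/-- the recursion for the coefficients -/
theorem recur (S : Sc F) (HK : Kr F K) (hν : Se K ν)
    {z : ℂ} (hz0 : z ≠ 0) (hz1 : ‖z‖ < 1) (j : ℕ) :
    ∑ i ∈ Finset.range (j + 1), ((if i = 0 then F z else 0) - cf i F) *
        ((((j - i : ℕ) : ℂ) + 1) * ej ah ν (j - i + 1) z) =
      -(1 / 2) * ∑ i ∈ Finset.range (j + 1), (((i : ℂ) + 1) * cf (i + 1) F) * ej ah ν (j - i) z := by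
  have hr : 0 < ‖z‖ := norm_pos_iff.2 hz0
  have hsub : ball (0 : ℂ) ‖z‖ ⊆ ball 0 1 := ball_subset_ball hz1.le
  have e1 : ∀ ζ ∈ ball (0 : ℂ) ‖z‖, HasSum (fun n : ℕ => (∑ i ∈ Finset.range (n + 1),
      ((if i = 0 then F z else 0) - cf i F) *
        ((((n - i : ℕ) : ℂ) + 1) * ej ah ν (n - i + 1) z)) * ζ ^ n)
      ((F z - F ζ) * deriv (G K z) ζ) := by
    intro ζ hζ
    have h1 := u_hasSum S (F z) (hsub hζ)
    have h2 := ej_deriv HK hν hz0 hz1 hζ
    exact hasSum_cauchy (a := fun i => (if i = 0 then F z else 0) - cf i F)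
      (b := fun n => ((n : ℂ) + 1) * ej ah ν (n + 1) z) h1 h2
  have e2 : ∀ ζ ∈ ball (0 : ℂ) ‖z‖, HasSum (fun n : ℕ => (-(1 / 2) * ∑ i ∈ Finset.range (n + 1),
      (((i : ℂ) + 1) * cf (i + 1) F) * ej ah ν (n - i) z) * ζ ^ n)
      ((F z - F ζ) * deriv (G K z) ζ) := by
    intro ζ hζ
    rw [ode S HK hz0 hz1 hζ]
    have h1 := (hasSum_cauchy (a := fun i => ((i : ℂ) + 1) * cf (i + 1) F)
      (b := fun n => ej ah ν n z) (u_deriv S (hsub hζ)) (ej_hasSum hν hz1 hζ)).mul_left (-(1 / 2) : ℂ)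
    refine hs_congr h1 fun n => ?_
    rw [mul_assoc]
  exact ser_unique (f := fun ζ => (F z - F ζ) * deriv (G K z) ζ) hr e1 e2 j

/-- the coefficient of order zero -/
theorem ej_zero (hν : Se K ν) {z : ℂ} (hz0 : z ≠ 0) (hz1 : ‖z‖ < 1) :
    ej ah ν 0 z = K (0, z) := by
  have h0 : (0 : ℂ) ∈ ball (0 : ℂ) ‖z‖ := by
    rw [mem_ball_zero_iff, norm_zero]
    exact norm_pos_iff.2 hz0
  have h1 := ej_hasSum hν hz1 h0
  have h2 : HasSum (fun j : ℕ => ej ah ν j z * (0 : ℂ) ^ j) (ej ah ν 0 z) := by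
    have := hasSum_single (f := fun j : ℕ => ej ah ν j z * (0 : ℂ) ^ j) 0 (fun n hn => by
      simp [zero_pow hn])
    simpa using this
  rw [h2.unique h1]
  unfold G
  simp

theorem F_zero (S : Sc F) : cf 0 F = 0 := by
  unfold cf
  simp [S.zero]

/-- the recursion, solved for the coefficient of the highest order -/
theorem recur' (S : Sc F) (HK : Kr F K) (hν : Se K ν)
    {z : ℂ} (hz0 : z ≠ 0) (hz1 : ‖z‖ < 1) (j : ℕ) :
    F z * (((j : ℂ) + 1) * ej ah ν (j + 1) z) =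
      ∑ i ∈ Finset.range j, cf (i + 1) F *
        ((((j - (i + 1) : ℕ) : ℂ) + 1) * ej ah ν (j - (i + 1) + 1) z) -
      (1 / 2) * (∑ i ∈ Finset.range j, (((i : ℂ) + 1) * cf (i + 1) F) * ej ah ν (j - i) z +
        ((j : ℂ) + 1) * cf (j + 1) F * K (0, z)) := by
  have h1 := recur S HK hν hz0 hz1 j
  rw [Finset.sum_range_succ', Finset.sum_range_succ] at h1
  rw [F_zero S] at h1
  simp only [Nat.succ_ne_zero, if_false, zero_sub, if_true, sub_zero, Nat.sub_zero,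
    Nat.sub_self, neg_mul, Finset.sum_neg_distrib, ej_zero hν hz0 hz1] at h1
  linear_combination h1

end POL

open POL in
theorem pol : S_POL := by
  intro F K ν S HK hν j
  induction j using Nat.strong_induction_on with
  | _ j ih =>
    intro hj1
    obtain ⟨j, rfl⟩ : ∃ i, j = i + 1 := ⟨j - 1, by omega⟩
    choose! P hP using ih
    refine ⟨Polynomial.C (((j : ℂ) + 1)⁻¹) *
      (Polynomial.X ^ 2 * (∑ i ∈ Finset.range j, Polynomial.C (cf (i + 1) F *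
          (((j - (i + 1) : ℕ) : ℂ) + 1)) * P (j - (i + 1) + 1) -
        Polynomial.C (1 / 2) * ∑ i ∈ Finset.range j,
          Polynomial.C (((i : ℂ) + 1) * cf (i + 1) F) * P (j - i)) -
        Polynomial.C ((1 / 2) * (((j : ℂ) + 1) * cf (j + 1) F)) * Polynomial.X), ?_⟩
    intro v hv0 hv1
    have hz0 : v ^ 2 ≠ 0 := pow_ne_zero 2 hv0
    have hz1 : ‖v ^ 2‖ < 1 := by
      rw [norm_pow]
      exact pow_lt_one₀ (norm_nonneg _) hv1 two_ne_zero
    have hz1b : v ^ 2 ∈ ball (0 : ℂ) 1 := mem_ball_zero_iff.2 hz1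
    have hFz : F (v ^ 2) ≠ 0 := by
      intro h
      apply hz0
      exact S.inj hz1b (mem_ball_self one_pos) (by rw [h, S.zero])
    have hKF : K (0, v ^ 2) ^ 2 * v ^ 2 = F (v ^ 2) := by
      have := HK.sq 0 (mem_ball_self one_pos) (v ^ 2) hz1b
      rw [S.zero, sub_zero, sub_zero] at this
      exact this
    have hK0 : K (0, v ^ 2) ≠ 0 := by
      intro h
      rw [h] at hKF
      apply hFz
      rw [← hKF]
      simp
    have hj : ((j : ℂ) + 1) ≠ 0 := by exact_mod_cast Nat.succ_ne_zero j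
    have hrec := recur' S HK hν hz0 hz1 j
    set u : ℂ := (K (0, v ^ 2))⁻¹ / v with hu
    rw [Polynomial.eval_mul, Polynomial.eval_C, Polynomial.eval_sub, Polynomial.eval_mul,
      Polynomial.eval_sub, Polynomial.eval_mul, Polynomial.eval_mul, Polynomial.eval_C,
      Polynomial.eval_C, Polynomial.eval_X, Polynomial.eval_pow, Polynomial.eval_X,
      Polynomial.eval_finsetSum, Polynomial.eval_finsetSum]
    have h3 : ∑ i ∈ Finset.range j, Polynomial.eval u (Polynomial.C (cf (i + 1) F *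
          (((j - (i + 1) : ℕ) : ℂ) + 1)) * P (j - (i + 1) + 1)) =
        v * ∑ i ∈ Finset.range j, cf (i + 1) F *
        ((((j - (i + 1) : ℕ) : ℂ) + 1) * ej ah ν (j - (i + 1) + 1) (v ^ 2)) := by
      rw [Finset.mul_sum]
      apply Finset.sum_congr rfl
      intro i hi
      rw [Finset.mem_range] at hi
      rw [Polynomial.eval_mul, Polynomial.eval_C,
        ← hP (j - (i + 1) + 1) (by omega) (by omega) v hv0 hv1]
      ring
    have h4 : ∑ i ∈ Finset.range j, Polynomial.eval u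
          (Polynomial.C (((i : ℂ) + 1) * cf (i + 1) F) * P (j - i)) =
        v * ∑ i ∈ Finset.range j, (((i : ℂ) + 1) * cf (i + 1) F) * ej ah ν (j - i) (v ^ 2) := by
      rw [Finset.mul_sum]
      apply Finset.sum_congr rfl
      intro i hi
      rw [Finset.mem_range] at hi
      rw [Polynomial.eval_mul, Polynomial.eval_C,
        ← hP (j - i) (by omega) (by omega) v hv0 hv1]
      ring
    rw [h3, h4]
    have hu2 : u ^ 2 * F (v ^ 2) = 1 := by
      rw [hu, ← hKF]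
      field_simp
    have huK : u * (v * K (0, v ^ 2)) = 1 := by
      rw [hu]
      field_simp
    have hmain : ((j : ℂ) + 1) * (v * ej ah ν (j + 1) (v ^ 2)) =
        u ^ 2 * v * (F (v ^ 2) * (((j : ℂ) + 1) * ej ah ν (j + 1) (v ^ 2))) := by
      linear_combination (-((j : ℂ) + 1) * (v * ej ah ν (j + 1) (v ^ 2))) * hu2
    rw [eq_comm, inv_mul_eq_iff_eq_mul₀ hj, hmain, hrec]
    linear_combination ((1 / 2) * (((j : ℂ) + 1) * cf (j + 1) F) * u) * huK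

end Pool.Agent.H7.SZ
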