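import Pool.Agent.H7.SZ.Stm

/-! # Stub SZ-PS (helper44): partial summation -/

set_option autoImplicit false

namespace Pool.Agent.H7.SZ

namespace PsAux

open Finset

theorem abel (c d : ℕ → ℝ) (hc : ∀ m, c (m + 1) ≤ c m)
    (hd : ∀ N, 0 ≤ ∑ m ∈ range N, d m) (N : ℕ) :
    c N * ∑ m ∈ range N, d m ≤ ∑ m ∈ range N, c m * d m := by
  induction N with
  | zero => simp
  | succ N ih =>
    have h1 : c (N + 1) * ∑ m ∈ range (N + 1), d m ≤ c N * ∑ m ∈ range (N + 1), d m :=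
      mul_le_mul_of_nonneg_right (hc N) (hd (N + 1))
    have h2 := sum_range_succ d N
    have h3 := sum_range_succ (fun m => c m * d m) N
    rw [h3]
    rw [h2] at h1 ⊢
    have h4 := mul_add (c N) (∑ m ∈ range N, d m) (d N)
    linarith

/-- `(m+1)^(2/5) - m^(2/5) ≤ (m+1)^(-3/5)` -/
theorem diff_up (m : ℕ) : ((m : ℝ) + 1) ^ (2 / 5 : ℝ) - (m : ℝ) ^ (2 / 5 : ℝ) ≤
    ((m : ℝ) + 1) ^ (-(3 / 5) : ℝ) := by
  have hm : (0 : ℝ) ≤ m := Nat.cast_nonneg m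
  have hx : (0 : ℝ) < (m : ℝ) + 1 := by positivity
  have h1 : ((m : ℝ) + 1) ^ (-(3 / 5) : ℝ) * ((m : ℝ) + 1) ^ (3 / 5 : ℝ) = 1 := by
    rw [← Real.rpow_add hx]; norm_num
  have h2 : ((m : ℝ) + 1) ^ (2 / 5 : ℝ) * ((m : ℝ) + 1) ^ (3 / 5 : ℝ) = (m : ℝ) + 1 := by
    rw [← Real.rpow_add hx]; norm_num
  have h3 : (m : ℝ) ^ (2 / 5 : ℝ) * (m : ℝ) ^ (3 / 5 : ℝ) = m := by
    rw [← Real.rpow_add_of_nonneg hm (by norm_num) (by norm_num)]; norm_num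
  have h4 : (m : ℝ) ^ (3 / 5 : ℝ) ≤ ((m : ℝ) + 1) ^ (3 / 5 : ℝ) :=
    Real.rpow_le_rpow hm (by linarith) (by norm_num)
  have h5 : 0 ≤ (m : ℝ) ^ (2 / 5 : ℝ) := Real.rpow_nonneg hm _
  have h6 : 0 < ((m : ℝ) + 1) ^ (3 / 5 : ℝ) := Real.rpow_pos_of_pos hx _
  refine le_of_mul_le_mul_right ?_ h6
  rw [h1, sub_mul, h2]
  have h7 := mul_le_mul_of_nonneg_left h4 h5
  rw [h3] at h7
  linarith

/-- `η (m+1)^(η-1) ≤ (m+1)^η - m^η` -/
theorem diff_lo {η : ℝ} (h0 : 0 < η) (h1 : η ≤ 1) (m : ℕ) :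
    η * ((m : ℝ) + 1) ^ (η - 1) ≤ ((m : ℝ) + 1) ^ η - (m : ℝ) ^ η := by
  have hm : (0 : ℝ) ≤ m := Nat.cast_nonneg m
  have hx : (0 : ℝ) < (m : ℝ) + 1 := by positivity
  have h2 : (1 + -(1 / ((m : ℝ) + 1))) ^ η ≤ 1 + η * -(1 / ((m : ℝ) + 1)) := by
    apply rpow_one_add_le_one_add_mul_self _ h0.le h1
    have : 1 / ((m : ℝ) + 1) ≤ 1 := by
      rw [div_le_one hx]; linarith
    linarith
  have h3 : (m : ℝ) = ((m : ℝ) + 1) * (1 + -(1 / ((m : ℝ) + 1))) := by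
    field_simp
    ring
  have h4 : 0 ≤ 1 + -(1 / ((m : ℝ) + 1)) := by
    have : 1 / ((m : ℝ) + 1) ≤ 1 := by
      rw [div_le_one hx]; linarith
    linarith
  have h5 : (m : ℝ) ^ η = ((m : ℝ) + 1) ^ η * (1 + -(1 / ((m : ℝ) + 1))) ^ η := by
    conv_lhs => rw [h3]
    exact Real.mul_rpow hx.le h4
  have h6 : ((m : ℝ) + 1) ^ (η - 1) = ((m : ℝ) + 1) ^ η / ((m : ℝ) + 1) := by
    rw [Real.rpow_sub_one hx.ne']
  have h7 : 0 < ((m : ℝ) + 1) ^ η := Real.rpow_pos_of_pos hx _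
  rw [h5, h6]
  have h8 := mul_le_mul_of_nonneg_left h2 h7.le
  have h9 : ((m : ℝ) + 1) ^ η * (1 + η * -(1 / ((m : ℝ) + 1))) =
      ((m : ℝ) + 1) ^ η - η * (((m : ℝ) + 1) ^ η / ((m : ℝ) + 1)) := by ring
  rw [h9] at h8
  linarith

theorem small {η : ℝ} (h0 : 0 < η) (h1 : η ≤ 1) (M : ℕ) :
    ∑ m ∈ range M, ((m : ℝ) + 1) ^ (η - 1) ≤ (M : ℝ) ^ η / η := by
  rw [le_div_iff₀ h0, sum_mul]
  have h := sum_range_sub (fun m : ℕ => (m : ℝ) ^ η) M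
  have h2 : ((0 : ℕ) : ℝ) ^ η = 0 := by
    rw [Nat.cast_zero, Real.zero_rpow h0.ne']
  calc ∑ m ∈ range M, ((m : ℝ) + 1) ^ (η - 1) * η
      ≤ ∑ m ∈ range M, (((m + 1 : ℕ) : ℝ) ^ η - (m : ℝ) ^ η) := by
        refine sum_le_sum fun m _ => ?_
        have := diff_lo h0 h1 m
        push_cast
        linarith
    _ = (M : ℝ) ^ η := by
        rw [h, h2, sub_zero]

/-- the power series sum -/
theorem pw {η : ℝ} (h0 : 0 < η) (h1 : η ≤ 1) (M N : ℕ) (hM : 1 ≤ M) :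
    ∑ m ∈ range N, (1 - 1 / (M : ℝ)) ^ m * ((m : ℝ) + 1) ^ (η - 1) ≤
      (1 / η + 1) * (M : ℝ) ^ η := by
  have hM0 : (0 : ℝ) < M := by exact_mod_cast hM
  have hM1 : (1 : ℝ) ≤ M := by exact_mod_cast hM
  have hr0 : 0 ≤ 1 - 1 / (M : ℝ) := by
    have : 1 / (M : ℝ) ≤ 1 := by rw [div_le_one hM0]; exact hM1
    linarith
  have hr1 : 1 - 1 / (M : ℝ) < 1 := by
    have : 0 < 1 / (M : ℝ) := by positivity
    linarith
  have hA : ∀ m : ℕ, (1 - 1 / (M : ℝ)) ^ m * ((m : ℝ) + 1) ^ (η - 1) ≤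
      (if m < M then ((m : ℝ) + 1) ^ (η - 1) else 0) +
        (1 - 1 / (M : ℝ)) ^ m * (M : ℝ) ^ (η - 1) := by
    intro m
    have hp : 0 ≤ (1 - 1 / (M : ℝ)) ^ m := pow_nonneg hr0 m
    have hp1 : (1 - 1 / (M : ℝ)) ^ m ≤ 1 := pow_le_one₀ hr0 hr1.le
    have hx : (0 : ℝ) < (m : ℝ) + 1 := by positivity
    have hq : 0 < ((m : ℝ) + 1) ^ (η - 1) := Real.rpow_pos_of_pos hx _
    have hq' : 0 < (M : ℝ) ^ (η - 1) := Real.rpow_pos_of_pos hM0 _
    split_ifs with h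
    · have := mul_le_mul_of_nonneg_right hp1 hq.le
      have h2 := mul_nonneg hp hq'.le
      linarith
    · have hle : (M : ℝ) ≤ (m : ℝ) + 1 := by
        have : M ≤ m + 1 := by omega
        exact_mod_cast this
      have h3 : ((m : ℝ) + 1) ^ (η - 1) ≤ (M : ℝ) ^ (η - 1) :=
        Real.rpow_le_rpow_of_nonpos hM0 hle (by linarith)
      have := mul_le_mul_of_nonneg_left h3 hp
      linarith
  have hB : ∑ m ∈ range N, (if m < M then ((m : ℝ) + 1) ^ (η - 1) else 0) ≤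
      (M : ℝ) ^ η / η := by
    refine le_trans ?_ (small h0 h1 M)
    rw [← sum_filter]
    refine sum_le_sum_of_subset_of_nonneg ?_ fun m _ _ => ?_
    · intro m hm
      rw [mem_filter] at hm
      exact mem_range.2 hm.2
    · exact Real.rpow_nonneg (by positivity) _
  have hC : ∑ m ∈ range N, (1 - 1 / (M : ℝ)) ^ m * (M : ℝ) ^ (η - 1) ≤ (M : ℝ) ^ η := by
    rw [← sum_mul]
    have hs : ∑ m ∈ range N, (1 - 1 / (M : ℝ)) ^ m ≤ M := by
      have h := Summable.sum_le_tsum (f := fun m : ℕ => (1 - 1 / (M : ℝ)) ^ m) (range N)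
        (fun m _ => pow_nonneg hr0 m) (summable_geometric_of_lt_one hr0 hr1)
      rw [tsum_geometric_of_lt_one hr0 hr1] at h
      have h2 : (1 - (1 - 1 / (M : ℝ)))⁻¹ = M := by
        rw [sub_sub_cancel, one_div, inv_inv]
      rw [h2] at h
      exact h
    have hq' : 0 < (M : ℝ) ^ (η - 1) := Real.rpow_pos_of_pos hM0 _
    have := mul_le_mul_of_nonneg_right hs hq'.le
    have h6 : (M : ℝ) * (M : ℝ) ^ (η - 1) = (M : ℝ) ^ η := by
      rw [Real.rpow_sub_one hM0.ne']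
      field_simp
    rw [h6] at this
    exact this
  calc ∑ m ∈ range N, (1 - 1 / (M : ℝ)) ^ m * ((m : ℝ) + 1) ^ (η - 1)
      ≤ ∑ m ∈ range N, ((if m < M then ((m : ℝ) + 1) ^ (η - 1) else 0) +
        (1 - 1 / (M : ℝ)) ^ m * (M : ℝ) ^ (η - 1)) := sum_le_sum fun m _ => hA m
    _ ≤ (M : ℝ) ^ η / η + (M : ℝ) ^ η := by
        rw [sum_add_distrib]
        exact add_le_add hB hC
    _ = (1 / η + 1) * (M : ℝ) ^ η := by ring

end PsAux

open PsAux in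
theorem ps : S_PS := by
  intro y C hy hC hA
  refine ⟨C * 1001, by positivity, fun M hM => ?_⟩
  have hM0 : (0 : ℝ) < M := by
    have : 0 < M := by omega
    exact_mod_cast this
  have hM1 : (1 : ℝ) ≤ M := by
    have : 1 ≤ M := by omega
    exact_mod_cast this
  have hr0 : 0 ≤ 1 - 1 / (M : ℝ) := by
    have : 1 / (M : ℝ) ≤ 1 := by rw [div_le_one hM0]; exact hM1
    linarith
  have hr1 : 1 - 1 / (M : ℝ) < 1 := by
    have : 0 < 1 / (M : ℝ) := by positivity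
    linarith
  refine ENNReal.tsum_le_of_sum_range_le fun N => ?_
  have hw : ∀ m, 0 ≤ w m := fun m => Real.rpow_nonneg (by positivity) _
  rw [← ENNReal.ofReal_sum_of_nonneg fun m _ =>
    mul_nonneg (pow_nonneg hr0 m) (mul_nonneg (hw m) (hy m))]
  refine ENNReal.ofReal_le_ofReal ?_
  have hsg : 0 < sg := by unfold sg; norm_num
  -- the decreasing factors
  set c : ℕ → ℝ := fun m => (1 - 1 / (M : ℝ)) ^ m * ((m : ℝ) + 1) ^ (-sg) with hcdef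
  have hc0 : ∀ m, 0 ≤ c m := fun m =>
    mul_nonneg (pow_nonneg hr0 m) (Real.rpow_nonneg (by positivity) _)
  have hcd : ∀ m, c (m + 1) ≤ c m := by
    intro m
    refine mul_le_mul ?_ ?_ (Real.rpow_nonneg (by positivity) _) (pow_nonneg hr0 m)
    · exact pow_le_pow_of_le_one hr0 hr1.le (Nat.le_succ m)
    · refine Real.rpow_le_rpow_of_nonpos (by positivity) ?_ (by linarith)
      push_cast
      linarith
  set d : ℕ → ℝ := fun m => C * (((m + 1 : ℕ) : ℝ) ^ (2 / 5 : ℝ) - (m : ℝ) ^ (2 / 5 : ℝ)) -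
    ((m : ℝ) + 1) * y m with hddef
  have hds : ∀ K : ℕ, 0 ≤ ∑ m ∈ Finset.range K, d m := by
    intro K
    have h1 := Finset.sum_range_sub (fun m : ℕ => (m : ℝ) ^ (2 / 5 : ℝ)) K
    have h2 : ((0 : ℕ) : ℝ) ^ (2 / 5 : ℝ) = 0 := by
      rw [Nat.cast_zero, Real.zero_rpow (by norm_num)]
    have h3 : ∑ m ∈ Finset.range K, d m = C * (K : ℝ) ^ (2 / 5 : ℝ) -
        ∑ m ∈ Finset.range K, ((m : ℝ) + 1) * y m := by
      rw [hddef, Finset.sum_sub_distrib, ← Finset.mul_sum, h1, h2, sub_zero]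
    rw [h3]
    rcases Nat.eq_zero_or_pos K with h | h
    · subst h
      rw [h2]
      simp
    · have := hA K h
      linarith
  have hab := abel c d hcd hds N
  have h0 : 0 ≤ ∑ m ∈ Finset.range N, c m * d m :=
    le_trans (mul_nonneg (hc0 N) (hds N)) hab
  have hterm : ∀ m : ℕ, (1 - 1 / (M : ℝ)) ^ m * (w m * y m) ≤
      C * ((1 - 1 / (M : ℝ)) ^ m * ((m : ℝ) + 1) ^ ((1 / 1000 : ℝ) - 1)) - c m * d m := by
    intro m
    have hx : (0 : ℝ) < (m : ℝ) + 1 := by positivity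
    have e1 : w m = ((m : ℝ) + 1) * ((m : ℝ) + 1) ^ (-sg) := by
      unfold w
      rw [sub_eq_add_neg, Real.rpow_add hx, Real.rpow_one]
    have e2 : ((m : ℝ) + 1) ^ ((1 / 1000 : ℝ) - 1) =
        ((m : ℝ) + 1) ^ (-sg) * ((m : ℝ) + 1) ^ (-(3 / 5) : ℝ) := by
      rw [← Real.rpow_add hx]
      congr 1
      unfold sg
      norm_num
    have e3 := diff_up m
    have e4 : c m * (C * (((m + 1 : ℕ) : ℝ) ^ (2 / 5 : ℝ) - (m : ℝ) ^ (2 / 5 : ℝ))) ≤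
        c m * (C * ((m : ℝ) + 1) ^ (-(3 / 5) : ℝ)) := by
      refine mul_le_mul_of_nonneg_left (mul_le_mul_of_nonneg_left ?_ hC) (hc0 m)
      push_cast
      exact e3
    have e5 : c m * d m = c m * (C * (((m + 1 : ℕ) : ℝ) ^ (2 / 5 : ℝ) - (m : ℝ) ^ (2 / 5 : ℝ))) -
        c m * (((m : ℝ) + 1) * y m) := by
      rw [hddef]; ring
    have e6 : c m * (((m : ℝ) + 1) * y m) = (1 - 1 / (M : ℝ)) ^ m * (w m * y m) := by
      rw [e1, hcdef]; ring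
    have e7 : c m * (C * ((m : ℝ) + 1) ^ (-(3 / 5) : ℝ)) =
        C * ((1 - 1 / (M : ℝ)) ^ m * ((m : ℝ) + 1) ^ ((1 / 1000 : ℝ) - 1)) := by
      rw [e2, hcdef]; ring
    rw [e7] at e4
    rw [e6] at e5
    linarith
  have hpw := pw (η := 1 / 1000) (by norm_num) (by norm_num) M N (by omega)
  have e8 : (2 / 5 - sg : ℝ) = 1 / 1000 := by unfold sg; norm_num
  rw [e8]
  calc ∑ m ∈ Finset.range N, (1 - 1 / (M : ℝ)) ^ m * (w m * y m)
      ≤ ∑ m ∈ Finset.range N, (C * ((1 - 1 / (M : ℝ)) ^ m * ((m : ℝ) + 1) ^ ((1 / 1000 : ℝ) - 1)) -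
          c m * d m) := Finset.sum_le_sum fun m _ => hterm m
    _ = C * ∑ m ∈ Finset.range N, (1 - 1 / (M : ℝ)) ^ m * ((m : ℝ) + 1) ^ ((1 / 1000 : ℝ) - 1) -
          ∑ m ∈ Finset.range N, c m * d m := by
        rw [Finset.sum_sub_distrib, Finset.mul_sum]
    _ ≤ C * ((1 / (1 / 1000) + 1) * (M : ℝ) ^ (1 / 1000 : ℝ)) := by
        have := mul_le_mul_of_nonneg_left hpw hC
        linarith
    _ = C * 1001 * (M : ℝ) ^ (1 / 1000 : ℝ) := by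
        norm_num
        ring

end Pool.Agent.H7.SZ
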