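import Pool.Agent.H7.SZ.Stm2

set_option autoImplicit false

/-! # SZ2-RTP: the root transform (helper56, from RT.lean of helper48) -/

namespace Pool.Agent.H7.SZ

open Metric Set Filter Topology MeasureTheory

theorem rtp_mem {p : ℕ} (hp : 1 ≤ p) {z : ℂ} (hz : z ∈ ball (0 : ℂ) 1) : z ^ p ∈ ball (0 : ℂ) 1 := by
  rw [mem_ball_zero_iff] at hz ⊢
  rw [norm_pow]
  exact pow_lt_one₀ (norm_nonneg _) hz (by omega)

theorem rtp : S_RTP := by
  intro p f φ hp hf hφ h1 hfφ
  have hp0 : p ≠ 0 := by omega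
  have hcomp : DifferentiableOn ℂ (fun z : ℂ => φ (z ^ p)) (ball 0 1) :=
    hφ.comp (by fun_prop) fun z hz => rtp_mem hp hz
  refine ⟨?_, ?_, ?_, ?_⟩
  · exact differentiableOn_id.mul hcomp
  · intro z hz w hw hzw
    simp only at hzw
    have h2 : f (z ^ p) = f (w ^ p) := by
      rw [← hfφ _ (rtp_mem hp hz), ← hfφ _ (rtp_mem hp hw)]
      have h3 : (z * φ (z ^ p)) ^ p = (w * φ (w ^ p)) ^ p := by rw [hzw]
      rw [mul_pow, mul_pow] at h3
      exact h3
    have h3 : z ^ p = w ^ p := hf.inj (rtp_mem hp hz) (rtp_mem hp hw) h2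
    rw [← h3] at hzw
    by_cases hc : φ (z ^ p) = 0
    · have h4 : f (z ^ p) = f 0 := by
        rw [← hfφ _ (rtp_mem hp hz), hc, hf.zero]
        simp [hp0]
      have h5 : z ^ p = 0 := hf.inj (rtp_mem hp hz) (mem_ball_self one_pos) h4
      have h6 : w ^ p = 0 := by rw [← h3, h5]
      rw [pow_eq_zero_iff hp0] at h5 h6
      rw [h5, h6]
    · exact mul_right_cancel₀ hc hzw
  · simp
  · have h2 : DifferentiableAt ℂ (fun z : ℂ => φ (z ^ p)) 0 :=
      hcomp.differentiableAt (isOpen_ball.mem_nhds (mem_ball_self one_pos))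
    have h3 := (hasDerivAt_id (0 : ℂ)).mul h2.hasDerivAt
    have h4 : HasDerivAt (fun z : ℂ => z * φ (z ^ p)) 1 0 := by
      refine h3.congr_deriv ?_
      simp [h1, hp0]
    exact h4.deriv

end Pool.Agent.H7.SZ
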