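import Pool.Agent.H7.SZ.Stm2
import Pool.Agent.H64.BR.UNI
import Pool.Agent.H64.G.R_seed8.W677.MarG2

set_option autoImplicit false

/-! # SZ2-UNQ: the root transform is `z φ(z^p)` (helper85) -/

namespace Pool.Agent.H7.SZ

open Metric Set Filter Topology

namespace UNQ

theorem pow_mem_ball {z : ℂ} {p : ℕ} (hp : 1 ≤ p) (hz : z ∈ ball (0 : ℂ) 1) : z ^ p ∈ ball (0 : ℂ) 1 := by
  rw [mem_ball_zero_iff] at hz ⊢
  rw [norm_pow]
  exact pow_lt_one₀ (norm_nonneg _) hz (by omega)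

theorem dslope_mul {f : ℂ → ℂ} (h0 : f 0 = 0) (w : ℂ) : w * dslope f 0 w = f w := by
  have := sub_smul_dslope f 0 w
  rw [h0, sub_zero, sub_zero, smul_eq_mul] at this
  exact this

end UNQ

open UNQ in
theorem unq : S_UNQ := by
  intro p f g hp hf hg
  have hz0 : (0 : ℂ) ∈ ball (0 : ℂ) 1 := mem_ball_self one_pos
  have hp0 : p ≠ 0 := by omega
  have hpC : (p : ℂ) ≠ 0 := by exact_mod_cast hp0
  set N : ℂ → ℂ := dslope f 0 with hN
  have hNd : DifferentiableOn ℂ N (ball 0 1) :=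
    (Complex.differentiableOn_dslope (isOpen_ball.mem_nhds hz0)).2 hf.diff
  have hN0 : N 0 = 1 := by rw [hN, dslope_same, hf.one]
  have hNm : ∀ w, w * N w = f w := dslope_mul hf.zero
  have hNne : ∀ w ∈ ball (0 : ℂ) 1, N w ≠ 0 := by
    intro w hw h
    by_cases hw0 : w = 0
    · rw [hw0, hN0] at h; exact one_ne_zero h
    · have h2 := hNm w
      rw [h, mul_zero] at h2
      exact hw0 (hf.inj hw hz0 (by rw [hf.zero, ← h2]))
  obtain ⟨H, hHd, hH0, hHe⟩ := Pool.Agent.H64.BR.uni_log hNd hN0 hNne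
  have hg0 : g 0 = 0 := by
    have h1 := hg.2.1 0 hz0
    rw [zero_pow hp0, hf.zero] at h1
    exact pow_eq_zero_iff hp0 |>.1 h1
  set G : ℂ → ℂ := dslope g 0 with hG
  have hGd : DifferentiableOn ℂ G (ball 0 1) :=
    (Complex.differentiableOn_dslope (isOpen_ball.mem_nhds hz0)).2 hg.1
  have hG0 : G 0 = 1 := by rw [hG, dslope_same, hg.2.2]
  have hGm : ∀ w, w * G w = g w := dslope_mul hg0
  have hGp : ∀ z ∈ ball (0 : ℂ) 1, G z ^ p = N (z ^ p) := by
    intro z hz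
    by_cases h : z = 0
    · rw [h, zero_pow hp0, hG0, hN0, one_pow]
    · have h1 := hg.2.1 z hz
      rw [← hGm z, ← hNm (z ^ p), mul_pow] at h1
      exact mul_left_cancel₀ (pow_ne_zero p h) h1
  have hGne : ∀ z ∈ ball (0 : ℂ) 1, G z ≠ 0 := by
    intro z hz h
    have h1 := hGp z hz
    rw [h, zero_pow hp0] at h1
    exact hNne _ (pow_mem_ball hp hz) h1.symm
  obtain ⟨K, hKd, hK0, hKe⟩ := Pool.Agent.H64.BR.uni_log hGd hG0 hGne
  have hpowd : DifferentiableOn ℂ (fun z : ℂ => z ^ p) (ball 0 1) := by fun_prop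
  have hHp : ContinuousOn (fun z => H (z ^ p)) (ball 0 1) :=
    hHd.continuousOn.comp hpowd.continuousOn fun z hz => pow_mem_ball hp hz
  have hKH : ∀ z ∈ ball (0 : ℂ) 1, (p : ℂ) * K z = H (z ^ p) := by
    intro z hz
    refine Pool.Agent.W677.Mar.exp_unique (S := ball (0 : ℂ) 1) (f := fun z => (p : ℂ) * K z)
      (g := fun z => H (z ^ p)) (convex_ball 0 1).isPreconnected
      (continuousOn_const.mul hKd.continuousOn) hHp ?_ hz0 ?_ hz
    · intro x hx
      rw [Complex.exp_nat_mul, hKe x hx, hGp x hx, hHe _ (pow_mem_ball hp hx)]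
    · show (p : ℂ) * K 0 = H (0 ^ p)
      rw [hK0, zero_pow hp0, hH0, mul_zero]
  refine ⟨fun z => Complex.exp (H z / p), ?_, ?_, ?_, ?_⟩
  · exact (hHd.div_const _).cexp
  · show Complex.exp (H 0 / p) = 1
    rw [hH0, zero_div, Complex.exp_zero]
  · intro z hz
    show z * Complex.exp (H z / p) ^ p = f z
    rw [← Complex.exp_nat_mul, mul_div_cancel₀ _ hpC, hHe z hz, hNm]
  · intro z hz
    show g z = z * Complex.exp (H (z ^ p) / p)
    rw [← hKH z hz, mul_div_cancel_left₀ _ hpC, hKe z hz, hGm]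

end Pool.Agent.H7.SZ
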