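import Pool.Agent.H7.SZ.Asm2
import Pool.Agent.H7.SZ.A1
import Pool.Agent.H7.SZ.A2
import Pool.Agent.H7.SZ.A3
import Pool.Agent.H7.SZ.ABS
import Pool.Agent.H7.SZ.AREA
import Pool.Agent.H7.SZ.CFF
import Pool.Agent.H7.SZ.CFP
import Pool.Agent.H7.SZ.COE
import Pool.Agent.H7.SZ.CORE
import Pool.Agent.H7.SZ.DM
import Pool.Agent.H7.SZ.EXR
import Pool.Agent.H7.SZ.FIN
import Pool.Agent.H7.SZ.FRC
import Pool.Agent.H7.SZ.GD
import Pool.Agent.H7.SZ.GRO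
import Pool.Agent.H7.SZ.GWP
import Pool.Agent.H7.SZ.IG
import Pool.Agent.H7.SZ.KER
import Pool.Agent.H7.SZ.LOW
import Pool.Agent.H7.SZ.MN
import Pool.Agent.H7.SZ.PERM
import Pool.Agent.H7.SZ.POL
import Pool.Agent.H7.SZ.PS
import Pool.Agent.H7.SZ.RTP
import Pool.Agent.H7.SZ.SMB
import Pool.Agent.H7.SZ.UNQ
import Pool.Agent.H7.SZ.WAR
import Pool.Agent.H64.SR.Redf
import Pool.Agent.H64.SR.BK
import Pool.Agent.H64.SR.IV
import Pool.Agent.H64.SR.PW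
import Pool.Agent.H64.SR.SQ
import Pool.Agent.H64.SR.TL
import Pool.Agent.H64.SR.V1
import Pool.Agent.H64.SR.V2
import Pool.Agent.H64.SR.V3
import Pool.Agent.H76.CZ.ID2
import Pool.Agent.H76.CZ.INT
import Pool.Agent.H76.CZ.LIM3
import Pool.Agent.H76.CZ.PHI

set_option autoImplicit false

/-! # Project SZ: the unconditional theorems -/

namespace Pool.Agent.H7.SZ

open Metric Set Filter Topology MeasureTheory

theorem redfU : S_REDF :=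
  Pool.Agent.H64.SR.redf Pool.Agent.H64.SR.sq Pool.Agent.H64.SR.bk Pool.Agent.H64.SR.tl
    Pool.Agent.H64.SR.v1 Pool.Agent.H64.SR.v2 Pool.Agent.H64.SR.v3 Pool.Agent.H64.SR.pw
    Pool.Agent.H64.SR.iv Pool.Agent.H76.CZ.id2 Pool.Agent.H76.CZ.phi Pool.Agent.H76.CZ.int
    Pool.Agent.H76.CZ.lim3

theorem permU : S_PERM := perm a1 a2 a3 Pool.Agent.H7.SZ.abs redfU low

/-- **Szegő's estimate for `p = 5`** (`p ≥ 5` with the same exponent). -/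
theorem rootU {p : ℕ} (hp : 5 ≤ p) {f g : ℂ → ℂ} (hf : Sc f) (hg : IsRoot p f g) :
    ∃ C : ℝ, ∀ n : ℕ, 1 ≤ n →
      ‖iteratedDeriv (p * n + 1) g 0 / ((p * n + 1).factorial : ℂ)‖ ≤
        C * (n : ℝ) ^ (-(3 / 5) : ℝ) :=
  root_bound ker pol ig area war frc dm ps smb low gro core gd fin mn permU rtp gwp cfp unq coe
    hp hf hg

/-- **Univalent functions of growth at most `(1 - |z|) ^ (-2/5)`.** -/
theorem growthU {F : ℂ → ℂ} (hF : Sc F) {A : ℝ}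
    (hG : ∀ z ∈ ball (0 : ℂ) 1, ‖F z‖ ≤ A * (1 - ‖z‖) ^ (-(2 / 5) : ℝ)) :
    ∃ C : ℝ, (∀ r ∈ Ioo (0 : ℝ) 1, (1 / (2 * Real.pi)) * ∫ t in (0 : ℝ)..(2 * Real.pi),
        ‖deriv F (circleMap 0 r t)‖ ≤ C * (1 - r) ^ (-(2 / 5) : ℝ)) ∧
      ∀ n : ℕ, 1 ≤ n → ‖iteratedDeriv n F 0 / (n.factorial : ℂ)‖ ≤
        C * (n : ℝ) ^ (-(3 / 5) : ℝ) :=
  growth_bound ker pol ig area war frc dm ps smb low gro core gd fin mn permU cff hF hG

end Pool.Agent.H7.SZ
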