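import Pool.Agent.H7.SZ.Stm

set_option autoImplicit false

/-! # SZ-RT (helper48): the root transform -/

namespace Pool.Agent.H7.SZ

open Metric Set Filter Topology MeasureTheory

theorem rt_mem {z : ℂ} (hz : z ∈ ball (0 : ℂ) 1) : z ^ 5 ∈ ball (0 : ℂ) 1 := by
  rw [mem_ball_zero_iff] at hz ⊢
  rw [norm_pow]
  exact pow_lt_one₀ (norm_nonneg _) hz (by norm_num)

theorem rt : S_RT := by
  intro f φ hf hφ h1 hfφ
  have hcomp : DifferentiableOn ℂ (fun z : ℂ => φ (z ^ 5)) (ball 0 1) :=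
    hφ.comp (by fun_prop) fun z hz => rt_mem hz
  refine ⟨?_, ?_, ?_, ?_⟩
  · exact differentiableOn_id.mul hcomp
  · intro z hz w hw hzw
    simp only at hzw
    have h2 : f (z ^ 5) = f (w ^ 5) := by
      rw [← hfφ _ (rt_mem hz), ← hfφ _ (rt_mem hw)]
      have h3 : (z * φ (z ^ 5)) ^ 5 = (w * φ (w ^ 5)) ^ 5 := by rw [hzw]
      rw [mul_pow, mul_pow] at h3
      exact h3
    have h3 : z ^ 5 = w ^ 5 := hf.inj (rt_mem hz) (rt_mem hw) h2
    rw [← h3] at hzw
    by_cases hc : φ (z ^ 5) = 0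
    · have h4 : f (z ^ 5) = f 0 := by
        rw [← hfφ _ (rt_mem hz), hc, hf.zero]
        simp
      have h5 : z ^ 5 = 0 := hf.inj (rt_mem hz) (mem_ball_self one_pos) h4
      have h6 : w ^ 5 = 0 := by rw [← h3, h5]
      rw [pow_eq_zero_iff (by norm_num)] at h5 h6
      rw [h5, h6]
    · exact mul_right_cancel₀ hc hzw
  · simp
  · have h2 : DifferentiableAt ℂ (fun z : ℂ => φ (z ^ 5)) 0 :=
      hcomp.differentiableAt (isOpen_ball.mem_nhds (mem_ball_self one_pos))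
    have h3 := (hasDerivAt_id (0 : ℂ)).mul h2.hasDerivAt
    have h4 : HasDerivAt (fun z : ℂ => z * φ (z ^ 5)) 1 0 := by
      refine h3.congr_deriv ?_
      simp [h1]
    exact h4.deriv

end Pool.Agent.H7.SZ
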